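import Mathlib

set_option autoImplicit false

namespace Pool.J0
open Module
open scoped Classical
variable {E : Type*} [AddCommGroup E] [Module ℝ E] [FiniteDimensional ℝ E]

/-- span of a finite set of vectors -/
noncomputable abbrev sp (S : Finset E) : Submodule ℝ E := Submodule.span ℝ (S : Set E)

/-- elements of `W` on the positive side of `y` -/
noncomputable def pos (W : Finset E) (y : Dual ℝ E) : Finset E := W.filter (fun w => 0 < y w)

/-- elements of `W` on the negative side of `y` -/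
noncomputable def neg (W : Finset E) (y : Dual ℝ E) : Finset E := W.filter (fun w => y w < 0)

/-- elements of `W` killed by `y` -/
noncomputable def zer (W : Finset E) (y : Dual ℝ E) : Finset E := W.filter (fun w => y w = 0)

/-- the non-coloops of a finite set of vectors -/
noncomputable def ncl (S : Finset E) : Finset E := S.filter (fun w => w ∈ sp (S.erase w))

/-- Standing assumptions on the configuration `W` (including the absence of a full tope). -/
structure Cfg (W : Finset E) : Prop where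
  zero : (0 : E) ∉ W
  par : ∀ w ∈ W, ∀ w' ∈ W, ∀ c : ℝ, 0 < c → w = c • w' → w = w'
  two : ∀ S ⊆ W, sp S = ⊤ ∨ sp (W \ S) = ⊤
  cyc : ∀ y : Dual ℝ E, (∀ w ∈ W, 0 ≤ y w) → y = 0
  nofull : ∀ y : Dual ℝ E, (∀ w ∈ W, y w ≠ 0) → ¬ (sp (pos W y) = ⊤ ∧ sp (neg W y) = ⊤)

/-- A state: zero set `U ∪ {v}`, `U` in the spans of both sides, `v` in neither. -/
structure St (W : Finset E) (y : Dual ℝ E) (U : Finset E) (v : E) : Prop where
  zer : zer W y = insert v U
  hv : v ∉ U
  UA : ∀ u ∈ U, u ∈ sp (pos W y)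
  UB : ∀ u ∈ U, u ∈ sp (neg W y)
  vA : v ∉ sp (pos W y)
  vB : v ∉ sp (neg W y)

/-- Region data: `W = U ⊔ P ⊔ N ⊔ G`. -/
structure Reg (W U P N G : Finset E) : Prop where
  cover : W = U ∪ P ∪ N ∪ G
  dUP : Disjoint U P
  dUN : Disjoint U N
  dUG : Disjoint U G
  dPN : Disjoint P N
  dPG : Disjoint P G
  dNG : Disjoint N G
  UP : ∀ u ∈ U, u ∈ sp P
  UN : ∀ u ∈ U, u ∈ sp N
  card : G.card + finrank ℝ (sp P) + finrank ℝ (sp N) + 1 = 2 * finrank ℝ E
  kP : finrank ℝ (sp P) + 2 ≤ finrank ℝ E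
  kN : finrank ℝ (sp N) + 2 ≤ finrank ℝ E
  cP : ∀ q ∈ P, q ∈ sp (P.erase q ∪ U)
  cN : ∀ q ∈ N, q ∈ sp (N.erase q ∪ U)

/-- the positive label of a state -/
noncomputable def PP (W : Finset E) (y : Dual ℝ E) (U : Finset E) : Finset E :=
  ncl (pos W y ∪ U) \ U

/-- the negative label of a state -/
noncomputable def NN (W : Finset E) (y : Dual ℝ E) (U : Finset E) : Finset E :=
  ncl (neg W y ∪ U) \ U

/-- the remaining elements -/
noncomputable def GG (W : Finset E) (y : Dual ℝ E) (U : Finset E) : Finset E :=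
  W \ (U ∪ PP W y U ∪ NN W y U)

/-- `P₀` is the label of a one-sided state (with `U = ∅`). -/
def Lab (W P₀ : Finset E) : Prop :=
  P₀.Nonempty ∧ ∃ (y : Dual ℝ E) (v : E), St W y ∅ v ∧ PP W y ∅ = P₀ ∧ NN W y ∅ = ∅

/-- a label lies on the positive side of `z` -/
def PL (W : Finset E) (z : Dual ℝ E) : Prop := ∃ P₀ : Finset E, Lab W P₀ ∧ P₀ ⊆ pos W z

/-- the modified colour -/
def sg (W : Finset E) (z : Dual ℝ E) : Prop :=
  (sp (neg W z) = ⊤ ∧ PL W z) ∨ (sp (pos W z) = ⊤ ∧ ¬ PL W (-z))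

end Pool.J0
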