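import Pool.Agent.Helper790.J0.Defs

set_option autoImplicit false

namespace Pool.J0
open Module
open scoped Classical
variable {E : Type*} [AddCommGroup E] [Module ℝ E] [FiniteDimensional ℝ E]


/-- If `q₀` is a coloop of `P` and `u ∈ sp P` is not in the span of the others, then `u` replaces `q₀`. -/
theorem coloop_span (P : Finset E) (q₀ u : E) (hq : q₀ ∈ P) (hu : u ∈ sp P) (hu' : u ∉ sp (P.erase q₀)) :
    sp (insert u (P.erase q₀)) = sp P := by
  have hP : (P : Set E) = insert q₀ ((P.erase q₀ : Finset E) : Set E) := by
    rw [← Finset.coe_insert, Finset.insert_erase hq]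
  have hex : q₀ ∈ Submodule.span ℝ (insert u ((P.erase q₀ : Finset E) : Set E)) := by
    apply mem_span_insert_exchange
    · rw [← hP]; exact hu
    · exact hu'
  apply le_antisymm
  · unfold sp
    rw [Finset.coe_insert, Submodule.span_le]
    intro x hx
    rcases hx with rfl | hx
    · exact hu
    · exact Submodule.subset_span (Finset.mem_of_mem_erase (Finset.mem_coe.mp hx))
  · unfold sp
    rw [Finset.coe_insert, hP, Submodule.span_le]
    intro x hx
    rcases hx with rfl | hx
    · exact hex
    · exact Submodule.subset_span (Set.mem_insert_of_mem _ hx)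

end Pool.J0
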