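import Pool.Agent.Helper790.J0.Defs

set_option autoImplicit false

namespace Pool.J0
open Module
open scoped Classical
variable {E : Type*} [AddCommGroup E] [Module ℝ E] [FiniteDimensional ℝ E]

theorem xi_pi (S : Submodule ℝ E) (q : E) (hq : q ∉ S) :
    ∃ π : Dual ℝ E, π q = 1 ∧ ∀ x ∈ S, π x = 0 := by
  obtain ⟨f, hf, hS⟩ := Submodule.exists_le_ker_of_notMem hq
  refine ⟨(f q)⁻¹ • f, ?_, ?_⟩
  · rw [LinearMap.smul_apply, smul_eq_mul, inv_mul_cancel₀ hf]
  · intro x hx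
    rw [LinearMap.smul_apply, LinearMap.mem_ker.1 (hS hx), smul_zero]

theorem xi_gen (T : Finset E) (hT : ∀ x ∈ T, x ≠ 0) : ∃ ζ : Dual ℝ E, ∀ x ∈ T, ζ x ≠ 0 := by
  by_contra hcon
  push Not at hcon
  let F : T → Submodule ℝ (Dual ℝ E) := fun x => LinearMap.ker (Dual.eval ℝ E (x : E))
  have h1 : ⋃ x : T, (F x : Set (Dual ℝ E)) = Set.univ := by
    rw [Set.eq_univ_iff_forall]
    intro ζ
    obtain ⟨x, hx, h0⟩ := hcon ζ
    exact Set.mem_iUnion.2 ⟨⟨x, hx⟩, h0⟩
  obtain ⟨x, hx⟩ := Subspace.exists_eq_top_of_iUnion_eq_univ (p := F) h1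
  apply hT x x.2
  rw [← Module.forall_dual_apply_eq_zero_iff ℝ (x : E)]
  intro φ
  have : φ ∈ F x := by rw [hx]; trivial
  exact this

theorem xi_ins (P : Finset E) (q u : E) (hq : q ∈ P) (hu : u ∈ sp P) :
    ∃ a : ℝ, ∃ w ∈ sp (P.erase q), u = a • q + w := by
  have h : (P : Set E) = insert q ((P.erase q : Finset E) : Set E) := by
    rw [← Finset.coe_insert, Finset.insert_erase hq]
  have hu' : u ∈ Submodule.span ℝ (insert q ((P.erase q : Finset E) : Set E)) := by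
    rw [← h]; exact hu
  exact Submodule.mem_span_insert.1 hu'

/-- The heart of the local lemma: choice of a functional on `sp U`. `C` = elements of `Q` which are coloops of `P`. -/
theorem exists_xi (U Q P : Finset E) (hQP : Q ⊆ P) (hQ : Q.Nonempty)
    (hUP : ∀ u ∈ U, u ∈ sp P)
    (qh : E) (hqh : qh ∉ sp U) (c : E → ℝ) (hc : ∀ q ∈ Q, 0 < c q)
    (hpar : ∀ q ∈ Q, q - c q • qh ∈ sp U)
    (hnp : ∀ q ∈ Q, ∀ q' ∈ Q, ∀ a : ℝ, 0 < a → q = a • q' → q = q')
    (hcl : ∀ q ∈ Q, q ∈ sp (P.erase q ∪ U)) :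
    ∃ (ξ : Dual ℝ E) (q₀ : E), q₀ ∈ Q ∧ (∀ q ∈ Q, q ≠ q₀ → ξ q₀ / c q₀ < ξ q / c q) ∧
      (q₀ ∈ sp (P.erase q₀) ∨ ∃ u ∈ U, 0 < ξ u ∧ u ∉ sp (P.erase q₀)) := by
  have hπ : ∀ q, ∃ π : Dual ℝ E, q ∉ sp (P.erase q) →
      (π q = 1 ∧ ∀ x ∈ sp (P.erase q), π x = 0) := by
    intro q
    by_cases hq : q ∉ sp (P.erase q)
    · obtain ⟨π, h1, h2⟩ := xi_pi _ q hq
      exact ⟨π, fun _ => ⟨h1, h2⟩⟩
    · exact ⟨0, fun h => absurd h hq⟩
  choose π hπ using hπ
  have hval : ∀ q, q ∉ sp (P.erase q) → ∀ q' ∈ Q, π q q' = if q = q' then 1 else 0 := by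
    intro q hq q' hq'
    split_ifs with h
    · subst h; exact (hπ q hq).1
    · refine (hπ q hq).2 q' (Submodule.subset_span ?_)
      exact Finset.mem_coe.2 (Finset.mem_erase.2 ⟨fun hh => h hh.symm, hQP hq'⟩)
  by_cases h1 : ∃ q ∈ Q, q ∈ sp (P.erase q)
  · -- case 1
    let D := Q.filter (fun q => q ∈ sp (P.erase q))
    have hD : D.Nonempty := by
      obtain ⟨q, hq, h⟩ := h1
      exact ⟨q, Finset.mem_filter.2 ⟨hq, h⟩⟩
    let T : Finset E := ((Q ×ˢ Q).filter (fun p => p.1 ≠ p.2)).image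
      (fun p => (c p.1)⁻¹ • p.1 - (c p.2)⁻¹ • p.2)
    obtain ⟨ζ, hζ⟩ := xi_gen T (by
      intro x hx
      obtain ⟨⟨q, q'⟩, hp, rfl⟩ := Finset.mem_image.1 hx
      obtain ⟨hp1, hp2⟩ := Finset.mem_filter.1 hp
      obtain ⟨hq, hq'⟩ := Finset.mem_product.1 hp1
      simp only at hq hq' hp2 ⊢
      intro h0
      have h2 : (c q)⁻¹ • q = (c q')⁻¹ • q' := sub_eq_zero.1 h0
      apply hp2
      refine hnp q hq q' hq' (c q * (c q')⁻¹) (mul_pos (hc q hq) (inv_pos.2 (hc q' hq'))) ?_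
      rw [mul_smul, ← h2, smul_smul, mul_inv_cancel₀ (hc q hq).ne', one_smul])
    have hζ' : ∀ q ∈ Q, ∀ q' ∈ Q, q ≠ q' → ζ q / c q ≠ ζ q' / c q' := by
      intro q hq q' hq' hne h
      apply hζ _ (Finset.mem_image.2 ⟨(q, q'), Finset.mem_filter.2
        ⟨Finset.mem_product.2 ⟨hq, hq'⟩, hne⟩, rfl⟩)
      rw [map_sub, map_smul, map_smul, smul_eq_mul, smul_eq_mul, ← div_eq_inv_mul,
        ← div_eq_inv_mul, h, sub_self]
    obtain ⟨q₀, hq₀, hmin⟩ := Finset.exists_min_image D (fun q => ζ q / c q) hD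
    have hq₀Q : q₀ ∈ Q := (Finset.mem_filter.1 hq₀).1
    have hq₀s : q₀ ∈ sp (P.erase q₀) := (Finset.mem_filter.1 hq₀).2
    let ξ0 : Dual ℝ E := ∑ q ∈ Q.filter (fun q => q ∉ sp (P.erase q)), π q
    have hξ0 : ∀ q' ∈ Q, ξ0 q' = if q' ∈ sp (P.erase q') then 0 else 1 := by
      intro q' hq'
      show (∑ q ∈ Q.filter (fun q => q ∉ sp (P.erase q)), π q) q' = _
      rw [LinearMap.sum_apply]
      split_ifs with h
      · apply Finset.sum_eq_zero
        intro q hq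
        obtain ⟨_, hq2⟩ := Finset.mem_filter.1 hq
        rw [hval q hq2 q' hq', if_neg]
        rintro rfl
        exact hq2 h
      · rw [Finset.sum_eq_single q']
        · rw [hval q' h q' hq', if_pos rfl]
        · intro q hq hne
          rw [hval q (Finset.mem_filter.1 hq).2 q' hq', if_neg hne]
        · intro hh
          exact absurd (Finset.mem_filter.2 ⟨hq', h⟩) hh
    obtain ⟨M, hM⟩ := (Q.image (fun q => c q * (ζ q₀ / c q₀ - ζ q / c q))).bddAbove
    have hM' : ∀ q ∈ Q, c q * (ζ q₀ / c q₀ - ζ q / c q) < M + 1 := by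
      intro q hq
      have := hM (Finset.mem_coe.2 (Finset.mem_image_of_mem
        (fun q => c q * (ζ q₀ / c q₀ - ζ q / c q)) hq))
      linarith
    refine ⟨(M + 1) • ξ0 + ζ, q₀, hq₀Q, ?_, Or.inl hq₀s⟩
    intro q hq hne
    have hcq := hc q hq
    have e0 : ((M + 1) • ξ0 + ζ) q₀ = ζ q₀ := by
      rw [LinearMap.add_apply, LinearMap.smul_apply, hξ0 q₀ hq₀Q, if_pos hq₀s, smul_zero, zero_add]
    rw [e0, LinearMap.add_apply, LinearMap.smul_apply, hξ0 q hq]
    split_ifs with h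
    · rw [smul_zero, zero_add]
      have h3 := hmin q (Finset.mem_filter.2 ⟨hq, h⟩)
      exact lt_of_le_of_ne h3 (hζ' q₀ hq₀Q q hq (fun hh => hne hh.symm))
    · rw [smul_eq_mul, mul_one, add_div, ← sub_lt_iff_lt_add, lt_div_iff₀ hcq, mul_comm]
      exact hM' q hq
  · -- case 2
    push Not at h1
    have hu : ∀ q ∈ Q, ∃ u ∈ U, u ∉ sp (P.erase q) := by
      intro q hq
      by_contra hcon
      push Not at hcon
      apply h1 q hq
      have h2 : sp (P.erase q ∪ U) ≤ sp (P.erase q) := by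
        apply Submodule.span_le.2
        intro x hx
        rcases Finset.mem_union.1 (Finset.mem_coe.1 hx) with hx | hx
        · exact Submodule.subset_span (Finset.mem_coe.2 hx)
        · exact hcon x hx
      exact h2 (hcl q hq)
    have hpu : ∀ q ∈ Q, ∀ u ∈ U, u ∉ sp (P.erase q) → π q u ≠ 0 := by
      intro q hq u hu hn h0
      obtain ⟨a, w, hw, e⟩ := xi_ins P q u (hQP hq) (hUP u hu)
      have h2 := h0
      rw [e, map_add, map_smul, (hπ q (h1 q hq)).1, (hπ q (h1 q hq)).2 w hw, smul_eq_mul,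
        mul_one, add_zero] at h2
      apply hn
      rw [e, h2, zero_smul, zero_add]
      exact hw
    have hpu' : ∀ q ∈ Q, ∀ u, π q u ≠ 0 → u ∉ sp (P.erase q) := by
      intro q hq u hne hmem
      exact hne ((hπ q (h1 q hq)).2 u hmem)
    by_cases h2 : ∃ u ∈ U, ∑ q ∈ Q, c q * π q u ≠ 0
    · obtain ⟨u, huU, hσ⟩ := h2
      obtain ⟨q₀, hq₀, hne⟩ : ∃ q₀ ∈ Q, π q₀ u ≠ 0 := by
        by_contra hcon
        push Not at hcon
        exact hσ (Finset.sum_eq_zero (fun q hq => by rw [hcon q hq, mul_zero]))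
      set s := ∑ q ∈ Q, c q * π q u with hs
      let t : ℝ := (c q₀ * π q₀ u + 1) / s
      let Sg : Dual ℝ E := ∑ q ∈ Q, c q • π q
      have hSg : ∀ q' ∈ Q, Sg q' = c q' := by
        intro q' hq'
        show (∑ q ∈ Q, c q • π q) q' = _
        rw [LinearMap.sum_apply, Finset.sum_eq_single q']
        · rw [LinearMap.smul_apply, hval q' (h1 q' hq') q' hq', if_pos rfl, smul_eq_mul, mul_one]
        · intro q hq hne
          rw [LinearMap.smul_apply, hval q (h1 q hq) q' hq', if_neg hne, smul_zero]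
        · intro hh; exact absurd hq' hh
      have hSu : Sg u = s := by
        show (∑ q ∈ Q, c q • π q) u = _
        rw [LinearMap.sum_apply]
        rfl
      refine ⟨t • Sg - c q₀ • π q₀, q₀, hq₀, ?_, Or.inr ⟨u, huU, ?_, hpu' q₀ hq₀ u hne⟩⟩
      · intro q hq hqne
        have hc0 := hc q₀ hq₀
        have hcq := hc q hq
        rw [LinearMap.sub_apply, LinearMap.sub_apply, LinearMap.smul_apply, LinearMap.smul_apply,
          LinearMap.smul_apply, LinearMap.smul_apply, hSg q₀ hq₀, hSg q hq,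
          hval q₀ (h1 q₀ hq₀) q₀ hq₀, if_pos rfl, hval q₀ (h1 q₀ hq₀) q hq,
          if_neg (fun hh => hqne hh.symm), smul_eq_mul, smul_eq_mul, smul_eq_mul, smul_eq_mul,
          mul_one, mul_zero, sub_zero, mul_div_assoc, div_self hcq.ne', sub_div, mul_div_assoc,
          div_self hc0.ne']
        linarith
      · rw [LinearMap.sub_apply, LinearMap.smul_apply, LinearMap.smul_apply, hSu, smul_eq_mul,
          smul_eq_mul]
        show 0 < (c q₀ * π q₀ u + 1) / s * s - c q₀ * π q₀ u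
        rw [div_mul_cancel₀ _ hσ]
        linarith
    · push Not at h2
      obtain ⟨q₁, hq₁⟩ := hQ
      obtain ⟨u, huU, hun⟩ := hu q₁ hq₁
      have hne := hpu q₁ hq₁ u huU hun
      obtain ⟨q₀, hq₀, hlt⟩ : ∃ q₀ ∈ Q, π q₀ u < 0 := by
        by_contra hcon
        push Not at hcon
        have h3 := (Finset.sum_eq_zero_iff_of_nonneg
          (fun q hq => mul_nonneg (hc q hq).le (hcon q hq))).1 (h2 u huU) q₁ hq₁
        rcases mul_eq_zero.1 h3 with h4 | h4
        · exact (hc q₁ hq₁).ne' h4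
        · exact hne h4
      refine ⟨-(c q₀ • π q₀), q₀, hq₀, ?_, Or.inr ⟨u, huU, ?_, hpu' q₀ hq₀ u hlt.ne⟩⟩
      · intro q hq hqne
        have hc0 := hc q₀ hq₀
        rw [LinearMap.neg_apply, LinearMap.neg_apply, LinearMap.smul_apply, LinearMap.smul_apply,
          hval q₀ (h1 q₀ hq₀) q₀ hq₀, if_pos rfl, hval q₀ (h1 q₀ hq₀) q hq,
          if_neg (fun hh => hqne hh.symm), smul_eq_mul, smul_eq_mul, mul_one, mul_zero, neg_zero,
          zero_div, neg_div, div_self hc0.ne']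
        norm_num
      · rw [LinearMap.neg_apply, LinearMap.smul_apply, smul_eq_mul]
        have := mul_neg_of_pos_of_neg (hc q₀ hq₀) hlt
        linarith

end Pool.J0
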