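import Pool.Agent.Helper790.J0.Defs

set_option autoImplicit false

namespace Pool.J0
open Module
open scoped Classical
variable {E : Type*} [AddCommGroup E] [Module ℝ E] [FiniteDimensional ℝ E]


theorem nofull_local_ev (a b : ℝ) : ∀ᶠ ε in nhdsWithin (0 : ℝ) (Set.Ioi 0),
    (0 < a → 0 < a + ε * b) ∧ (a < 0 → a + ε * b < 0) ∧ (a = 0 → 0 < b → 0 < a + ε * b) ∧
      (a = 0 → b < 0 → a + ε * b < 0) ∧ (b ≠ 0 → a + ε * b ≠ 0) := by
  have hc : Filter.Tendsto (fun ε : ℝ => a + ε * b) (nhdsWithin 0 (Set.Ioi 0)) (nhds a) := by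
    have : Filter.Tendsto (fun ε : ℝ => a + ε * b) (nhds 0) (nhds (a + 0 * b)) :=
      Continuous.tendsto (by fun_prop) 0
    rw [zero_mul, add_zero] at this
    exact this.mono_left nhdsWithin_le_nhds
  rcases lt_trichotomy a 0 with h | h | h
  · filter_upwards [hc.eventually (gt_mem_nhds h)] with ε hε
    exact ⟨fun h1 => absurd h1 (by linarith), fun _ => hε, fun h1 => absurd h1 (by linarith),
      fun h1 => absurd h1 (by linarith), fun _ => hε.ne⟩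
  · filter_upwards [self_mem_nhdsWithin] with ε hε
    have hε' : 0 < ε := hε
    subst h
    simp only [zero_add]
    exact ⟨fun h1 => absurd h1 (lt_irrefl _), fun h1 => absurd h1 (lt_irrefl _),
      fun _ hb => mul_pos hε' hb, fun _ hb => mul_neg_of_pos_of_neg hε' hb,
      fun hb => mul_ne_zero hε'.ne' hb⟩
  · filter_upwards [hc.eventually (lt_mem_nhds h)] with ε hε
    exact ⟨fun _ => hε, fun h1 => absurd h1 (by linarith), fun h1 => absurd h1 (by linarith),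
      fun h1 => absurd h1 (by linarith), fun _ => hε.ne'⟩

theorem nofull_local_ex (W : Finset E) (f g : Dual ℝ E) : ∃ ε : ℝ, ∀ w ∈ W,
    (0 < f w → 0 < (f + ε • g) w) ∧ (f w < 0 → (f + ε • g) w < 0) ∧
      (f w = 0 → 0 < g w → 0 < (f + ε • g) w) ∧
      (f w = 0 → g w < 0 → (f + ε • g) w < 0) ∧ (g w ≠ 0 → (f + ε • g) w ≠ 0) := by
  have h : ∀ᶠ ε in nhdsWithin (0 : ℝ) (Set.Ioi 0), ∀ w ∈ W,
    (0 < f w → 0 < f w + ε * g w) ∧ (f w < 0 → f w + ε * g w < 0) ∧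
      (f w = 0 → 0 < g w → 0 < f w + ε * g w) ∧
      (f w = 0 → g w < 0 → f w + ε * g w < 0) ∧ (g w ≠ 0 → f w + ε * g w ≠ 0) :=
    (Filter.eventually_all_finset W).2 fun w _ => nofull_local_ev (f w) (g w)
  obtain ⟨ε, hε⟩ := h.exists
  exact ⟨ε, fun w hw => by simpa using hε w hw⟩

/-- Local form of `nofull`: perturb `y` in the direction `h`. -/
theorem nofull_local {W : Finset E} (hW : Cfg W) (y h : Dual ℝ E) (A B : Finset E)
    (hA : A ⊆ W) (hB : B ⊆ W)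
    (h1 : ∀ w ∈ A, 0 < y w ∨ (y w = 0 ∧ 0 < h w))
    (h2 : ∀ w ∈ B, y w < 0 ∨ (y w = 0 ∧ h w < 0))
    (s1 : sp A = ⊤) (s2 : sp B = ⊤) : False := by
  obtain ⟨ζ, hζ⟩ := Module.exists_dual_forall_apply_ne_zero (K := ℝ) (fun w : W => (w : E))
    (fun w h => hW.zero (h ▸ w.2))
  obtain ⟨ε, hε⟩ := nofull_local_ex W h ζ
  obtain ⟨δ, hδ⟩ := nofull_local_ex W y (h + ε • ζ)
  refine hW.nofull (y + δ • (h + ε • ζ)) (fun w hw => ?_) ⟨?_, ?_⟩
  · exact (hδ w hw).2.2.2.2 ((hε w hw).2.2.2.2 (hζ ⟨w, hw⟩))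
  · rw [eq_top_iff, ← s1]
    refine Submodule.span_mono fun w hw => ?_
    have hw' : w ∈ A := hw
    have hwW := hA hw'
    simp only [pos, Finset.coe_filter, Set.mem_ofPred_eq]
    refine ⟨hwW, ?_⟩
    rcases h1 w hw' with h3 | ⟨h3, h4⟩
    · exact (hδ w hwW).1 h3
    · exact (hδ w hwW).2.2.1 h3 ((hε w hwW).1 h4)
  · rw [eq_top_iff, ← s2]
    refine Submodule.span_mono fun w hw => ?_
    have hw' : w ∈ B := hw
    have hwW := hB hw'
    simp only [neg, Finset.coe_filter, Set.mem_ofPred_eq]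
    refine ⟨hwW, ?_⟩
    rcases h2 w hw' with h3 | ⟨h3, h4⟩
    · exact (hδ w hwW).2.1 h3
    · exact (hδ w hwW).2.2.2.1 h3 ((hε w hwW).2.1 h4)

end Pool.J0
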