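import Pool.Agent.Helper790.J0.Defs

set_option autoImplicit false

namespace Pool.J0
open Module
open scoped Classical
variable {E : Type*} [AddCommGroup E] [Module ℝ E] [FiniteDimensional ℝ E]


/-- Elements of `Q` are positively parallel modulo `sp U`; `ξ` has its unique minimum over `q / c q` at `q₀`.
Then `ξ` can be changed outside `sp U` so that exactly `q₀` becomes negative. -/
theorem pick_one (U Q : Finset E) (qh : E) (hqh : qh ∉ sp U) (c : E → ℝ) (hc : ∀ q ∈ Q, 0 < c q)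
    (hpar : ∀ q ∈ Q, q - c q • qh ∈ sp U) (ξ : Dual ℝ E) (q₀ : E) (hq₀ : q₀ ∈ Q)
    (hmin : ∀ q ∈ Q, q ≠ q₀ → ξ q₀ / c q₀ < ξ q / c q) :
    ∃ h : Dual ℝ E, (∀ u ∈ sp U, h u = ξ u) ∧ h q₀ < 0 ∧ ∀ q ∈ Q, q ≠ q₀ → 0 < h q := by
  obtain ⟨f, hf1, hf2⟩ := Submodule.exists_le_ker_of_notMem hqh
  set κ : Dual ℝ E := (f qh)⁻¹ • f with hκ
  have hκU : ∀ u ∈ sp U, κ u = 0 := by
    intro u hu
    have h1 : f u = 0 := hf2 hu
    rw [hκ, LinearMap.smul_apply, h1, smul_zero]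
  have hκq : κ qh = 1 := by
    rw [hκ, LinearMap.smul_apply, smul_eq_mul, inv_mul_cancel₀ hf1]
  have hκQ : ∀ q ∈ Q, κ q = c q := by
    intro q hq
    have h1 := hκU _ (hpar q hq)
    rw [map_sub, map_smul, hκq, smul_eq_mul, mul_one] at h1
    linarith
  have hex : ∀ᶠ t in nhdsWithin (ξ q₀ / c q₀) (Set.Ioi (ξ q₀ / c q₀)),
      ∀ q ∈ Q.erase q₀, t < ξ q / c q := by
    rw [Filter.eventually_all_finset]
    intro q hq
    exact mem_nhdsWithin_of_mem_nhds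
      (Iio_mem_nhds (hmin q (Finset.mem_of_mem_erase hq) (Finset.ne_of_mem_erase hq)))
  obtain ⟨t, ht1, ht2⟩ := (hex.and self_mem_nhdsWithin).exists
  have ht2' : ξ q₀ / c q₀ < t := ht2
  refine ⟨ξ - t • κ, ?_, ?_, ?_⟩
  · intro u hu
    rw [LinearMap.sub_apply, LinearMap.smul_apply, hκU u hu, smul_zero, sub_zero]
  · rw [LinearMap.sub_apply, LinearMap.smul_apply, hκQ q₀ hq₀, smul_eq_mul]
    rw [div_lt_iff₀ (hc q₀ hq₀)] at ht2'
    linarith
  · intro q hq hne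
    have h1 := ht1 q (Finset.mem_erase.mpr ⟨hne, hq⟩)
    rw [lt_div_iff₀ (hc q hq)] at h1
    rw [LinearMap.sub_apply, LinearMap.smul_apply, hκQ q hq, smul_eq_mul]
    linarith

end Pool.J0
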