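import Pool.Agent.Helper790.J0.Defs
import Pool.Agent.Helper790.J0.P_nofull_local
import Pool.Agent.Helper790.J0.P_pick_one
import Pool.Agent.Helper790.J0.P_exists_xi
import Pool.Agent.Helper790.J0.P_coloop_span

set_option autoImplicit false

namespace Pool.J0
open Module
open scoped Classical
variable {E : Type*} [AddCommGroup E] [Module ℝ E] [FiniteDimensional ℝ E]


/-- Local lemma: if the class `Q ⊆ P` vanishes and no element of `Q` is a coloop of `P ∪ U`, there is a full tope. -/
theorem LL {W : Finset E} (hW : Cfg W) (y : Dual ℝ E) (U Q P N : Finset E) (g : E)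
    (hQP : Q ⊆ P) (hQ : Q.Nonempty) (hPW : P ⊆ W) (hNW : N ⊆ W) (hgW : g ∈ W) (hUW : U ⊆ W)
    (hP : ∀ p ∈ P, p ∉ Q → 0 < y p) (hQ0 : ∀ q ∈ Q, y q = 0) (hg : 0 < y g)
    (hN : ∀ n ∈ N, y n < 0) (hU : ∀ u ∈ U, y u = 0)
    (hUP : ∀ u ∈ U, u ∈ sp P) (hgP : sp (insert g P) = ⊤)
    (hNq : ∀ q ∈ Q, sp (insert q N) = ⊤)
    (qh : E) (hqh : qh ∉ sp U) (c : E → ℝ) (hc : ∀ q ∈ Q, 0 < c q)
    (hpar : ∀ q ∈ Q, q - c q • qh ∈ sp U)
    (hcl : ∀ q ∈ Q, q ∈ sp (P.erase q ∪ U)) : False := by
  obtain ⟨ξ, q₀, hq₀, hmin, halt⟩ := exists_xi U Q P hQP hQ hUP qh hqh c hc hpar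
    (fun q hq q' hq' a ha h => hW.par q (hPW (hQP hq)) q' (hPW (hQP hq')) a ha h) hcl
  obtain ⟨h, hh, hneg, hpos⟩ := pick_one U Q qh hqh c hc hpar ξ q₀ hq₀ hmin
  have hA1 : ∀ w ∈ insert g (P.erase q₀), 0 < y w ∨ (y w = 0 ∧ 0 < h w) := by
    intro w hw
    rcases Finset.mem_insert.mp hw with rfl | hw
    · exact Or.inl hg
    · rw [Finset.mem_erase] at hw
      by_cases hwQ : w ∈ Q
      · exact Or.inr ⟨hQ0 w hwQ, hpos w hwQ hw.1⟩
      · exact Or.inl (hP w hw.2 hwQ)
  have hB1 : ∀ w ∈ insert q₀ N, y w < 0 ∨ (y w = 0 ∧ h w < 0) := by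
    intro w hw
    rcases Finset.mem_insert.mp hw with rfl | hw
    · exact Or.inr ⟨hQ0 w hq₀, hneg⟩
    · exact Or.inl (hN w hw)
  have hBW : insert q₀ N ⊆ W := by
    intro w hw
    rcases Finset.mem_insert.mp hw with rfl | hw
    · exact hPW (hQP hq₀)
    · exact hNW hw
  have hAW : insert g (P.erase q₀) ⊆ W := by
    intro w hw
    rcases Finset.mem_insert.mp hw with rfl | hw
    · exact hgW
    · exact hPW (Finset.mem_of_mem_erase hw)
  rcases halt with hin | ⟨u, huU, hu, hun⟩
  · refine nofull_local hW y h (insert g (P.erase q₀)) (insert q₀ N) hAW hBW hA1 hB1 ?_ (hNq q₀ hq₀)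
    rw [eq_top_iff, ← hgP]
    refine Submodule.span_le.mpr ?_
    intro w hw
    rw [Finset.mem_coe, Finset.mem_insert] at hw
    rcases hw with rfl | hw
    · exact Submodule.subset_span (by simp)
    · by_cases hwq : w = q₀
      · subst hwq
        exact Submodule.span_mono (by
          intro x hx
          simp only [Finset.mem_coe] at hx ⊢
          exact Finset.mem_insert_of_mem hx) hin
      · exact Submodule.subset_span (by
          simp only [Finset.mem_coe]
          exact Finset.mem_insert_of_mem (Finset.mem_erase.mpr ⟨hwq, hw⟩))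
  · refine nofull_local hW y h (insert u (insert g (P.erase q₀))) (insert q₀ N) ?_ hBW ?_ hB1 ?_
      (hNq q₀ hq₀)
    · intro w hw
      rcases Finset.mem_insert.mp hw with rfl | hw
      · exact hUW huU
      · exact hAW hw
    · intro w hw
      rcases Finset.mem_insert.mp hw with rfl | hw
      · right
        refine ⟨hU w huU, ?_⟩
        rw [hh w (Submodule.subset_span (by simpa using huU))]
        exact hu
      · exact hA1 w hw
    · have hcs := coloop_span P q₀ u (hQP hq₀) (hUP u huU) hun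
      rw [eq_top_iff, ← hgP]
      refine Submodule.span_le.mpr ?_
      intro w hw
      rw [Finset.mem_coe, Finset.mem_insert] at hw
      rcases hw with rfl | hw
      · exact Submodule.subset_span (by simp)
      · have hwP : w ∈ sp P := Submodule.subset_span (by simpa using hw)
        rw [← hcs] at hwP
        refine Submodule.span_mono ?_ hwP
        intro x hx
        simp only [Finset.mem_coe, Finset.mem_insert] at hx ⊢
        tauto

end Pool.J0
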