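import Pool.Agent.Helper790.J0.Defs

set_option autoImplicit false

namespace Pool.J0
open Module
open scoped Classical
variable {E : Type*} [AddCommGroup E] [Module ℝ E] [FiniteDimensional ℝ E]


theorem reg_symm {W U P N G : Finset E} (h : Reg W U P N G) : Reg W U N P G := by
  exact {
    cover := by rw [h.cover, Finset.union_right_comm U P N]
    dUP := h.dUN
    dUN := h.dUP
    dUG := h.dUG
    dPN := h.dPN.symm
    dPG := h.dNG
    dNG := h.dPG
    UP := h.UN
    UN := h.UP
    card := by have := h.card; omega
    kP := h.kN
    kN := h.kP
    cP := h.cN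
    cN := h.cP }

end Pool.J0
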