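import Pool.Agent.Helper790.J0.Defs

set_option autoImplicit false

namespace Pool.J0
open Module
open scoped Classical
variable {E : Type*} [AddCommGroup E] [Module ℝ E] [FiniteDimensional ℝ E]


theorem rank_union (S T : Finset E) : finrank ℝ (sp (S ∪ T)) ≤ finrank ℝ (sp S) + T.card := by
  have h1 : sp (S ∪ T) = sp S ⊔ sp T := by
    simp only [sp, Finset.coe_union, Submodule.span_union]
  rw [h1]
  have h2 := Submodule.finrank_add_le_finrank_add_finrank (sp S) (sp T)
  have h3 : finrank ℝ (sp T) ≤ T.card := finrank_span_finset_le_card T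
  omega

end Pool.J0
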