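import Pool.Agent.Helper790.J0.Defs

set_option autoImplicit false

namespace Pool.J0
open Module
open scoped Classical
variable {E : Type*} [AddCommGroup E] [Module ℝ E] [FiniteDimensional ℝ E]


theorem not_top_of_rank (S : Finset E) (h : finrank ℝ (sp S) < finrank ℝ E) : sp S ≠ ⊤ := by
  intro h0
  rw [h0, finrank_top] at h
  exact lt_irrefl _ h

end Pool.J0
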