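import Pool.Agent.Helper790.J0.Defs
import Pool.Agent.Helper790.J0.P_rank_union
import Pool.Agent.Helper790.J0.P_not_top_of_rank

set_option autoImplicit false

namespace Pool.J0
open Module
open scoped Classical
variable {E : Type*} [AddCommGroup E] [Module ℝ E] [FiniteDimensional ℝ E]


/-- Uniformity. -/
theorem unif {W : Finset E} (hW : Cfg W) {U P N G : Finset E} (hR : Reg W U P N G) (G' : Finset E) (hG : G' ⊆ G)
    (hc : finrank ℝ E ≤ G'.card + finrank ℝ (sp P)) : sp (P ∪ G') = ⊤ := by
  have hSW : U ∪ N ∪ (G \ G') ⊆ W := by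
    rw [hR.cover]
    intro x hx
    simp only [Finset.mem_union, Finset.mem_sdiff] at hx ⊢
    tauto
  have hle : sp (U ∪ N ∪ (G \ G')) ≤ sp (N ∪ (G \ G')) := by
    rw [Submodule.span_le]
    intro x hx
    have hx' : x ∈ U ∪ N ∪ (G \ G') := hx
    simp only [Finset.mem_union, Finset.mem_sdiff] at hx'
    rcases hx' with (h | h) | h
    · exact Submodule.span_mono (by exact_mod_cast Finset.subset_union_left) (hR.UN x h)
    · apply Submodule.subset_span
      exact_mod_cast Finset.mem_union_left _ h
    · apply Submodule.subset_span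
      exact_mod_cast Finset.mem_union_right _ (Finset.mem_sdiff.2 h)
  have hrank := rank_union N (G \ G')
  have hcard : (G \ G').card = G.card - G'.card := Finset.card_sdiff_of_subset hG
  have hcl : G'.card ≤ G.card := Finset.card_le_card hG
  have hR' := hR.card
  have hlt : finrank ℝ (sp (N ∪ (G \ G'))) < finrank ℝ E := by omega
  have hne : sp (U ∪ N ∪ (G \ G')) ≠ ⊤ := by
    intro h
    apply not_top_of_rank _ hlt
    rw [h] at hle
    exact top_le_iff.1 hle
  have htop := (hW.two _ hSW).resolve_left hne
  rw [eq_top_iff, ← htop]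
  apply Submodule.span_mono
  intro x hx
  have hx' : x ∈ W \ (U ∪ N ∪ (G \ G')) := hx
  rw [hR.cover] at hx'
  have : x ∈ P ∪ G' := by
    simp only [Finset.mem_union, Finset.mem_sdiff] at hx' ⊢
    tauto
  exact this

end Pool.J0
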