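import Pool.Agent.Helper790.J0.Defs
import Pool.Agent.Helper790.J0.P_rank_union
import Pool.Agent.Helper790.J0.P_unif

set_option autoImplicit false

namespace Pool.J0
open Module
open scoped Classical
variable {E : Type*} [AddCommGroup E] [Module ℝ E] [FiniteDimensional ℝ E]


/-- With exactly one element less one gets a hyperplane which misses every other element of `G`. -/
theorem unif_hyper {W : Finset E} (hW : Cfg W) {U P N G : Finset E} (hR : Reg W U P N G) (A : Finset E) (hA : A ⊆ G)
    (hc : A.card + finrank ℝ (sp P) + 1 = finrank ℝ E) :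
    finrank ℝ (sp (P ∪ A)) + 1 = finrank ℝ E ∧ ∀ x ∈ G, x ∉ A → x ∉ sp (P ∪ A) := by
  have hle := rank_union P A
  have hcard := hR.card
  have hkN := hR.kN
  have htop : ∀ x ∈ G, x ∉ A → sp (P ∪ insert x A) = ⊤ := by
    intro x hx hxA
    apply unif hW hR (insert x A)
    · intro y hy
      rw [Finset.mem_insert] at hy
      rcases hy with h | h
      · rw [h]; exact hx
      · exact hA h
    · rw [Finset.card_insert_of_notMem hxA]
      omega
  have hEq : ∀ x, P ∪ insert x A = (P ∪ A) ∪ {x} := by
    intro x
    ext y
    simp only [Finset.mem_union, Finset.mem_insert, Finset.mem_singleton]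
    tauto
  constructor
  · obtain ⟨x, hx⟩ : ∃ x, x ∈ G \ A := by
      have h1 : 0 < (G \ A).card := by
        have h2 := Finset.le_card_sdiff A G
        omega
      exact Finset.card_pos.mp h1
    rw [Finset.mem_sdiff] at hx
    have h1 := htop x hx.1 hx.2
    have h2 := rank_union (P ∪ A) {x}
    rw [← hEq, h1, Finset.card_singleton, finrank_top] at h2
    omega
  · intro x hx hxA hmem
    have h1 := htop x hx hxA
    have h2 : sp (P ∪ insert x A) ≤ sp (P ∪ A) := by
      rw [Submodule.span_le]
      intro y hy
      rw [hEq] at hy
      rw [Finset.mem_coe, Finset.mem_union, Finset.mem_singleton] at hy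
      rcases hy with h | h
      · exact Submodule.subset_span h
      · rw [h]; exact hmem
    rw [h1, top_le_iff] at h2
    rw [h2, finrank_top] at hle
    omega

end Pool.J0
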