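import Pool.Agent.Helper790.J0.Defs
import Pool.Agent.Helper790.J0.P_rank_union
import Pool.Agent.Helper790.J0.P_unif

set_option autoImplicit false

namespace Pool.J0
open Module
open scoped Classical
variable {E : Type*} [AddCommGroup E] [Module ℝ E] [FiniteDimensional ℝ E]


theorem unif_two_aux {W : Finset E} (hW : Cfg W) {U P N G : Finset E} (hR : Reg W U P N G) (x : E)
    (hx : x ∈ G) (S : Finset E) (hS : S ⊆ G) (hxS : x ∉ S)
    (hc : S.card + 1 + finrank ℝ (sp P) ≤ finrank ℝ E) : x ∉ sp (S ∪ P) := by
  intro hmem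
  have hcard := hR.card
  have hkN := hR.kN
  have hsub : insert x S ⊆ G := Finset.insert_subset hx hS
  have h1 : (insert x S).card ≤ finrank ℝ E - finrank ℝ (sp P) := by
    rw [Finset.card_insert_of_notMem hxS]; omega
  have h2 : finrank ℝ E - finrank ℝ (sp P) ≤ G.card := by omega
  obtain ⟨G', hG1, hG2, hG3⟩ := Finset.exists_subsuperset_card_eq hsub h1 h2
  have hxG' : x ∈ G' := hG1 (Finset.mem_insert_self _ _)
  have htop := unif hW hR G' hG2 (by omega)
  have hle : sp (P ∪ G') ≤ sp (P ∪ G'.erase x) := by
    apply Submodule.span_le.2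
    intro w hw
    have hw' : w ∈ P ∪ G' := hw
    show w ∈ sp (P ∪ G'.erase x)
    by_cases hwx : w = x
    · rw [hwx]
      refine Submodule.span_mono ?_ hmem
      intro u hu
      have hu' : u ∈ S ∪ P := hu
      show u ∈ P ∪ G'.erase x
      rw [Finset.mem_union] at hu' ⊢
      rcases hu' with hu' | hu'
      · right
        exact Finset.mem_erase.2 ⟨fun h => hxS (h ▸ hu'), hG1 (Finset.mem_insert_of_mem hu')⟩
      · left; exact hu'
    · apply Submodule.subset_span
      show w ∈ P ∪ G'.erase x
      rw [Finset.mem_union] at hw' ⊢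
      rcases hw' with hw' | hw'
      · left; exact hw'
      · right; exact Finset.mem_erase.2 ⟨hwx, hw'⟩
  rw [htop] at hle
  have htop' : sp (P ∪ G'.erase x) = ⊤ := top_le_iff.1 hle
  have hr := rank_union P (G'.erase x)
  rw [htop', finrank_top, Finset.card_erase_of_mem hxG', hG3] at hr
  omega

/-- Two elements of `G` are independent modulo `sp P`; in particular no element of `G` is in `sp P`. -/
theorem unif_two {W : Finset E} (hW : Cfg W) {U P N G : Finset E} (hR : Reg W U P N G) (x : E) (hx : x ∈ G) :
    x ∉ sp P ∧ ∀ x' ∈ G, x' ≠ x → x ∉ sp (insert x' P) := by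
  have hkP := hR.kP
  constructor
  · have := unif_two_aux hW hR x hx ∅ (Finset.empty_subset _) (Finset.notMem_empty _)
      (by rw [Finset.card_empty]; omega)
    rwa [Finset.empty_union] at this
  · intro x' hx' hne
    have := unif_two_aux hW hR x hx {x'} (Finset.singleton_subset_iff.2 hx')
      (by rw [Finset.mem_singleton]; exact fun h => hne h.symm)
      (by rw [Finset.card_singleton]; omega)
    have e : ({x'} : Finset E) ∪ P = insert x' P := rfl
    rwa [e] at this

end Pool.J0
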