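import Pool.Agent.Helper790.J0.Defs
import Pool.Agent.Helper790.J0.P_LL
import Pool.Agent.Helper790.J0.P_reg_symm
import Pool.Agent.Helper790.J0.P_unif_hyper
import Pool.Agent.Helper790.J0.P_unif_two

set_option autoImplicit false

namespace Pool.J0
open Module
open scoped Classical
variable {E : Type*} [AddCommGroup E] [Module ℝ E] [FiniteDimensional ℝ E]


theorem alpha_LL_hyper (S : Finset E) (h : finrank ℝ (sp S) + 1 = finrank ℝ E) (v : E)
    (hv : v ∉ sp S) : sp (insert v S) = ⊤ := by
  have h1 : sp S < sp (insert v S) := by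
    refine lt_of_le_of_ne (Submodule.span_mono (by simp)) ?_
    intro he
    apply hv
    rw [he]
    exact Submodule.subset_span (by simp)
  have h2 := Submodule.finrank_lt_finrank_of_lt h1
  have h3 : finrank ℝ (sp (insert v S)) ≤ finrank ℝ E := Submodule.finrank_le _
  exact Submodule.eq_top_of_finrank_eq (by omega)

theorem alpha_LL_eps (S : Finset E) (f g : E → ℝ) (hf : ∀ w ∈ S, 0 < f w) :
    ∃ ε : ℝ, 0 < ε ∧ ∀ w ∈ S, ε * |g w| < f w := by
  induction S using Finset.induction_on with
  | empty => exact ⟨1, one_pos, by simp⟩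
  | insert a S ha ih =>
    obtain ⟨ε, hε, h⟩ := ih fun w hw => hf w (Finset.mem_insert_of_mem hw)
    have hfa : 0 < f a := hf a (Finset.mem_insert_self _ _)
    have hga : 0 < |g a| + 1 := by positivity
    refine ⟨min ε (f a / (|g a| + 1)), lt_min hε (by positivity), fun w hw => ?_⟩
    rcases Finset.mem_insert.mp hw with rfl | hw
    · calc min ε (f w / (|g w| + 1)) * |g w| ≤ (f w / (|g w| + 1)) * |g w| :=
            mul_le_mul_of_nonneg_right (min_le_right _ _) (abs_nonneg _)
        _ < (f w / (|g w| + 1)) * (|g w| + 1) :=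
            mul_lt_mul_of_pos_left (by linarith) (by positivity)
        _ = f w := by field_simp
    · calc min ε (f a / (|g a| + 1)) * |g w| ≤ ε * |g w| :=
            mul_le_mul_of_nonneg_right (min_le_left _ _) (abs_nonneg _)
        _ < f w := h w hw

/-- If only elements of `P` vanish (besides `U` and `x`) then they lie in the hyperplane spanned by `N` and the negative
elements of `G`. -/
theorem alpha_LL {W : Finset E} (hW : Cfg W) {U P N G : Finset E} (hR : Reg W U P N G) (o : Dual ℝ E)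
    (hoU : ∀ u ∈ U, o u = 0) (hoP : ∀ p ∈ P, 0 < o p) (y : Dual ℝ E)
    (hyU : ∀ u ∈ U, y u = 0) (hyP : ∀ p ∈ P, 0 ≤ y p) (hyN : ∀ n ∈ N, y n < 0)
    (x : E) (hx : x ∈ G) (hx0 : y x = 0)
    (hcp : (G.filter (fun x => 0 < y x)).card + finrank ℝ (sp P) + 1 = finrank ℝ E)
    (hcn : (G.filter (fun x => y x < 0)).card + finrank ℝ (sp N) + 1 = finrank ℝ E)
    (hcls : ∀ q ∈ P, y q = 0 → ∀ q' ∈ P, y q' = 0 → ∃ a : ℝ, q' - a • q ∈ sp U)
    (q : E) (hq : q ∈ P) (hq0 : y q = 0) : q ∈ sp (N ∪ G.filter (fun x => y x < 0)) := by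
  by_contra hcon
  obtain ⟨A', hA'⟩ : ∃ A' : Finset E, A' = G.filter (fun x => 0 < y x) := ⟨_, rfl⟩
  obtain ⟨B', hB'⟩ : ∃ B' : Finset E, B' = G.filter (fun x => y x < 0) := ⟨_, rfl⟩
  rw [← hA'] at hcp
  rw [← hB'] at hcn hcon
  have hA'G : A' ⊆ G := by rw [hA']; exact Finset.filter_subset _ _
  have hB'G : B' ⊆ G := by rw [hB']; exact Finset.filter_subset _ _
  have hxA' : x ∉ A' := by
    rw [hA', Finset.mem_filter, hx0]
    exact fun h => lt_irrefl _ h.2
  have hGW : G ⊆ W := by rw [hR.cover]; exact Finset.subset_union_right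
  have hPW : P ⊆ W := by
    rw [hR.cover]
    intro w hw
    simp [hw]
  have hNW : N ⊆ W := by
    rw [hR.cover]
    intro w hw
    simp [hw]
  have hUW : U ⊆ W := by
    rw [hR.cover]
    intro w hw
    simp [hw]
  have hY1 := unif_hyper hW (reg_symm hR) B' hB'G hcn
  have hP1 := unif_hyper hW hR A' hA'G hcp
  have hspU : sp U ≤ sp (N ∪ B') := by
    rw [Submodule.span_le]
    intro u hu
    exact Submodule.span_mono (by simp) (hR.UN u hu)
  have hspUo : ∀ v ∈ sp U, o v = 0 := by
    intro v hv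
    have : sp U ≤ LinearMap.ker o := by
      rw [Submodule.span_le]
      intro u hu
      exact hoU u hu
    exact this hv
  have hpar : ∀ q' ∈ P.filter (fun w => y w = 0), ∃ a : ℝ, 0 < a ∧ q' - a • q ∈ sp U := by
    intro q' hq'
    rw [Finset.mem_filter] at hq'
    obtain ⟨a, ha⟩ := hcls q hq hq0 q' hq'.1 hq'.2
    refine ⟨a, ?_, ha⟩
    have h1 := hspUo _ ha
    rw [map_sub, map_smul, smul_eq_mul] at h1
    have h2 := hoP q hq
    have h3 := hoP q' hq'.1
    by_contra hna
    rw [not_lt] at hna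
    nlinarith
  choose! c hc using hpar
  obtain ⟨f, hf1, hf2⟩ := Submodule.exists_le_ker_of_notMem (unif_two hW hR x hx).1
  obtain ⟨h, hh⟩ : ∃ h : Dual ℝ E, h = (f x) • f := ⟨_, rfl⟩
  have hhx : 0 < h x := by
    rw [hh]
    show 0 < f x * f x
    exact mul_self_pos.mpr hf1
  have hhP : ∀ v ∈ sp P, h v = 0 := by
    intro v hv
    rw [hh]
    show f x * f v = 0
    have : f v = 0 := hf2 hv
    rw [this, mul_zero]
  obtain ⟨ε, hε, heps⟩ := alpha_LL_eps (A' ∪ (N ∪ B')) (fun w => |y w|) (fun w => h w) (by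
    intro w hw
    show 0 < |y w|
    rw [abs_pos]
    rcases Finset.mem_union.mp hw with h1 | h1
    · rw [hA', Finset.mem_filter] at h1
      exact h1.2.ne'
    · rcases Finset.mem_union.mp h1 with h2 | h2
      · exact (hyN w h2).ne
      · rw [hB', Finset.mem_filter] at h2
        exact h2.2.ne)
  have hev : ∀ w, (y + ε • h) w = y w + ε * h w := fun w => rfl
  refine LL hW (y + ε • h) U (P.filter (fun w => y w = 0)) (P ∪ A') (N ∪ B') x
    ((Finset.filter_subset _ _).trans Finset.subset_union_left) ⟨q, Finset.mem_filter.mpr ⟨hq, hq0⟩⟩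
    (Finset.union_subset hPW (hA'G.trans hGW)) (Finset.union_subset hNW (hB'G.trans hGW)) (hGW hx)
    hUW ?_ ?_ ?_ ?_ ?_ ?_ (alpha_LL_hyper _ hP1.1 x (hP1.2 x hx hxA')) ?_ q ?_ c
    (fun q' hq' => (hc q' hq').1) (fun q' hq' => (hc q' hq').2) ?_
  · intro p hp hpQ
    rw [hev]
    rcases Finset.mem_union.mp hp with h1 | h1
    · rw [hhP p (Submodule.subset_span h1), mul_zero, add_zero]
      refine lt_of_le_of_ne (hyP p h1) fun he => hpQ ?_
      exact Finset.mem_filter.mpr ⟨h1, he.symm⟩
    · have h2 := heps p (Finset.mem_union_left _ h1)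
      rw [hA', Finset.mem_filter] at h1
      have h3 : |y p| = y p := abs_of_pos h1.2
      have h4 := neg_abs_le (h p)
      simp only [h3] at h2
      nlinarith
  · intro q' hq'
    rw [Finset.mem_filter] at hq'
    rw [hev, hhP q' (Submodule.subset_span hq'.1), mul_zero, add_zero]
    exact hq'.2
  · rw [hev, hx0, zero_add]
    exact mul_pos hε hhx
  · intro n hn
    rw [hev]
    have h2 := heps n (Finset.mem_union_right _ hn)
    have h1 : y n < 0 := by
      rcases Finset.mem_union.mp hn with h1 | h1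
      · exact hyN n h1
      · rw [hB', Finset.mem_filter] at h1
        exact h1.2
    have h3 : |y n| = -y n := abs_of_neg h1
    have h4 := le_abs_self (h n)
    simp only [h3] at h2
    nlinarith
  · intro u hu
    rw [hev, hyU u hu, hhP u (hR.UP u hu), mul_zero, add_zero]
  · intro u hu
    exact Submodule.span_mono (by simp) (hR.UP u hu)
  · intro q' hq'
    refine alpha_LL_hyper _ hY1.1 q' fun hmem => hcon ?_
    obtain ⟨hc0, hcU⟩ := hc q' hq'
    have h1 : q = (c q')⁻¹ • (q' - (q' - c q' • q)) := by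
      rw [sub_sub_cancel, smul_smul, inv_mul_cancel₀ hc0.ne', one_smul]
    rw [h1]
    exact Submodule.smul_mem _ _ (Submodule.sub_mem _ hmem (hspU hcU))
  · exact fun hqU => hcon (hspU hqU)
  · intro q' hq'
    rw [Finset.mem_filter] at hq'
    refine Submodule.span_mono ?_ (hR.cP q' hq'.1)
    intro w hw
    simp only [Finset.coe_union, Finset.coe_erase, Set.mem_union, Set.mem_sdiff, Finset.mem_coe,
      Set.mem_singleton_iff] at hw ⊢
    tauto

end Pool.J0
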