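import Pool.Agent.Helper790.J0.Defs
import Pool.Agent.Helper790.J0.P_rank_union
import Pool.Agent.Helper790.J0.P_not_top_of_rank

set_option autoImplicit false

namespace Pool.J0
open Module
open scoped Classical
variable {E : Type*} [AddCommGroup E] [Module ℝ E] [FiniteDimensional ℝ E]


/-- If `x - a • q ∈ sp N` with `x ∈ G`, `q ∈ P` then `q` is not a coloop of `P` (counting, uses `hW.two`). -/
theorem beta_coloop {W : Finset E} (hW : Cfg W) {U P N G : Finset E} (hR : Reg W U P N G) (x q : E) (hx : x ∈ G)
    (hq : q ∈ P) (a : ℝ) (hxa : x - a • q ∈ sp N) : q ∈ sp (P.erase q) := by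
  by_contra hcon
  have hPlt : finrank ℝ (sp (P.erase q)) < finrank ℝ (sp P) := by
    apply Submodule.finrank_lt_finrank_of_lt
    rw [SetLike.lt_iff_le_and_exists]
    refine ⟨Submodule.span_mono (by exact_mod_cast Finset.erase_subset q P), q,
      Submodule.subset_span (by exact_mod_cast hq), hcon⟩
  have hc := hR.card
  have hkP := hR.kP
  have hkN := hR.kN
  have hcard : finrank ℝ E - finrank ℝ (sp N) - 2 ≤ (G.erase x).card := by
    rw [Finset.card_erase_of_mem hx]
    omega
  obtain ⟨S, hS1, hS2⟩ := Finset.exists_subset_card_eq hcard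
  have hSG : S ⊆ G := hS1.trans (Finset.erase_subset _ _)
  have hxS : x ∉ S := fun h => (Finset.mem_erase.1 (hS1 h)).1 rfl
  set S1 : Finset E := N ∪ U ∪ {q, x} ∪ S with hS1d
  have hsub : S1 ⊆ W := by
    rw [hR.cover]
    intro z hz
    simp only [hS1d, Finset.mem_union, Finset.mem_insert, Finset.mem_singleton] at hz ⊢
    rcases hz with ((h | h) | (h | h)) | h
    · tauto
    · tauto
    · subst h; tauto
    · subst h; tauto
    · have := hSG h; tauto
  have hr1 : finrank ℝ (sp S1) < finrank ℝ E := by
    have h1 : sp S1 ≤ sp (N ∪ ({q} ∪ S)) := by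
      rw [Submodule.span_le]
      intro z hz
      have hNle : sp N ≤ sp (N ∪ ({q} ∪ S)) :=
        Submodule.span_mono (by exact_mod_cast Finset.subset_union_left)
      have hqm : q ∈ sp (N ∪ ({q} ∪ S)) := Submodule.subset_span (by simp)
      simp only [hS1d, Finset.coe_union, Finset.coe_insert, Finset.coe_singleton, Set.mem_union,
        Set.mem_insert_iff, Set.mem_singleton_iff, Finset.mem_coe] at hz
      rcases hz with ((h | h) | (h | h)) | h
      · exact hNle (Submodule.subset_span (by exact_mod_cast h))
      · exact hNle (hR.UN z h)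
      · rw [h]; exact hqm
      · rw [h]
        have h2 : x = (x - a • q) + a • q := by abel
        rw [h2]
        exact Submodule.add_mem _ (hNle hxa) (Submodule.smul_mem _ _ hqm)
      · exact Submodule.subset_span (by simp [h])
    have h2 := Submodule.finrank_mono h1
    have h3 := rank_union N ({q} ∪ S)
    have h4 : ({q} ∪ S : Finset E).card ≤ 1 + S.card := by
      refine (Finset.card_union_le _ _).trans ?_
      simp
    omega
  have hr2 : finrank ℝ (sp (W \ S1)) < finrank ℝ E := by
    have h0 : W \ S1 ⊆ P.erase q ∪ (G \ S).erase x := by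
      intro z hz
      rw [hR.cover] at hz
      simp only [hS1d, Finset.mem_sdiff, Finset.mem_union, Finset.mem_insert,
        Finset.mem_singleton, Finset.mem_erase] at hz ⊢
      tauto
    have h1 : sp (W \ S1) ≤ sp (P.erase q ∪ (G \ S).erase x) :=
      Submodule.span_mono (by exact_mod_cast h0)
    have h2 := Submodule.finrank_mono h1
    have h3 := rank_union (P.erase q) ((G \ S).erase x)
    have h4 : ((G \ S).erase x).card = G.card - S.card - 1 := by
      rw [Finset.card_erase_of_mem (Finset.mem_sdiff.2 ⟨hx, hxS⟩), Finset.card_sdiff_of_subset hSG]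
    omega
  rcases hW.two S1 hsub with h | h
  · exact not_top_of_rank _ hr1 h
  · exact not_top_of_rank _ hr2 h

end Pool.J0
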