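import Pool.Agent.Helper790.J0.Defs

set_option autoImplicit false

namespace Pool.J0
open Module
open scoped Classical
variable {E : Type*} [AddCommGroup E] [Module ℝ E] [FiniteDimensional ℝ E]


/-- A functional which does not vanish on finitely many nonzero vectors. -/
theorem gen_avoid (T : Finset E) (hT : ∀ t ∈ T, t ≠ 0) : ∃ ζ : Dual ℝ E, ∀ t ∈ T, ζ t ≠ 0 := by
  
  induction T using Finset.induction_on with
  | empty => exact ⟨0, by simp⟩
  | insert t T ht ih =>
    obtain ⟨ζ, hζ⟩ := ih (fun s hs => hT s (Finset.mem_insert_of_mem hs))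
    by_cases h0 : ζ t = 0
    · have ht0 : t ≠ 0 := hT t (Finset.mem_insert_self _ _)
      obtain ⟨ζ', hζ'⟩ : ∃ f : Dual ℝ E, f t ≠ 0 := by
        by_contra hcon
        push Not at hcon
        exact ht0 ((Module.forall_dual_apply_eq_zero_iff ℝ t).1 hcon)
      obtain ⟨ε, hε⟩ := Infinite.exists_notMem_finset (insert (0:ℝ) (T.image (fun s => -ζ s / ζ' s)))
      rw [Finset.mem_insert, not_or] at hε
      refine ⟨ζ + ε • ζ', ?_⟩
      intro s hs
      rw [LinearMap.add_apply, LinearMap.smul_apply, smul_eq_mul]
      rcases Finset.mem_insert.1 hs with rfl | hs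
      · rw [h0, zero_add]
        exact mul_ne_zero hε.1 hζ'
      · intro hz
        by_cases h1 : ζ' s = 0
        · rw [h1, mul_zero, add_zero] at hz
          exact hζ s hs hz
        · apply hε.2
          rw [Finset.mem_image]
          refine ⟨s, hs, ?_⟩
          field_simp
          linarith
    · refine ⟨ζ, ?_⟩
      intro s hs
      rcases Finset.mem_insert.1 hs with rfl | hs
      · exact h0
      · exact hζ s hs

end Pool.J0
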