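import Pool.Agent.Helper790.J0.Defs
import Pool.Agent.Helper790.J0.P_gen_avoid

set_option autoImplicit false

namespace Pool.J0
open Module
open scoped Classical
variable {E : Type*} [AddCommGroup E] [Module ℝ E] [FiniteDimensional ℝ E]


theorem beta_pick_shift {ι : Type*} (Q : Finset ι) (hQ : Q.Nonempty) (F : ι → ℝ)
    (hF : ∀ q ∈ Q, ∀ q' ∈ Q, F q = F q' → q = q') :
    ∃ q₀ ∈ Q, ∃ α : ℝ, F q₀ + α < 0 ∧ ∀ q ∈ Q, q ≠ q₀ → 0 < F q + α := by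
  obtain ⟨q₀, hq₀, hmin⟩ := Finset.exists_min_image Q F hQ
  refine ⟨q₀, hq₀, ?_⟩
  by_cases hE : (Q.erase q₀).Nonempty
  · obtain ⟨q₁, hq₁, hmin₁⟩ := Finset.exists_min_image (Q.erase q₀) F hE
    have h1 := Finset.mem_erase.mp hq₁
    have h2 : F q₀ < F q₁ := lt_of_le_of_ne (hmin q₁ h1.2) (fun h => h1.1 (hF _ hq₀ _ h1.2 h).symm)
    refine ⟨-(F q₀ + F q₁) / 2, by linarith, fun q hq hne => ?_⟩
    have := hmin₁ q (Finset.mem_erase.mpr ⟨hne, hq⟩)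
    linarith
  · refine ⟨-F q₀ - 1, by linarith, fun q hq hne => ?_⟩
    exact absurd ⟨q, Finset.mem_erase.mpr ⟨hne, hq⟩⟩ hE

theorem beta_pick_dual (V : Submodule ℝ E) (p q : E)
    (h : ∀ a b : ℝ, a • p + b • q ∈ V → a = 0 ∧ b = 0) :
    ∃ κ : Dual ℝ E, (∀ v ∈ V, κ v = 0) ∧ κ p = 1 ∧ κ q = 0 := by
  have hp : p ∉ V ⊔ Submodule.span ℝ {q} := by
    intro hp
    rw [Submodule.mem_sup] at hp
    obtain ⟨v, hv, w, hw, hvw⟩ := hp
    rw [Submodule.mem_span_singleton] at hw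
    obtain ⟨c, rfl⟩ := hw
    have h1 := h 1 (-c) (by
      have : (1 : ℝ) • p + (-c) • q = v := by
        rw [← hvw, one_smul, neg_smul]
        abel
      rw [this]
      exact hv)
    exact one_ne_zero h1.1
  obtain ⟨f, hf, hker⟩ := Submodule.exists_le_ker_of_notMem hp
  refine ⟨(f p)⁻¹ • f, fun v hv => ?_, ?_, ?_⟩
  · have h2 : f v = 0 := hker (Submodule.mem_sup_left hv)
    rw [LinearMap.smul_apply, h2, smul_zero]
  · rw [LinearMap.smul_apply, smul_eq_mul, inv_mul_cancel₀ hf]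
  · have h2 : f q = 0 := hker (Submodule.mem_sup_right (Submodule.mem_span_singleton_self q))
    rw [LinearMap.smul_apply, h2, smul_zero]

/-- Simultaneous choice for two independent classes modulo `sp U`. -/
theorem beta_pick (U Qa Qb : Finset E) (qa qb : E) (hab : ∀ a b : ℝ, a • qa + b • qb ∈ sp U → a = 0 ∧ b = 0)
    (hQa : Qa.Nonempty) (hQb : Qb.Nonempty)
    (ca cb : E → ℝ) (hca : ∀ q ∈ Qa, 0 < ca q ∧ q - ca q • qa ∈ sp U) (hcb : ∀ q ∈ Qb, 0 < cb q ∧ q - cb q • qb ∈ sp U)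
    (hna : ∀ q ∈ Qa, ∀ q' ∈ Qa, ∀ a : ℝ, 0 < a → q = a • q' → q = q')
    (hnb : ∀ q ∈ Qb, ∀ q' ∈ Qb, ∀ a : ℝ, 0 < a → q = a • q' → q = q') :
    ∃ h : Dual ℝ E, (∃ q₀ ∈ Qa, h q₀ < 0 ∧ ∀ q ∈ Qa, q ≠ q₀ → 0 < h q) ∧
      (∃ q₀ ∈ Qb, 0 < h q₀ ∧ ∀ q ∈ Qb, q ≠ q₀ → h q < 0) := by
  obtain ⟨κa, ha1, ha2, ha3⟩ := beta_pick_dual (sp U) qa qb hab
  obtain ⟨κb, hb1, hb2, hb3⟩ := beta_pick_dual (sp U) qb qa (fun a b h => by
    have := hab b a (by rwa [add_comm])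
    exact ⟨this.2, this.1⟩)
  -- generic functional
  let Ta : Finset E := ((Qa ×ˢ Qa).filter (fun r => r.1 ≠ r.2)).image
    (fun r => (ca r.1)⁻¹ • r.1 - (ca r.2)⁻¹ • r.2)
  let Tb : Finset E := ((Qb ×ˢ Qb).filter (fun r => r.1 ≠ r.2)).image
    (fun r => (cb r.1)⁻¹ • r.1 - (cb r.2)⁻¹ • r.2)
  have hne : ∀ (Q : Finset E) (c : E → ℝ), (∀ q ∈ Q, 0 < c q) →
      (∀ q ∈ Q, ∀ q' ∈ Q, ∀ a : ℝ, 0 < a → q = a • q' → q = q') →
      ∀ q ∈ Q, ∀ q' ∈ Q, q ≠ q' → (c q)⁻¹ • q - (c q')⁻¹ • q' ≠ 0 := by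
    intro Q c hc hn q hq q' hq' hqq h0
    apply hqq
    refine hn q hq q' hq' (c q * (c q')⁻¹) (mul_pos (hc q hq) (inv_pos.mpr (hc q' hq'))) ?_
    rw [mul_smul, ← sub_eq_zero.mp h0, smul_smul, mul_inv_cancel₀ (hc q hq).ne', one_smul]
  obtain ⟨ζ, hζ⟩ := gen_avoid (Ta ∪ Tb) (by
    intro t ht
    rcases Finset.mem_union.mp ht with ht | ht
    · obtain ⟨r, hr, rfl⟩ := Finset.mem_image.mp ht
      rw [Finset.mem_filter, Finset.mem_product] at hr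
      exact hne Qa ca (fun q hq => (hca q hq).1) hna _ hr.1.1 _ hr.1.2 hr.2
    · obtain ⟨r, hr, rfl⟩ := Finset.mem_image.mp ht
      rw [Finset.mem_filter, Finset.mem_product] at hr
      exact hne Qb cb (fun q hq => (hcb q hq).1) hnb _ hr.1.1 _ hr.1.2 hr.2)
  have hinja : ∀ q ∈ Qa, ∀ q' ∈ Qa, (ca q)⁻¹ * ζ q = (ca q')⁻¹ * ζ q' → q = q' := by
    intro q hq q' hq' h
    by_contra hqq
    apply hζ ((ca q)⁻¹ • q - (ca q')⁻¹ • q')
    · apply Finset.mem_union_left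
      exact Finset.mem_image.mpr ⟨(q, q'), Finset.mem_filter.mpr
        ⟨Finset.mem_product.mpr ⟨hq, hq'⟩, hqq⟩, rfl⟩
    · rw [map_sub, map_smul, map_smul, smul_eq_mul, smul_eq_mul, h, sub_self]
  have hinjb : ∀ q ∈ Qb, ∀ q' ∈ Qb, -((cb q)⁻¹ * ζ q) = -((cb q')⁻¹ * ζ q') → q = q' := by
    intro q hq q' hq' h
    by_contra hqq
    apply hζ ((cb q)⁻¹ • q - (cb q')⁻¹ • q')
    · apply Finset.mem_union_right
      exact Finset.mem_image.mpr ⟨(q, q'), Finset.mem_filter.mpr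
        ⟨Finset.mem_product.mpr ⟨hq, hq'⟩, hqq⟩, rfl⟩
    · rw [map_sub, map_smul, map_smul, smul_eq_mul, smul_eq_mul, neg_inj.mp h, sub_self]
  obtain ⟨q₁, hq₁, α, hα1, hα2⟩ := beta_pick_shift Qa hQa (fun q => (ca q)⁻¹ * ζ q) hinja
  obtain ⟨q₂, hq₂, β, hβ1, hβ2⟩ := beta_pick_shift Qb hQb (fun q => -((cb q)⁻¹ * ζ q)) hinjb
  have hva : ∀ q ∈ Qa, (ζ + α • κa + (-β) • κb) q = ca q * ((ca q)⁻¹ * ζ q + α) := by
    intro q hq
    obtain ⟨hc, hu⟩ := hca q hq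
    have e1 : κa q = ca q := by
      have := ha1 _ hu
      rw [map_sub, map_smul, ha2, smul_eq_mul, mul_one, sub_eq_zero] at this
      exact this
    have e2 : κb q = 0 := by
      have := hb1 _ hu
      rw [map_sub, map_smul, hb3, smul_zero, sub_zero] at this
      exact this
    rw [LinearMap.add_apply, LinearMap.add_apply, LinearMap.smul_apply, LinearMap.smul_apply, e1,
      e2, smul_eq_mul, smul_zero, add_zero, mul_add, ← mul_assoc, mul_inv_cancel₀ hc.ne', one_mul,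
      mul_comm α]
  have hvb : ∀ q ∈ Qb, (ζ + α • κa + (-β) • κb) q = -(cb q * (-((cb q)⁻¹ * ζ q) + β)) := by
    intro q hq
    obtain ⟨hc, hu⟩ := hcb q hq
    have e1 : κb q = cb q := by
      have := hb1 _ hu
      rw [map_sub, map_smul, hb2, smul_eq_mul, mul_one, sub_eq_zero] at this
      exact this
    have e2 : κa q = 0 := by
      have := ha1 _ hu
      rw [map_sub, map_smul, ha3, smul_zero, sub_zero] at this
      exact this
    rw [LinearMap.add_apply, LinearMap.add_apply, LinearMap.smul_apply, LinearMap.smul_apply, e1,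
      e2, smul_zero, add_zero, smul_eq_mul]
    field_simp
    ring
  refine ⟨ζ + α • κa + (-β) • κb, ⟨q₁, hq₁, ?_, fun q hq hne' => ?_⟩,
    ⟨q₂, hq₂, ?_, fun q hq hne' => ?_⟩⟩
  · rw [hva q₁ hq₁]
    exact mul_neg_of_pos_of_neg (hca q₁ hq₁).1 hα1
  · rw [hva q hq]
    exact mul_pos (hca q hq).1 (hα2 q hq hne')
  · rw [hvb q₂ hq₂]
    exact neg_pos.mpr (mul_neg_of_pos_of_neg (hcb q₂ hq₂).1 hβ1)
  · rw [hvb q hq]
    exact neg_neg_of_pos (mul_pos (hcb q hq).1 (hβ2 q hq hne'))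

end Pool.J0
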