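import Pool.Agent.Helper790.J0.Defs
import Pool.Agent.Helper790.J0.P_nofull_local
import Pool.Agent.Helper790.J0.P_reg_symm
import Pool.Agent.Helper790.J0.P_unif_hyper
import Pool.Agent.Helper790.J0.P_unif_two
import Pool.Agent.Helper790.J0.P_beta_coloop
import Pool.Agent.Helper790.J0.P_beta_pick

set_option autoImplicit false

namespace Pool.J0
open Module
open scoped Classical
variable {E : Type*} [AddCommGroup E] [Module ℝ E] [FiniteDimensional ℝ E]


theorem case_beta_top {X S : Submodule ℝ E} (hX : finrank ℝ X + 1 = finrank ℝ E) (q : E)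
    (hq : q ∉ X) (hXS : X ≤ S) (hqS : q ∈ S) : S = ⊤ := by
  have h1 : X < S := lt_of_le_of_ne hXS (fun h => hq (h ▸ hqS))
  have h2 := Submodule.finrank_lt_finrank_of_lt h1
  apply Submodule.eq_top_of_finrank_eq
  have h3 := Submodule.finrank_le S
  omega

theorem case_beta_lt (q : E) (T : Finset E) (hq : q ∉ sp T) :
    finrank ℝ (sp T) + 1 ≤ finrank ℝ (sp (insert q T)) := by
  have h1 : sp T < sp (insert q T) := by
    refine lt_of_le_of_ne ?_ ?_
    · apply Submodule.span_mono
      rw [Finset.coe_insert]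
      exact Set.subset_insert _ _
    · intro h
      apply hq
      rw [h]
      apply Submodule.subset_span
      simp
  have h2 := Submodule.finrank_lt_finrank_of_lt h1
  omega

theorem case_beta_mem (S : Finset E) {w : E} (hw : w ∈ S) : w ∈ sp S :=
  Submodule.subset_span (by exact_mod_cast hw)

theorem case_beta_mono {S T : Finset E} (h : S ⊆ T) : sp S ≤ sp T :=
  Submodule.span_mono (by exact_mod_cast h)

/-- The vanishing elements of `P` and `N` cannot be independent modulo `sp U`. -/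
theorem case_beta {W : Finset E} (hW : Cfg W) {U P N G : Finset E} (hR : Reg W U P N G) (o : Dual ℝ E)
    (hoU : ∀ u ∈ U, o u = 0) (hoP : ∀ p ∈ P, 0 < o p) (hoN : ∀ n ∈ N, o n < 0) (y : Dual ℝ E)
    (hyU : ∀ u ∈ U, y u = 0) (hyP : ∀ p ∈ P, 0 ≤ y p) (hyN : ∀ n ∈ N, y n ≤ 0)
    (x : E) (hx : x ∈ G) (hx0 : y x = 0) (hx1 : ∀ x' ∈ G, y x' = 0 → x' = x)
    (hcp : (G.filter (fun x => 0 < y x)).card + finrank ℝ (sp P) + 1 = finrank ℝ E)
    (hcn : (G.filter (fun x => y x < 0)).card + finrank ℝ (sp N) + 1 = finrank ℝ E)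
    (h3 : finrank ℝ (sp (zer W y)) ≤ finrank ℝ (sp U) + 2)
    (qa qb : E) (hqa : qa ∈ P) (hqb : qb ∈ N) (hqa0 : y qa = 0) (hqb0 : y qb = 0) (hi : qb ∉ sp (insert qa U)) :
    False := by
  
  have hRs : Reg W U N P G := reg_symm hR
  set A' := G.filter (fun x => 0 < y x) with hA'
  set B' := G.filter (fun x => y x < 0) with hB'
  obtain ⟨hX1, hX2⟩ := unif_hyper hW hR A' (Finset.filter_subset _ _) hcp
  obtain ⟨hY1, hY2⟩ := unif_hyper hW hRs B' (Finset.filter_subset _ _) hcn
  have hxX : x ∉ sp (P ∪ A') := hX2 x hx (by simp [hA', hx0])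
  have hxY : x ∉ sp (N ∪ B') := hY2 x hx (by simp [hB', hx0])
  have hxP : x ∉ sp P := (unif_two hW hR x hx).1
  have hxN : x ∉ sp N := (unif_two hW hRs x hx).1
  have hUP : sp U ≤ sp P := Submodule.span_le.2 (fun u hu => hR.UP u (by exact_mod_cast hu))
  have hUN : sp U ≤ sp N := Submodule.span_le.2 (fun u hu => hR.UN u (by exact_mod_cast hu))
  have hPX : sp P ≤ sp (P ∪ A') := case_beta_mono Finset.subset_union_left
  have hNY : sp N ≤ sp (N ∪ B') := case_beta_mono Finset.subset_union_left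
  have hUW : U ⊆ W := by
    rw [hR.cover]; intro u hu; simp [hu]
  have hPW : P ⊆ W := by
    rw [hR.cover]; intro u hu; simp [hu]
  have hNW : N ⊆ W := by
    rw [hR.cover]; intro u hu; simp [hu]
  have hGW : G ⊆ W := by
    rw [hR.cover]; intro u hu; simp [hu]
  have hoS : ∀ u ∈ sp U, o u = 0 := by
    intro u hu
    have : sp U ≤ LinearMap.ker o := Submodule.span_le.2 (fun u hu => by
      rw [SetLike.mem_coe, LinearMap.mem_ker]
      exact hoU u (by exact_mod_cast hu))
    exact LinearMap.mem_ker.1 (this hu)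
  have hqaU : qa ∉ sp U := fun h => by
    have h1 := hoS _ h
    have h2 := hoP qa hqa
    linarith
  -- everything in the zero set is in the span of qa, qb, U
  have hsub : insert qb (insert qa U) ⊆ zer W y := by
    intro w hw
    rw [Finset.mem_insert, Finset.mem_insert] at hw
    rw [zer, Finset.mem_filter]
    rcases hw with h | h | h
    · subst h; exact ⟨hNW hqb, hqb0⟩
    · subst h; exact ⟨hPW hqa, hqa0⟩
    · exact ⟨hUW h, hyU w h⟩
  have hle : sp (insert qb (insert qa U)) ≤ sp (zer W y) := case_beta_mono hsub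
  have hfr : finrank ℝ (sp (zer W y)) ≤ finrank ℝ (sp (insert qb (insert qa U))) := by
    have h1 := case_beta_lt qa U hqaU
    have h2 := case_beta_lt qb (insert qa U) hi
    omega
  have heq : sp (insert qb (insert qa U)) = sp (zer W y) :=
    Submodule.eq_of_le_of_finrank_le hle hfr
  have hdec : ∀ w ∈ W, y w = 0 → ∃ α β : ℝ, ∃ u ∈ sp U, w = α • qa + β • qb + u := by
    intro w hw hw0
    have h1 : w ∈ sp (insert qb (insert qa U)) := by
      rw [heq]
      apply case_beta_mem
      rw [zer, Finset.mem_filter]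
      exact ⟨hw, hw0⟩
    rw [sp, Finset.coe_insert, Submodule.mem_span_insert] at h1
    obtain ⟨β, z, hz, h2⟩ := h1
    rw [Finset.coe_insert, Submodule.mem_span_insert] at hz
    obtain ⟨α, u, hu, h3⟩ := hz
    exact ⟨α, β, u, hu, by rw [h2, h3]; abel⟩
  obtain ⟨a, b, u, hu, hxe⟩ := hdec x (hGW hx) hx0
  have hqaP : qa ∈ sp P := case_beta_mem P hqa
  have hqbN : qb ∈ sp N := case_beta_mem N hqb
  have ha : a ≠ 0 := by
    intro h
    apply hxN
    rw [hxe, h, zero_smul, zero_add]
    exact add_mem (Submodule.smul_mem _ _ hqbN) (hUN hu)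
  have hb : b ≠ 0 := by
    intro h
    apply hxP
    rw [hxe, h, zero_smul, add_zero]
    exact add_mem (Submodule.smul_mem _ _ hqaP) (hUP hu)
  have hqbX : qb ∉ sp (P ∪ A') := by
    intro h
    apply hxX
    rw [hxe]
    exact add_mem (add_mem (Submodule.smul_mem _ _ (hPX hqaP)) (Submodule.smul_mem _ _ h))
      (hPX (hUP hu))
  have hqaY : qa ∉ sp (N ∪ B') := by
    intro h
    apply hxY
    rw [hxe]
    exact add_mem (add_mem (Submodule.smul_mem _ _ h) (Submodule.smul_mem _ _ (hNY hqbN)))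
      (hNY (hUN hu))
  have hPa : ∀ q ∈ P, y q = 0 → ∃ α : ℝ, 0 < α ∧ q - α • qa ∈ sp U := by
    intro q hq hq0
    obtain ⟨α, β, u', hu', he⟩ := hdec q (hPW hq) hq0
    have hβ : β = 0 := by
      by_contra hne
      apply hqbX
      have h1 : β • qb ∈ sp (P ∪ A') := by
        have : β • qb = q - α • qa - u' := by rw [he]; abel
        rw [this]
        exact sub_mem (sub_mem (hPX (case_beta_mem P hq)) (Submodule.smul_mem _ _ (hPX hqaP)))
          (hPX (hUP hu'))
      exact (Submodule.smul_mem_iff _ hne).1 h1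
    subst hβ
    rw [zero_smul, add_zero] at he
    refine ⟨α, ?_, ?_⟩
    · have h1 := hoP q hq
      rw [he, map_add, hoS u' hu', add_zero, map_smul, smul_eq_mul] at h1
      exact (pos_iff_pos_of_mul_pos h1).2 (hoP qa hqa)
    · rw [he, add_sub_cancel_left]
      exact hu'
  have hNb : ∀ q ∈ N, y q = 0 → ∃ β : ℝ, 0 < β ∧ q - β • qb ∈ sp U := by
    intro q hq hq0
    obtain ⟨α, β, u', hu', he⟩ := hdec q (hNW hq) hq0
    have hα : α = 0 := by
      by_contra hne
      apply hqaY
      have h1 : α • qa ∈ sp (N ∪ B') := by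
        have : α • qa = q - β • qb - u' := by rw [he]; abel
        rw [this]
        exact sub_mem (sub_mem (hNY (case_beta_mem N hq)) (Submodule.smul_mem _ _ (hNY hqbN)))
          (hNY (hUN hu'))
      exact (Submodule.smul_mem_iff _ hne).1 h1
    subst hα
    rw [zero_smul, zero_add] at he
    refine ⟨β, ?_, ?_⟩
    · have h1 := hoN q hq
      rw [he, map_add, hoS u' hu', add_zero, map_smul, smul_eq_mul] at h1
      have h2 := hoN qb hqb
      by_contra hneg
      nlinarith [not_lt.1 hneg]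
    · rw [he, add_sub_cancel_left]
      exact hu'
  choose! ca hca using hPa
  choose! cb hcb using hNb
  set Qa := P.filter (fun q => y q = 0) with hQa
  set Qb := N.filter (fun q => y q = 0) with hQb
  have hab : ∀ a b : ℝ, a • qa + b • qb ∈ sp U → a = 0 ∧ b = 0 := by
    intro a b h
    have hb0 : b = 0 := by
      by_contra hne
      apply hi
      have h1 : b • qb ∈ sp (insert qa U) := by
        have : b • qb = (a • qa + b • qb) - a • qa := by abel
        rw [this]
        exact sub_mem (case_beta_mono (Finset.subset_insert _ _) h)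
          (Submodule.smul_mem _ _ (case_beta_mem _ (Finset.mem_insert_self _ _)))
      exact (Submodule.smul_mem_iff _ hne).1 h1
    refine ⟨?_, hb0⟩
    by_contra hne
    apply hqaU
    rw [hb0, zero_smul, add_zero] at h
    exact (Submodule.smul_mem_iff _ hne).1 h
  obtain ⟨h, ⟨q₀, hq₀, hq₀1, hq₀2⟩, ⟨q₁, hq₁, hq₁1, hq₁2⟩⟩ := beta_pick U Qa Qb qa qb hab
    ⟨qa, by rw [hQa, Finset.mem_filter]; exact ⟨hqa, hqa0⟩⟩
    ⟨qb, by rw [hQb, Finset.mem_filter]; exact ⟨hqb, hqb0⟩⟩ ca cb
    (fun q hq => hca q (Finset.mem_filter.1 hq).1 (Finset.mem_filter.1 hq).2)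
    (fun q hq => hcb q (Finset.mem_filter.1 hq).1 (Finset.mem_filter.1 hq).2)
    (fun q hq q' hq' a ha he => hW.par q (hPW (Finset.mem_filter.1 hq).1) q'
      (hPW (Finset.mem_filter.1 hq').1) a ha he)
    (fun q hq q' hq' a ha he => hW.par q (hNW (Finset.mem_filter.1 hq).1) q'
      (hNW (Finset.mem_filter.1 hq').1) a ha he)
  obtain ⟨hq₀P, hq₀0⟩ := Finset.mem_filter.1 hq₀
  obtain ⟨hq₁N, hq₁0⟩ := Finset.mem_filter.1 hq₁
  obtain ⟨hca0, hca1⟩ := hca q₀ hq₀P hq₀0
  obtain ⟨hcb0, hcb1⟩ := hcb q₁ hq₁N hq₁0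
  have hc0 : q₀ ∈ sp (P.erase q₀) := by
    apply beta_coloop hW hR x q₀ hx hq₀P (a / ca q₀)
    have h1 : x - (a / ca q₀) • q₀ = b • qb + (u - (a / ca q₀) • (q₀ - ca q₀ • qa)) := by
      have h2 : (a / ca q₀) • (q₀ - ca q₀ • qa) = (a / ca q₀) • q₀ - a • qa := by
        rw [smul_sub, smul_smul, div_mul_cancel₀ _ hca0.ne']
      rw [h2, hxe]
      abel
    rw [h1]
    exact add_mem (Submodule.smul_mem _ _ hqbN) (hUN (sub_mem hu (Submodule.smul_mem _ _ hca1)))
  have hc1 : q₁ ∈ sp (N.erase q₁) := by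
    apply beta_coloop hW hRs x q₁ hx hq₁N (b / cb q₁)
    have h1 : x - (b / cb q₁) • q₁ = a • qa + (u - (b / cb q₁) • (q₁ - cb q₁ • qb)) := by
      have h2 : (b / cb q₁) • (q₁ - cb q₁ • qb) = (b / cb q₁) • q₁ - b • qb := by
        rw [smul_sub, smul_smul, div_mul_cancel₀ _ hcb0.ne']
      rw [h2, hxe]
      abel
    rw [h1]
    exact add_mem (Submodule.smul_mem _ _ hqaP) (hUP (sub_mem hu (Submodule.smul_mem _ _ hcb1)))
  have hq₁X : q₁ ∉ sp (P ∪ A') := by
    intro hmem
    apply hqbX
    have h1 : cb q₁ • qb ∈ sp (P ∪ A') := by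
      have : cb q₁ • qb = q₁ - (q₁ - cb q₁ • qb) := by abel
      rw [this]
      exact sub_mem hmem (hPX (hUP hcb1))
    exact (Submodule.smul_mem_iff _ hcb0.ne').1 h1
  have hq₀Y : q₀ ∉ sp (N ∪ B') := by
    intro hmem
    apply hqaY
    have h1 : ca q₀ • qa ∈ sp (N ∪ B') := by
      have : ca q₀ • qa = q₀ - (q₀ - ca q₀ • qa) := by abel
      rw [this]
      exact sub_mem hmem (hNY (hUN hca1))
    exact (Submodule.smul_mem_iff _ hca0.ne').1 h1
  have hs1 : sp (P.erase q₀ ∪ A' ∪ {q₁}) = ⊤ := by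
    apply case_beta_top hX1 q₁ hq₁X
    · rw [sp, Submodule.span_le]
      intro w hw
      have hw' : w ∈ P ∪ A' := by exact_mod_cast hw
      rw [Finset.mem_union] at hw'
      rcases hw' with hwP | hwA
      · by_cases hwq : w = q₀
        · subst hwq
          refine case_beta_mono ?_ hc0
          intro z hz
          simp only [Finset.mem_union]
          exact Or.inl (Or.inl hz)
        · apply case_beta_mem
          simp only [Finset.mem_union, Finset.mem_erase]
          exact Or.inl (Or.inl ⟨hwq, hwP⟩)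
      · apply case_beta_mem
        simp only [Finset.mem_union]
        exact Or.inl (Or.inr hwA)
    · apply case_beta_mem
      simp
  have hs2 : sp (N.erase q₁ ∪ B' ∪ {q₀}) = ⊤ := by
    apply case_beta_top hY1 q₀ hq₀Y
    · rw [sp, Submodule.span_le]
      intro w hw
      have hw' : w ∈ N ∪ B' := by exact_mod_cast hw
      rw [Finset.mem_union] at hw'
      rcases hw' with hwP | hwA
      · by_cases hwq : w = q₁
        · subst hwq
          refine case_beta_mono ?_ hc1
          intro z hz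
          simp only [Finset.mem_union]
          exact Or.inl (Or.inl hz)
        · apply case_beta_mem
          simp only [Finset.mem_union, Finset.mem_erase]
          exact Or.inl (Or.inl ⟨hwq, hwP⟩)
      · apply case_beta_mem
        simp only [Finset.mem_union]
        exact Or.inl (Or.inr hwA)
    · apply case_beta_mem
      simp
  refine nofull_local hW y h (P.erase q₀ ∪ A' ∪ {q₁}) (N.erase q₁ ∪ B' ∪ {q₀}) ?_ ?_ ?_ ?_ hs1 hs2
  · intro w hw
    simp only [Finset.mem_union, Finset.mem_erase, Finset.mem_singleton] at hw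
    rcases hw with (⟨-, hw⟩ | hw) | hw
    · exact hPW hw
    · exact hGW (Finset.mem_filter.1 hw).1
    · rw [hw]; exact hNW hq₁N
  · intro w hw
    simp only [Finset.mem_union, Finset.mem_erase, Finset.mem_singleton] at hw
    rcases hw with (⟨-, hw⟩ | hw) | hw
    · exact hNW hw
    · exact hGW (Finset.mem_filter.1 hw).1
    · rw [hw]; exact hPW hq₀P
  · intro w hw
    simp only [Finset.mem_union, Finset.mem_erase, Finset.mem_singleton] at hw
    rcases hw with (⟨hne, hw⟩ | hw) | hw
    · rcases (hyP w hw).lt_or_eq with h1 | h1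
      · exact Or.inl h1
      · exact Or.inr ⟨h1.symm, hq₀2 w (Finset.mem_filter.2 ⟨hw, h1.symm⟩) hne⟩
    · exact Or.inl (Finset.mem_filter.1 hw).2
    · rw [hw]; exact Or.inr ⟨hq₁0, hq₁1⟩
  · intro w hw
    simp only [Finset.mem_union, Finset.mem_erase, Finset.mem_singleton] at hw
    rcases hw with (⟨hne, hw⟩ | hw) | hw
    · rcases (hyN w hw).lt_or_eq with h1 | h1
      · exact Or.inl h1
      · exact Or.inr ⟨h1, hq₁2 w (Finset.mem_filter.2 ⟨hw, h1⟩) hne⟩
    · exact Or.inl (Finset.mem_filter.1 hw).2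
    · rw [hw]; exact Or.inr ⟨hq₀0, hq₀1⟩

end Pool.J0
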