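import Pool.Agent.Helper790.J0.Defs

set_option autoImplicit false

namespace Pool.J0
open Module
open scoped Classical
variable {E : Type*} [AddCommGroup E] [Module ℝ E] [FiniteDimensional ℝ E]


/-- In a subspace `L` of a finite dimensional space one can avoid finitely many subspaces not containing `L`,
and perturb any vector by a small multiple of it to avoid them. -/
theorem gen_sub {V : Type*} [AddCommGroup V] [Module ℝ V] (L : Submodule ℝ V) (F : Finset (Submodule ℝ V))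
    (hF : ∀ Γ ∈ F, ¬ L ≤ Γ) (e : V) :
    ∃ ζ ∈ L, ∀ᶠ ε in nhdsWithin (0:ℝ) (Set.Ioi 0), ∀ Γ ∈ F, e + ε • ζ ∉ Γ := by
  have hs : (⊤ : Subspace ℝ L) ∉ F.image (fun Γ => (Γ.comap L.subtype : Subspace ℝ L)) := by
    intro h
    obtain ⟨Γ, hΓ, h2⟩ := Finset.mem_image.1 h
    exact hF Γ hΓ (Submodule.comap_subtype_eq_top.1 h2)
  have h1 := Subspace.biUnion_ne_univ_of_top_notMem hs
  obtain ⟨ζ, hζ⟩ := (Set.ne_univ_iff_exists_notMem _).1 h1
  have hζ' : ∀ Γ ∈ F, (ζ : V) ∉ Γ := by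
    intro Γ hΓ hmem
    apply hζ
    simp only [Set.mem_iUnion]
    exact ⟨Γ.comap L.subtype, Finset.mem_image.2 ⟨Γ, hΓ, rfl⟩, hmem⟩
  refine ⟨ζ, ζ.2, ?_⟩
  rw [Filter.eventually_all_finset]
  intro Γ hΓ
  by_cases hex : ∃ ε₀ : ℝ, e + ε₀ • (ζ : V) ∈ Γ
  · obtain ⟨ε₀, hε₀⟩ := hex
    have huniq : ∀ ε : ℝ, ε ≠ ε₀ → e + ε • (ζ : V) ∉ Γ := by
      intro ε hne hmem
      have h2 := Γ.sub_mem hmem hε₀
      have h3 : e + ε • (ζ : V) - (e + ε₀ • (ζ : V)) = (ε - ε₀) • (ζ : V) := by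
        rw [sub_smul]; abel
      rw [h3] at h2
      exact hζ' Γ hΓ ((Submodule.smul_mem_iff _ (sub_ne_zero.2 hne)).1 h2)
    have hev : ∀ᶠ ε in nhdsWithin (0:ℝ) (Set.Ioi 0), ε ≠ ε₀ := by
      by_cases h0 : ε₀ = 0
      · rw [h0]
        filter_upwards [self_mem_nhdsWithin] with ε hε
        exact ne_of_gt hε
      · exact nhdsWithin_le_nhds (isOpen_ne.mem_nhds (Ne.symm h0))
    filter_upwards [hev] with ε hε using huniq ε hε
  · push Not at hex
    exact Filter.Eventually.of_forall hex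

end Pool.J0
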