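import Pool.Agent.Helper790.J0.Defs
import Pool.Agent.Helper790.J0.P_gen_sub

set_option autoImplicit false

namespace Pool.J0
open Module
open scoped Classical
variable {E : Type*} [AddCommGroup E] [Module ℝ E] [FiniteDimensional ℝ E]


/-- First-hit class: moving a state generically in its cell along `d` (`d = 0` on the negative side and on `U`,
`d v = 1`) the first elements to vanish form a class modulo `sp U`. -/
theorem first_class {W : Finset E} (hW : Cfg W) {y : Dual ℝ E} {U : Finset E} {v : E} (h : St W y U v)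
    (d : Dual ℝ E) (hd : ∀ w ∈ neg W y, d w = 0) (hdU : ∀ u ∈ U, d u = 0) (hdv : d v = 1) :
    ∃ (z : Dual ℝ E) (Q : Finset E) (qh : E) (c : E → ℝ), Q.Nonempty ∧ Q ⊆ pos W y ∧
      (∀ q ∈ Q, z q = 0 ∧ d q < 0) ∧ (∀ p ∈ pos W y, p ∉ Q → 0 < z p) ∧ 0 < z v ∧
      (∀ w ∈ neg W y, z w < 0) ∧ (∀ u ∈ U, z u = 0) ∧ qh ∉ sp U ∧ (∀ q ∈ Q, 0 < c q) ∧
      (∀ q ∈ Q, q - c q • qh ∈ sp U) := by
  have hmpos : ∀ w, w ∈ pos W y ↔ w ∈ W ∧ 0 < y w := fun w => by simp [pos]
  have hmneg : ∀ w, w ∈ neg W y ↔ w ∈ W ∧ y w < 0 := fun w => by simp [neg]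
  have hmzer : ∀ w, w ∈ Pool.J0.zer W y ↔ w ∈ W ∧ y w = 0 := fun w => by simp [Pool.J0.zer]
  have hyv : y v = 0 := ((hmzer v).mp (by rw [h.zer]; exact Finset.mem_insert_self _ _)).2
  have hyU : ∀ u ∈ U, y u = 0 := fun u hu =>
    ((hmzer u).mp (by rw [h.zer]; exact Finset.mem_insert_of_mem hu)).2
  -- the elements of the positive side decreasing along d
  set A : Finset E := (pos W y).filter (fun a => d a < 0) with hA
  have hAm : ∀ a, a ∈ A ↔ a ∈ pos W y ∧ d a < 0 := fun a => by simp [hA]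
  have hAne : A.Nonempty := by
    by_contra hne
    rw [Finset.not_nonempty_iff_eq_empty] at hne
    have hd0 : d = 0 := by
      apply hW.cyc
      intro w hw
      rcases lt_trichotomy (y w) 0 with hy | hy | hy
      · exact (hd w ((hmneg w).mpr ⟨hw, hy⟩)).ge
      · have : w ∈ Pool.J0.zer W y := (hmzer w).mpr ⟨hw, hy⟩
        rw [h.zer, Finset.mem_insert] at this
        rcases this with rfl | hu
        · rw [hdv]; norm_num
        · exact (hdU w hu).ge
      · by_contra hneg
        have : w ∈ A := (hAm w).mpr ⟨(hmpos w).mpr ⟨hw, hy⟩, not_le.mp hneg⟩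
        rw [hne] at this
        simp at this
    rw [hd0] at hdv
    simp at hdv
  -- the perturbation
  let Γ : E → Submodule ℝ (Dual ℝ E) := fun x => LinearMap.ker (Dual.eval ℝ E x)
  have hΓ : ∀ x (f : Dual ℝ E), f ∈ Γ x ↔ f x = 0 := by
    intro x f
    rw [LinearMap.mem_ker, Dual.eval_apply]
  let nrm : E → E := fun a => (1 / (-(d a))) • a
  let L : Submodule ℝ (Dual ℝ E) := (sp (insert v U)).dualAnnihilator
  have hL : ∀ f : Dual ℝ E, f ∈ L ↔ ∀ x ∈ sp (insert v U), f x = 0 := by
    intro f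
    exact Submodule.mem_dualAnnihilator f
  let F : Finset (Submodule ℝ (Dual ℝ E)) :=
    ((A ×ˢ A).image (fun p => Γ (nrm p.1 - nrm p.2))).filter (fun G => ¬ L ≤ G)
  obtain ⟨ζ, hζL, hζ⟩ := gen_sub L F (fun G hG => (Finset.mem_filter.mp hG).2) y
  have hζs : ∀ x ∈ insert v U, ζ x = 0 := fun x hx =>
    (hL ζ).mp hζL x (Submodule.subset_span (by exact_mod_cast hx))
  have hcont : ∀ w, Filter.Tendsto (fun ε : ℝ => (y + ε • ζ) w) (nhdsWithin (0:ℝ) (Set.Ioi 0))
      (nhds (y w)) := by
    intro w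
    have h1 : ContinuousAt (fun ε : ℝ => y w + ε * ζ w) 0 := by fun_prop
    have h2 := h1.tendsto.mono_left (nhdsWithin_le_nhds (s := Set.Ioi 0))
    simpa using h2
  have hev1 : ∀ᶠ ε in nhdsWithin (0:ℝ) (Set.Ioi 0), ∀ w ∈ pos W y, 0 < (y + ε • ζ) w := by
    rw [Filter.eventually_all_finset]
    intro w hw
    exact (hcont w).eventually_const_lt ((hmpos w).mp hw).2
  have hev2 : ∀ᶠ ε in nhdsWithin (0:ℝ) (Set.Ioi 0), ∀ w ∈ neg W y, (y + ε • ζ) w < 0 := by
    rw [Filter.eventually_all_finset]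
    intro w hw
    exact (hcont w).eventually_lt_const ((hmneg w).mp hw).2
  obtain ⟨ε, hε1, hε2, hε3⟩ := (hζ.and (hev1.and hev2)).exists
  set y' : Dual ℝ E := y + ε • ζ with hy'
  have hy'v : y' v = 0 := by
    rw [hy', LinearMap.add_apply, LinearMap.smul_apply, hyv,
      hζs v (Finset.mem_insert_self _ _)]
    simp
  have hy'U : ∀ u ∈ U, y' u = 0 := by
    intro u hu
    rw [hy', LinearMap.add_apply, LinearMap.smul_apply, hyU u hu,
      hζs u (Finset.mem_insert_of_mem hu)]
    simp
  obtain ⟨a0, ha0, hmin⟩ := Finset.exists_min_image A (fun a => y' a / (-(d a))) hAne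
  set t : ℝ := y' a0 / (-(d a0)) with ht
  have hda0 : 0 < -(d a0) := by
    have := ((hAm a0).mp ha0).2
    linarith
  have htpos : 0 < t := div_pos (hε2 a0 ((hAm a0).mp ha0).1) hda0
  have hspU : ∀ x ∈ sp U, y' x = 0 ∧ d x = 0 := by
    intro x hx
    have h1 : sp U ≤ LinearMap.ker y' := by
      rw [Submodule.span_le]
      intro u hu
      exact hy'U u (by exact_mod_cast hu)
    have h2 : sp U ≤ LinearMap.ker d := by
      rw [Submodule.span_le]
      intro u hu
      exact hdU u (by exact_mod_cast hu)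
    exact ⟨h1 hx, h2 hx⟩
  refine ⟨y' + t • d, A.filter (fun a => y' a / (-(d a)) = t), nrm a0, fun q => -(d q),
    ⟨a0, Finset.mem_filter.mpr ⟨ha0, rfl⟩⟩, ?_, ?_, ?_, ?_, ?_, ?_, ?_, ?_, ?_⟩
  · intro a ha
    exact ((hAm a).mp (Finset.mem_filter.mp ha).1).1
  · intro q hq
    obtain ⟨hqA, hqt⟩ := Finset.mem_filter.mp hq
    have hdq := ((hAm q).mp hqA).2
    refine ⟨?_, hdq⟩
    have hdq' : -(d q) ≠ 0 := by linarith
    rw [div_eq_iff hdq'] at hqt
    rw [LinearMap.add_apply, LinearMap.smul_apply, hqt, smul_eq_mul]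
    ring
  · intro p hp hpQ
    rw [LinearMap.add_apply, LinearMap.smul_apply, smul_eq_mul]
    have hyp := hε2 p hp
    by_cases hdp : d p < 0
    · have hpA : p ∈ A := (hAm p).mpr ⟨hp, hdp⟩
      have h1 := hmin p hpA
      have h2 : t ≠ y' p / (-(d p)) := fun he => hpQ (Finset.mem_filter.mpr ⟨hpA, he.symm⟩)
      have h3 : t < y' p / (-(d p)) := lt_of_le_of_ne h1 h2
      rw [lt_div_iff₀ (by linarith)] at h3
      linarith
    · have : 0 ≤ t * d p := mul_nonneg htpos.le (not_lt.mp hdp)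
      linarith
  · rw [LinearMap.add_apply, LinearMap.smul_apply, smul_eq_mul, hy'v, hdv]
    linarith
  · intro w hw
    rw [LinearMap.add_apply, LinearMap.smul_apply, smul_eq_mul, hd w hw]
    have := hε3 w hw
    linarith
  · intro u hu
    rw [LinearMap.add_apply, LinearMap.smul_apply, smul_eq_mul, hdU u hu, hy'U u hu]
    ring
  · intro hmem
    have h1 := (hspU _ hmem).1
    have h2 : y' (nrm a0) = t := by
      show y' ((1 / (-(d a0))) • a0) = t
      rw [map_smul, smul_eq_mul, ht]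
      ring
    linarith
  · intro q hq
    have := ((hAm q).mp (Finset.mem_filter.mp hq).1).2
    linarith
  · intro q hq
    obtain ⟨hqA, hqt⟩ := Finset.mem_filter.mp hq
    have hdq := ((hAm q).mp hqA).2
    have hdq' : -(d q) ≠ 0 := by linarith
    set x : E := nrm q - nrm a0 with hx
    have hyx : y' x = 0 := by
      show y' ((1 / (-(d q))) • q - (1 / (-(d a0))) • a0) = 0
      rw [map_sub, map_smul, map_smul, smul_eq_mul, smul_eq_mul]
      have e1 : 1 / (-(d q)) * y' q = t := by rw [← hqt]; ring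
      have e2 : 1 / (-(d a0)) * y' a0 = t := by rw [ht]; ring
      rw [e1, e2, sub_self]
    have hdx : d x = 0 := by
      show d ((1 / (-(d q))) • q - (1 / (-(d a0))) • a0) = 0
      rw [map_sub, map_smul, map_smul, smul_eq_mul, smul_eq_mul]
      have e1 : 1 / (-(d q)) * d q = -1 := by
        have : d q ≠ 0 := by linarith
        field_simp
      have e2 : 1 / (-(d a0)) * d a0 = -1 := by
        have : d a0 ≠ 0 := by linarith
        field_simp
      rw [e1, e2, sub_self]
    have hLx : L ≤ Γ x := by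
      by_contra hnot
      have hF : Γ x ∈ F := by
        refine Finset.mem_filter.mpr ⟨Finset.mem_image.mpr ⟨(q, a0), ?_, rfl⟩, hnot⟩
        exact Finset.mem_product.mpr ⟨hqA, ha0⟩
      exact hε1 (Γ x) hF ((hΓ x y').mpr hyx)
    have hxs : x ∈ sp (insert v U) := by
      by_contra hnot
      obtain ⟨f, hf1, hf2⟩ := Submodule.exists_le_ker_of_notMem hnot
      apply hf1
      have : f ∈ L := (hL f).mpr (fun w hw => hf2 hw)
      exact (hΓ x f).mp (hLx this)
    have hxU : x ∈ sp U := by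
      have hxs' : x ∈ Submodule.span ℝ (insert v (U : Set E)) := by
        have : ((insert v U : Finset E) : Set E) = insert v (U : Set E) := Finset.coe_insert _ _
        rw [← this]
        exact hxs
      obtain ⟨s, u, hu, hxe⟩ := Submodule.mem_span_insert.mp hxs'
      have h1 : d x = s := by
        rw [hxe, map_add, map_smul, hdv, (hspU u hu).2]
        simp
      have hs : s = 0 := by rw [← h1, hdx]
      rw [hxe, hs, zero_smul, zero_add]
      exact hu
    have hfin : q - (-(d q)) • nrm a0 = (-(d q)) • x := by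
      rw [hx, smul_sub]
      congr 1
      show q = (-(d q)) • ((1 / (-(d q))) • q)
      rw [smul_smul, mul_one_div_cancel hdq', one_smul]
    show q - (-(d q)) • nrm a0 ∈ sp U
    rw [hfin]
    exact Submodule.smul_mem _ _ hxU

end Pool.J0
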