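import Pool.Agent.Helper790.J0.Defs

set_option autoImplicit false

namespace Pool.J0
open Module
open scoped Classical
variable {E : Type*} [AddCommGroup E] [Module ℝ E] [FiniteDimensional ℝ E]


/-- In a state both sides span hyperplanes. -/
theorem st_hyper {W : Finset E} (hW : Cfg W) {y : Dual ℝ E} {U : Finset E} {v : E} (h : St W y U v) :
    finrank ℝ (sp (pos W y)) + 1 = finrank ℝ E ∧ finrank ℝ (sp (neg W y)) + 1 = finrank ℝ E ∧
    sp (insert v (pos W y)) = ⊤ ∧ sp (insert v (neg W y)) = ⊤ := by
  have hvz : v ∈ zer W y := by rw [h.zer]; exact Finset.mem_insert_self _ _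
  have hvW : v ∈ W := (Finset.mem_filter.1 hvz).1
  have hzU : ∀ w ∈ W, y w = 0 → w ≠ v → w ∈ U := by
    intro w hw h0 hne
    have : w ∈ zer W y := Finset.mem_filter.2 ⟨hw, h0⟩
    rw [h.zer, Finset.mem_insert] at this
    exact this.resolve_left hne
  have htopA : sp (insert v (pos W y)) = ⊤ := by
    have hsub : insert v (pos W y) ⊆ W := by
      intro w hw
      rcases Finset.mem_insert.1 hw with rfl | hw
      · exact hvW
      · exact (Finset.mem_filter.1 hw).1
    rcases hW.two _ hsub with h1 | h1
    · exact h1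
    · exfalso
      apply h.vB
      have hle : sp (W \ insert v (pos W y)) ≤ sp (neg W y) := by
        refine Submodule.span_le.2 ?_
        intro w hw
        have hw' := Finset.mem_sdiff.1 (Finset.mem_coe.1 hw)
        have hne : w ≠ v := fun hh => hw'.2 (by rw [hh]; exact Finset.mem_insert_self _ _)
        have hnp : ¬ 0 < y w := fun hh =>
          hw'.2 (Finset.mem_insert_of_mem (Finset.mem_filter.2 ⟨hw'.1, hh⟩))
        rcases eq_or_lt_of_le (not_lt.1 hnp) with h0 | h0
        · exact h.UB w (hzU w hw'.1 h0 hne)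
        · exact Submodule.subset_span (Finset.mem_coe.2 (Finset.mem_filter.2 ⟨hw'.1, h0⟩))
      rw [h1] at hle
      exact hle Submodule.mem_top
  have htopB : sp (insert v (neg W y)) = ⊤ := by
    have hsub : insert v (neg W y) ⊆ W := by
      intro w hw
      rcases Finset.mem_insert.1 hw with rfl | hw
      · exact hvW
      · exact (Finset.mem_filter.1 hw).1
    rcases hW.two _ hsub with h1 | h1
    · exact h1
    · exfalso
      apply h.vA
      have hle : sp (W \ insert v (neg W y)) ≤ sp (pos W y) := by
        refine Submodule.span_le.2 ?_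
        intro w hw
        have hw' := Finset.mem_sdiff.1 (Finset.mem_coe.1 hw)
        have hne : w ≠ v := fun hh => hw'.2 (by rw [hh]; exact Finset.mem_insert_self _ _)
        have hnp : ¬ y w < 0 := fun hh =>
          hw'.2 (Finset.mem_insert_of_mem (Finset.mem_filter.2 ⟨hw'.1, hh⟩))
        rcases eq_or_lt_of_le (not_lt.1 hnp) with h0 | h0
        · exact h.UA w (hzU w hw'.1 h0.symm hne)
        · exact Submodule.subset_span (Finset.mem_coe.2 (Finset.mem_filter.2 ⟨hw'.1, h0⟩))
      rw [h1] at hle
      exact hle Submodule.mem_top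
  have hfr : ∀ S : Finset E, v ∉ sp S → sp (insert v S) = ⊤ → finrank ℝ (sp S) + 1 = finrank ℝ E := by
    intro S hv htop
    have hv0 : v ≠ 0 := by
      rintro rfl
      exact hv (Submodule.zero_mem _)
    have hins : Submodule.span ℝ {v} ⊔ sp S = ⊤ := by
      rw [← htop]
      unfold sp
      rw [Finset.coe_insert, Submodule.span_insert]
    have hinf : Submodule.span ℝ {v} ⊓ sp S = ⊥ := by
      rw [eq_bot_iff]
      rintro w ⟨hw1, hw2⟩
      obtain ⟨c, rfl⟩ := Submodule.mem_span_singleton.1 hw1
      by_cases hc : c = 0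
      · rw [hc, zero_smul]; exact Submodule.zero_mem _
      · exfalso
        apply hv
        have := (sp S).smul_mem c⁻¹ hw2
        rwa [smul_smul, inv_mul_cancel₀ hc, one_smul] at this
    have hmain := Submodule.finrank_sup_add_finrank_inf_eq (Submodule.span ℝ {v}) (sp S)
    rw [hins, hinf, finrank_top, finrank_bot, finrank_span_singleton hv0] at hmain
    omega
  exact ⟨hfr _ h.vA htopA, hfr _ h.vB htopB, htopA, htopB⟩

end Pool.J0
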