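import Pool.Agent.Helper790.J0.Defs
import Pool.Agent.Helper790.J0.P_LL
import Pool.Agent.Helper790.J0.P_st_hyper
import Pool.Agent.Helper790.J0.P_first_class

set_option autoImplicit false

namespace Pool.J0
open Module
open scoped Classical
variable {E : Type*} [AddCommGroup E] [Module ℝ E] [FiniteDimensional ℝ E]


/-- First-hit lemma: the positive side has a coloop (also with `U` added). -/
theorem firsthit {W : Finset E} (hW : Cfg W) {y : Dual ℝ E} {U : Finset E} {v : E} (h : St W y U v) :
    ∃ a ∈ pos W y, a ∉ ncl (pos W y ∪ U) := by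
  by_contra hcon
  push Not at hcon
  have hcl : ∀ a ∈ pos W y, a ∈ sp ((pos W y ∪ U).erase a) := fun a ha =>
    (Finset.mem_filter.1 (hcon a ha)).2
  -- the functional
  obtain ⟨f, hf0, hf⟩ := Submodule.exists_dual_map_eq_bot_of_notMem h.vB inferInstance
  have hfz : ∀ w ∈ sp (neg W y), f w = 0 := by
    intro w hw
    have h1 : f w ∈ (sp (neg W y)).map f := ⟨w, hw, rfl⟩
    rw [hf] at h1
    exact (Submodule.mem_bot ℝ).1 h1
  obtain ⟨d, hd⟩ : ∃ d : Dual ℝ E, ∀ w, d w = (f v)⁻¹ * f w := ⟨(f v)⁻¹ • f, fun w => rfl⟩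
  have hdn : ∀ w ∈ sp (neg W y), d w = 0 := fun w hw => by rw [hd, hfz w hw, mul_zero]
  have hdv : d v = 1 := by rw [hd, inv_mul_cancel₀ hf0]
  obtain ⟨z, Q, qh, c, hQn, hQP, hQd, hPz, hzv, hNz, hUz, hqh, hc, hpar⟩ :=
    first_class hW h d (fun w hw => hdn w (Submodule.subset_span hw))
      (fun u hu => hdn u (h.UB u hu)) hdv
  have hvW : v ∈ W := by
    have h1 : v ∈ zer W y := by rw [h.zer]; exact Finset.mem_insert_self v U
    exact (Finset.mem_filter.1 h1).1
  have hUW : U ⊆ W := by
    intro u hu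
    have h1 : u ∈ zer W y := by rw [h.zer]; exact Finset.mem_insert_of_mem hu
    exact (Finset.mem_filter.1 h1).1
  obtain ⟨-, hN1, hPt, -⟩ := st_hyper hW h
  refine LL hW z U Q (pos W y) (neg W y) v hQP hQn (Finset.filter_subset _ _)
    (Finset.filter_subset _ _) hvW hUW hPz (fun q hq => (hQd q hq).1) hzv hNz hUz h.UA hPt ?_
    qh hqh c hc hpar ?_
  · intro q hq
    have hqN : q ∉ sp (neg W y) := fun hmem => by
      have h1 := (hQd q hq).2
      rw [hdn q hmem] at h1
      exact lt_irrefl _ h1
    have hlt : sp (neg W y) < sp (insert q (neg W y)) := by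
      refine lt_of_le_of_ne (Submodule.span_mono (by
        intro x hx
        exact Finset.mem_coe.2 (Finset.mem_insert_of_mem (Finset.mem_coe.1 hx)))) ?_
      intro heq
      apply hqN
      rw [heq]
      exact Submodule.subset_span (Finset.mem_coe.2 (Finset.mem_insert_self q _))
    have h2 := Submodule.finrank_lt_finrank_of_lt hlt
    apply Submodule.eq_top_of_finrank_eq
    have h3 := Submodule.finrank_le (sp (insert q (neg W y)))
    omega
  · intro q hq
    have h1 := hcl q (hQP hq)
    refine Submodule.span_mono ?_ h1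
    intro x hx
    have hx' := Finset.mem_erase.1 (Finset.mem_coe.1 hx)
    rw [Finset.mem_coe, Finset.mem_union, Finset.mem_erase]
    rcases Finset.mem_union.1 hx'.2 with h2 | h2
    · exact Or.inl ⟨hx'.1, h2⟩
    · exact Or.inr h2

end Pool.J0
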