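import Pool.Agent.Helper790.J0.Defs

set_option autoImplicit false

namespace Pool.J0
open Module
open scoped Classical
variable {E : Type*} [AddCommGroup E] [Module ℝ E] [FiniteDimensional ℝ E]


theorem neg_neg_pos (W : Finset E) (y : Dual ℝ E) :
    pos W (-y) = neg W y ∧ neg W (-y) = pos W y ∧ zer W (-y) = zer W y := by
  refine ⟨?_, ?_, ?_⟩
  · ext w
    simp [pos, neg]
  · ext w
    simp [pos, neg]
  · ext w
    simp [zer]

end Pool.J0
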