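import Pool.Agent.Helper790.J0.Defs
import Pool.Agent.Helper790.J0.P_neg_neg_pos

set_option autoImplicit false

namespace Pool.J0
open Module
open scoped Classical
variable {E : Type*} [AddCommGroup E] [Module ℝ E] [FiniteDimensional ℝ E]


theorem st_neg {W : Finset E} {y : Dual ℝ E} {U : Finset E} {v : E} (h : St W y U v) : St W (-y) U v := by
  obtain ⟨h1, h2, h3⟩ := neg_neg_pos W y
  exact ⟨by rw [h3]; exact h.zer, h.hv, by rw [h1]; exact h.UB, by rw [h2]; exact h.UA,
    by rw [h1]; exact h.vB, by rw [h2]; exact h.vA⟩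

end Pool.J0
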