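import Pool.Agent.Helper790.J0.Defs

set_option autoImplicit false

namespace Pool.J0
open Module
open scoped Classical
variable {E : Type*} [AddCommGroup E] [Module ℝ E] [FiniteDimensional ℝ E]


/-- If `u ∈ U` lies in the span of `A` (`A`, `U` disjoint) then it lies in the span of the non-coloops of `A ∪ U`
outside `U`. -/
theorem mem_span_ncl (A U : Finset E) (hAU : Disjoint A U) (hUA : ∀ u ∈ U, u ∈ sp A) (u : E) (hu : u ∈ U) :
    u ∈ sp (ncl (A ∪ U) \ U) := by
  obtain ⟨c, -, hc⟩ := Submodule.mem_span_finset.1 (hUA u hu)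
  rw [← hc]
  apply Submodule.sum_mem
  intro a ha
  by_cases h0 : c a = 0
  · rw [h0, zero_smul]; exact Submodule.zero_mem _
  apply Submodule.smul_mem
  apply Submodule.subset_span
  have haU : a ∉ U := Finset.disjoint_left.1 hAU ha
  rw [Finset.mem_coe, Finset.mem_sdiff]
  refine ⟨?_, haU⟩
  unfold ncl
  rw [Finset.mem_filter]
  refine ⟨Finset.mem_union_left _ ha, ?_⟩
  have hsum : c a • a = u - ∑ a' ∈ A.erase a, c a' • a' := by
    rw [← hc, ← Finset.add_sum_erase A (fun a' => c a' • a') ha]
    abel
  have hmem : c a • a ∈ sp ((A ∪ U).erase a) := by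
    rw [hsum]
    apply Submodule.sub_mem
    · apply Submodule.subset_span
      rw [Finset.mem_coe, Finset.mem_erase]
      refine ⟨?_, Finset.mem_union_right _ hu⟩
      rintro rfl
      exact haU hu
    · apply Submodule.sum_mem
      intro a' ha'
      apply Submodule.smul_mem
      apply Submodule.subset_span
      rw [Finset.mem_coe, Finset.mem_erase]
      rw [Finset.mem_erase] at ha'
      exact ⟨ha'.1, Finset.mem_union_left _ ha'.2⟩
  have := Submodule.smul_mem _ (c a)⁻¹ hmem
  rwa [smul_smul, inv_mul_cancel₀ h0, one_smul] at this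

end Pool.J0
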