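import Pool.Agent.Helper790.J0.Defs

set_option autoImplicit false

namespace Pool.J0
open Module
open scoped Classical
variable {E : Type*} [AddCommGroup E] [Module ℝ E] [FiniteDimensional ℝ E]


/-- A non-coloop lies in the span of the other non-coloops. -/
theorem ncl_erase (S : Finset E) (q : E) (hq : q ∈ ncl S) : q ∈ sp ((ncl S).erase q) := by
  have hq' := Finset.mem_filter.1 hq
  have hqS : q ∈ S := hq'.1
  obtain ⟨f, -, hf⟩ := Submodule.mem_span_finset.1 hq'.2
  have key : ∑ s ∈ S.erase q, f s • s ∈ sp ((ncl S).erase q) := by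
    refine Submodule.sum_mem _ fun s hs => ?_
    by_cases h0 : f s = 0
    · rw [h0, zero_smul]; exact Submodule.zero_mem _
    · refine Submodule.smul_mem _ _ (Submodule.subset_span ?_)
      have hsq : s ≠ q := Finset.ne_of_mem_erase hs
      have hsS : s ∈ S := Finset.mem_of_mem_erase hs
      rw [Finset.mem_coe, Finset.mem_erase]
      refine ⟨hsq, ?_⟩
      unfold ncl
      rw [Finset.mem_filter]
      refine ⟨hsS, ?_⟩
      have h1 : f s • s = q - ∑ t ∈ (S.erase q).erase s, f t • t := by
        have e := Finset.add_sum_erase (S.erase q) (fun t => f t • t) hs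
        exact eq_sub_of_add_eq (e.trans hf)
      have h2 : s = (f s)⁻¹ • (q - ∑ t ∈ (S.erase q).erase s, f t • t) := by
        rw [← h1, smul_smul, inv_mul_cancel₀ h0, one_smul]
      have h3 : (f s)⁻¹ • (q - ∑ t ∈ (S.erase q).erase s, f t • t) ∈ sp (S.erase s) := by
        apply Submodule.smul_mem
        apply Submodule.sub_mem
        · exact Submodule.subset_span (Finset.mem_coe.2 (Finset.mem_erase.2 ⟨hsq.symm, hqS⟩))
        · refine Submodule.sum_mem _ fun t ht => Submodule.smul_mem _ _ (Submodule.subset_span ?_)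
          rw [Finset.mem_coe]
          exact Finset.mem_erase.2 ⟨Finset.ne_of_mem_erase ht,
            Finset.mem_of_mem_erase (Finset.mem_of_mem_erase ht)⟩
      rwa [← h2] at h3
  rwa [hf] at key

end Pool.J0
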