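import Pool.Agent.Helper790.J0.Defs
import Pool.Agent.Helper790.J0.P_ncl_erase

set_option autoImplicit false

namespace Pool.J0
open Module
open scoped Classical
variable {E : Type*} [AddCommGroup E] [Module ℝ E] [FiniteDimensional ℝ E]


private theorem nr_insert (T : Submodule ℝ E) (s : E) (hs : s ∉ T) :
    finrank ℝ ((Submodule.span ℝ {s} ⊔ T : Submodule ℝ E)) = finrank ℝ T + 1 := by
  have h0 : s ≠ 0 := by
    intro h
    exact hs (h ▸ T.zero_mem)
  have hd : Submodule.span ℝ {s} ⊓ T = ⊥ := by
    rw [eq_bot_iff]
    intro x hx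
    obtain ⟨hx1, hx2⟩ := Submodule.mem_inf.mp hx
    obtain ⟨c, rfl⟩ := Submodule.mem_span_singleton.mp hx1
    rw [Submodule.mem_bot]
    by_contra hne
    have hc : c ≠ 0 := by
      rintro rfl
      exact hne (zero_smul _ _)
    apply hs
    have := T.smul_mem c⁻¹ hx2
    rwa [smul_smul, inv_mul_cancel₀ hc, one_smul] at this
  have h := Submodule.finrank_sup_add_finrank_inf_eq (Submodule.span ℝ {s}) T
  rw [hd, finrank_bot, finrank_span_singleton h0] at h
  omega

private theorem nr_aux (S : Finset E) (C : Finset E) :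
    C ⊆ S \ ncl S → finrank ℝ (sp (ncl S ∪ C)) = finrank ℝ (sp (ncl S)) + C.card := by
  induction C using Finset.induction_on with
  | empty => intro _; rw [Finset.union_empty, Finset.card_empty, add_zero]
  | insert s C hs ih =>
    intro hC
    have hC' : C ⊆ S \ ncl S := fun x hx => hC (Finset.mem_insert_of_mem hx)
    have hsS : s ∈ S \ ncl S := hC (Finset.mem_insert_self _ _)
    rw [Finset.mem_sdiff] at hsS
    have hnot : s ∉ sp (S.erase s) := by
      intro h
      exact hsS.2 (Finset.mem_filter.mpr ⟨hsS.1, h⟩)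
    have hsub : ncl S ∪ C ⊆ S.erase s := by
      intro x hx
      rw [Finset.mem_erase]
      rw [Finset.mem_union] at hx
      rcases hx with hx | hx
      · refine ⟨?_, (Finset.mem_filter.mp hx).1⟩
        rintro rfl
        exact hsS.2 hx
      · refine ⟨?_, (Finset.mem_sdiff.mp (hC' hx)).1⟩
        rintro rfl
        exact hs hx
    have hnot' : s ∉ sp (ncl S ∪ C) := by
      intro h
      exact hnot (Submodule.span_mono (by exact_mod_cast hsub) h)
    have heq : sp (ncl S ∪ insert s C) = Submodule.span ℝ {s} ⊔ sp (ncl S ∪ C) := by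
      unfold sp
      rw [← Submodule.span_insert, Finset.union_insert, Finset.coe_insert]
    rw [heq, nr_insert _ _ hnot', ih hC', Finset.card_insert_of_notMem hs]
    omega

/-- Coloops are independent modulo the non-coloops. -/
theorem ncl_rank (S : Finset E) : finrank ℝ (sp S) = finrank ℝ (sp (ncl S)) + (S \ ncl S).card := by
  have h := nr_aux S (S \ ncl S) (Finset.Subset.refl _)
  have hsub : ncl S ⊆ S := Finset.filter_subset _ _
  rwa [Finset.union_sdiff_of_subset hsub] at h

end Pool.J0
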