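import Pool.Agent.Helper790.J0.Defs
import Pool.Agent.Helper790.J0.P_ncl_erase
import Pool.Agent.Helper790.J0.P_ncl_rank
import Pool.Agent.Helper790.J0.P_mem_span_ncl
import Pool.Agent.Helper790.J0.P_st_hyper

set_option autoImplicit false

namespace Pool.J0
open Module
open scoped Classical
variable {E : Type*} [AddCommGroup E] [Module ℝ E] [FiniteDimensional ℝ E]


/-- Sides of a state, without the bounds coming from the first-hit lemma. -/
theorem st_sides {W : Finset E} (hW : Cfg W) {y : Dual ℝ E} {U : Finset E} {v : E} (h : St W y U v) :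
    (∀ u ∈ U, u ∈ sp (PP W y U)) ∧
    (∀ q ∈ PP W y U, q ∈ sp ((PP W y U).erase q ∪ U)) ∧
    (∀ q ∈ PP W y U, 0 < y q) ∧
    (pos W y \ PP W y U).card + finrank ℝ (sp (PP W y U)) + 1 = finrank ℝ E := by
  have hU0 : ∀ u ∈ U, y u = 0 := by
    intro u hu
    have h1 : u ∈ zer W y := by
      rw [h.zer]
      exact Finset.mem_insert_of_mem hu
    exact (Finset.mem_filter.1 h1).2
  have hpos : ∀ w ∈ pos W y, 0 < y w := fun w hw => (Finset.mem_filter.1 hw).2
  have hposU : ∀ w ∈ pos W y, w ∉ U := by
    intro w hw hwU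
    have h1 := hpos w hw
    rw [hU0 w hwU] at h1
    exact lt_irrefl _ h1
  have hdisj : Disjoint (pos W y) U := Finset.disjoint_left.mpr hposU
  have h1 : ∀ u ∈ U, u ∈ sp (PP W y U) := fun u hu =>
    mem_span_ncl (pos W y) U hdisj h.UA u hu
  have hUncl : U ⊆ ncl (pos W y ∪ U) := by
    intro u hu
    unfold ncl
    rw [Finset.mem_filter]
    refine ⟨Finset.mem_union_right _ hu, ?_⟩
    have h2 : (pos W y : Set E) ⊆ ((pos W y ∪ U).erase u : Finset E) := by
      intro w hw
      rw [Finset.mem_coe] at hw ⊢
      rw [Finset.mem_erase]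
      refine ⟨?_, Finset.mem_union_left _ hw⟩
      rintro rfl
      exact hposU w hw hu
    exact Submodule.span_mono h2 (h.UA u hu)
  have hncl : ncl (pos W y ∪ U) = PP W y U ∪ U := (Finset.sdiff_union_of_subset hUncl).symm
  refine ⟨h1, ?_, ?_, ?_⟩
  · intro q hq
    have h2 : q ∈ ncl (pos W y ∪ U) := (Finset.mem_sdiff.1 hq).1
    have h3 := ncl_erase _ q h2
    have h4 : (((ncl (pos W y ∪ U)).erase q : Finset E) : Set E) ⊆
        ((PP W y U).erase q ∪ U : Finset E) := by
      intro w hw
      rw [Finset.mem_coe, Finset.mem_erase, hncl, Finset.mem_union] at hw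
      rw [Finset.mem_coe, Finset.mem_union, Finset.mem_erase]
      rcases hw.2 with h5 | h5
      · exact Or.inl ⟨hw.1, h5⟩
      · exact Or.inr h5
    exact Submodule.span_mono h4 h3
  · intro q hq
    have h2 := Finset.mem_sdiff.1 hq
    have h3 : q ∈ pos W y ∪ U := (Finset.mem_filter.1 h2.1).1
    rcases Finset.mem_union.1 h3 with h4 | h4
    · exact hpos q h4
    · exact absurd h4 h2.2
  · have h2 := ncl_rank (pos W y ∪ U)
    have h3 : sp (pos W y ∪ U) = sp (pos W y) := by
      apply le_antisymm
      · apply Submodule.span_le.2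
        intro w hw
        rw [Finset.mem_coe, Finset.mem_union] at hw
        rcases hw with h4 | h4
        · exact Submodule.subset_span h4
        · exact h.UA w h4
      · apply Submodule.span_mono
        intro w hw
        exact Finset.mem_union_left _ hw
    have h4 : sp (ncl (pos W y ∪ U)) = sp (PP W y U) := by
      apply le_antisymm
      · apply Submodule.span_le.2
        intro w hw
        rw [Finset.mem_coe, hncl, Finset.mem_union] at hw
        rcases hw with h4 | h4
        · exact Submodule.subset_span h4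
        · exact h1 w h4
      · apply Submodule.span_mono
        intro w hw
        exact (Finset.mem_sdiff.1 hw).1
    have h5 : (pos W y ∪ U) \ ncl (pos W y ∪ U) = pos W y \ PP W y U := by
      ext w
      rw [Finset.mem_sdiff, Finset.mem_sdiff, Finset.mem_union]
      constructor
      · rintro ⟨h6 | h6, h7⟩
        · exact ⟨h6, fun h8 => h7 (Finset.mem_sdiff.1 h8).1⟩
        · exact absurd (hUncl h6) h7
      · rintro ⟨h6, h7⟩
        exact ⟨Or.inl h6, fun h8 => h7 (Finset.mem_sdiff.2 ⟨h8, hposU w h6⟩)⟩
    rw [h3, h4, h5] at h2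
    have h6 := (st_hyper hW h).1
    omega

end Pool.J0
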