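import Pool.Agent.Helper790.J0.Defs
import Pool.Agent.Helper790.J0.P_neg_neg_pos
import Pool.Agent.Helper790.J0.P_st_neg
import Pool.Agent.Helper790.J0.P_firsthit
import Pool.Agent.Helper790.J0.P_st_sides

set_option autoImplicit false

namespace Pool.J0
open Module
open scoped Classical
variable {E : Type*} [AddCommGroup E] [Module ℝ E] [FiniteDimensional ℝ E]


theorem st_reg_PN (W : Finset E) (y : Dual ℝ E) (U : Finset E) : PP W (-y) U = NN W y U := by
  unfold PP NN
  rw [(neg_neg_pos W y).1]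

theorem st_reg_ncl (S : Finset E) : ncl S ⊆ S := Finset.filter_subset _ _

theorem st_reg_P (W : Finset E) (y : Dual ℝ E) (U : Finset E) : PP W y U ⊆ pos W y := by
  intro x hx
  unfold PP at hx
  rw [Finset.mem_sdiff] at hx
  have := st_reg_ncl _ hx.1
  rw [Finset.mem_union] at this
  exact this.resolve_right hx.2

/-- A state gives region data. -/
theorem st_reg {W : Finset E} (hW : Cfg W) {y : Dual ℝ E} {U : Finset E} {v : E} (h : St W y U v) :
    Reg W U (PP W y U) (NN W y U) (GG W y U) ∧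
    (∀ p ∈ PP W y U, 0 < y p) ∧ (∀ n ∈ NN W y U, y n < 0) ∧ v ∈ GG W y U ∧
    ((GG W y U).filter (fun x => 0 < y x)).card + finrank ℝ (sp (PP W y U)) + 1 = finrank ℝ E ∧
    ((GG W y U).filter (fun x => y x < 0)).card + finrank ℝ (sp (NN W y U)) + 1 = finrank ℝ E := by
  obtain ⟨a1, a2, a3, a4⟩ := st_sides hW h
  obtain ⟨b1, b2, b3, b4⟩ := st_sides hW (st_neg h)
  obtain ⟨c, hc1, hc2⟩ := firsthit hW h
  obtain ⟨d, hd1, hd2⟩ := firsthit hW (st_neg h)
  rw [st_reg_PN] at b1 b2 b3 b4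
  rw [(neg_neg_pos W y).1] at b4 hd1 hd2
  have hPs := st_reg_P W y U
  have hNs := st_reg_P W (-y) U
  rw [st_reg_PN, (neg_neg_pos W y).1] at hNs
  have b3' : ∀ q ∈ NN W y U, y q < 0 := by
    intro q hq
    have := b3 q hq
    rw [LinearMap.neg_apply] at this
    linarith
  have hcP : c ∉ PP W y U := by
    intro hc
    unfold PP at hc
    exact hc2 (Finset.mem_sdiff.1 hc).1
  have hdN : d ∉ NN W y U := by
    intro hd
    unfold NN at hd
    exact hd2 (Finset.mem_sdiff.1 hd).1
  have hz := h.zer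
  have hzW : ∀ x, x ∈ insert v U → x ∈ W ∧ y x = 0 := by
    intro x hx
    rw [← hz] at hx
    unfold zer at hx
    rwa [Finset.mem_filter] at hx
  have hzW' : ∀ x, x ∈ W → y x = 0 → x = v ∨ x ∈ U := by
    intro x hx hy
    have : x ∈ zer W y := by unfold zer; rw [Finset.mem_filter]; exact ⟨hx, hy⟩
    rw [hz, Finset.mem_insert] at this
    exact this
  have hU0 : ∀ u ∈ U, u ∈ W ∧ y u = 0 := fun u hu => hzW u (Finset.mem_insert_of_mem hu)
  have hv0 := hzW v (Finset.mem_insert_self v U)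
  have hPW : ∀ p ∈ PP W y U, p ∈ W := fun p hp => (Finset.mem_filter.1 (hPs hp)).1
  have hNW : ∀ p ∈ NN W y U, p ∈ W := fun p hp => (Finset.mem_filter.1 (hNs hp)).1
  have hG : ∀ x, x ∈ GG W y U ↔ x ∈ W ∧ x ∉ U ∧ x ∉ PP W y U ∧ x ∉ NN W y U := by
    intro x
    unfold GG
    rw [Finset.mem_sdiff, Finset.mem_union, Finset.mem_union]
    tauto
  have hvG : v ∈ GG W y U := by
    rw [hG]
    refine ⟨hv0.1, h.hv, fun hp => ?_, fun hn => ?_⟩
    · have := a3 v hp; linarith [hv0.2]
    · have := b3' v hn; linarith [hv0.2]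
  have f1 : (GG W y U).filter (fun x => 0 < y x) = pos W y \ PP W y U := by
    ext x
    rw [Finset.mem_filter, hG, Finset.mem_sdiff]
    unfold pos
    rw [Finset.mem_filter]
    constructor
    · rintro ⟨⟨h1, h2, h3, h4⟩, h5⟩
      exact ⟨⟨h1, h5⟩, h3⟩
    · rintro ⟨⟨h1, h5⟩, h3⟩
      refine ⟨⟨h1, fun hu => ?_, h3, fun hn => ?_⟩, h5⟩
      · linarith [(hU0 x hu).2]
      · linarith [b3' x hn]
  have f2 : (GG W y U).filter (fun x => y x < 0) = neg W y \ NN W y U := by
    ext x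
    rw [Finset.mem_filter, hG, Finset.mem_sdiff]
    unfold neg
    rw [Finset.mem_filter]
    constructor
    · rintro ⟨⟨h1, h2, h3, h4⟩, h5⟩
      exact ⟨⟨h1, h5⟩, h4⟩
    · rintro ⟨⟨h1, h5⟩, h3⟩
      refine ⟨⟨h1, fun hu => ?_, fun hn => ?_, h3⟩, h5⟩
      · linarith [(hU0 x hu).2]
      · linarith [a3 x hn]
  have f3 : GG W y U = ((pos W y \ PP W y U) ∪ (neg W y \ NN W y U)) ∪ {v} := by
    ext x
    rw [Finset.mem_union, Finset.mem_union, ← f1, ← f2, Finset.mem_filter, Finset.mem_filter,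
      Finset.mem_singleton]
    constructor
    · intro hx
      rcases lt_trichotomy (y x) 0 with h1 | h1 | h1
      · exact Or.inl (Or.inr ⟨hx, h1⟩)
      · refine Or.inr ?_
        exact (hzW' x ((hG x).1 hx).1 h1).resolve_right ((hG x).1 hx).2.1
      · exact Or.inl (Or.inl ⟨hx, h1⟩)
    · rintro ((h1 | h1) | h1)
      · exact h1.1
      · exact h1.1
      · rw [h1]; exact hvG
  have f4 : (GG W y U).card = (pos W y \ PP W y U).card + (neg W y \ NN W y U).card + 1 := by
    rw [f3, Finset.card_union_of_disjoint, Finset.card_union_of_disjoint, Finset.card_singleton]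
    · rw [Finset.disjoint_left]
      intro x hx hx'
      rw [← f1, Finset.mem_filter] at hx
      rw [← f2, Finset.mem_filter] at hx'
      linarith [hx.2, hx'.2]
    · rw [Finset.disjoint_singleton_right, Finset.mem_union, ← f1, ← f2, Finset.mem_filter,
        Finset.mem_filter]
      rintro (h1 | h1)
      · linarith [h1.2, hv0.2]
      · linarith [h1.2, hv0.2]
  have g1 : 0 < (pos W y \ PP W y U).card := Finset.card_pos.2 ⟨c, Finset.mem_sdiff.2 ⟨hc1, hcP⟩⟩
  have g2 : 0 < (neg W y \ NN W y U).card := Finset.card_pos.2 ⟨d, Finset.mem_sdiff.2 ⟨hd1, hdN⟩⟩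
  refine ⟨⟨?_, ?_, ?_, ?_, ?_, ?_, ?_, a1, b1, ?_, ?_, ?_, a2, b2⟩, a3, b3', hvG, ?_, ?_⟩
  · ext x
    rw [Finset.mem_union, Finset.mem_union, Finset.mem_union, hG]
    constructor
    · intro hx
      by_cases h1 : x ∈ U
      · exact Or.inl (Or.inl (Or.inl h1))
      · by_cases h2 : x ∈ PP W y U
        · exact Or.inl (Or.inl (Or.inr h2))
        · by_cases h3 : x ∈ NN W y U
          · exact Or.inl (Or.inr h3)
          · exact Or.inr ⟨hx, h1, h2, h3⟩
    · rintro (((h1 | h1) | h1) | h1)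
      · exact (hU0 x h1).1
      · exact hPW x h1
      · exact hNW x h1
      · exact h1.1
  · rw [Finset.disjoint_left]
    intro x h1 h2
    linarith [(hU0 x h1).2, a3 x h2]
  · rw [Finset.disjoint_left]
    intro x h1 h2
    linarith [(hU0 x h1).2, b3' x h2]
  · rw [Finset.disjoint_left]
    intro x h1 h2
    exact ((hG x).1 h2).2.1 h1
  · rw [Finset.disjoint_left]
    intro x h1 h2
    linarith [a3 x h1, b3' x h2]
  · rw [Finset.disjoint_left]
    intro x h1 h2
    exact ((hG x).1 h2).2.2.1 h1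
  · rw [Finset.disjoint_left]
    intro x h1 h2
    exact ((hG x).1 h2).2.2.2 h1
  · omega
  · omega
  · omega
  · rw [f1]; exact a4
  · rw [f2]; exact b4

end Pool.J0
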