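import Pool.Agent.Helper790.J0.Defs
import Pool.Agent.Helper790.J0.P_st_reg

set_option autoImplicit false

namespace Pool.J0
open Module
open scoped Classical
variable {E : Type*} [AddCommGroup E] [Module ℝ E] [FiniteDimensional ℝ E]


theorem ln23044 {W : Finset E} (hW : Cfg W) {y : Dual ℝ E} {U : Finset E} {v : E}
    (h : St W y U v) {u : E} (hu : u ∈ U) (P : Finset E) (hP : u ∈ sp P) : P.Nonempty := by
  rw [Finset.nonempty_iff_ne_empty]
  rintro rfl
  have h0 : u = 0 := by
    unfold sp at hP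
    rw [Finset.coe_empty, Submodule.span_empty, Submodule.mem_bot] at hP
    exact hP
  have hz : u ∈ Pool.J0.zer W y := by
    rw [h.zer]
    exact Finset.mem_insert_of_mem hu
  have hW' : u ∈ W := (Finset.mem_filter.1 hz).1
  rw [h0] at hW'
  exact hW.zero hW'

theorem labels_ne {W : Finset E} (hW : Cfg W) {y : Dual ℝ E} {U : Finset E} {v : E} (h : St W y U v)
    (hU : U.Nonempty) : (PP W y U).Nonempty ∧ (NN W y U).Nonempty := by
  obtain ⟨u, hu⟩ := hU
  have hr := (st_reg hW h).1
  exact ⟨ln23044 hW h hu _ (hr.UP u hu), ln23044 hW h hu _ (hr.UN u hu)⟩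

end Pool.J0
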