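import Pool.Agent.Helper790.J0.Defs
import Pool.Agent.Helper790.J0.P_reg_symm
import Pool.Agent.Helper790.J0.P_unif_hyper

set_option autoImplicit false

namespace Pool.J0
open Module
open scoped Classical
variable {E : Type*} [AddCommGroup E] [Module ℝ E] [FiniteDimensional ℝ E]


theorem h400_ins (x : E) (T : Finset E) :
    finrank ℝ (sp (insert x T)) ≤ finrank ℝ (sp T) + 1 := by
  have h : sp (insert x T) = Submodule.span ℝ {x} ⊔ sp T := by
    rw [sp, Finset.coe_insert, Submodule.span_insert]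
  rw [h]
  have h1 := Submodule.finrank_add_le_finrank_add_finrank (Submodule.span ℝ {x}) (sp T)
  have h2 : finrank ℝ (Submodule.span ℝ ({x} : Set E)) ≤ 1 := by
    have := finrank_span_finset_le_card (R := ℝ) ({x} : Finset E)
    rwa [Finset.coe_singleton, Finset.card_singleton] at this
  omega

theorem h400_side {W : Finset E} (hW : Cfg W) (T : Finset E) (x : E) (X1 Y1 : Submodule ℝ E)
    (hT : insert x T ⊆ W) (hTX : ∀ w ∈ T, w ∈ X1) (hX1 : finrank ℝ X1 + 1 = finrank ℝ E)
    (hY : x ∉ Y1) (hsub : ∀ w ∈ W \ insert x T, w ∈ Y1) : sp T = X1 := by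
  have h1 : sp (insert x T) = ⊤ := by
    rcases hW.two (insert x T) hT with h | h
    · exact h
    · exfalso
      apply hY
      have h2 : sp (W \ insert x T) ≤ Y1 := by
        rw [sp, Submodule.span_le]
        intro w hw
        exact hsub w (Finset.mem_coe.mp hw)
      rw [h] at h2
      exact h2 Submodule.mem_top
  have h2 := h400_ins x T
  rw [h1, finrank_top] at h2
  have h3 : sp T ≤ X1 := by
    rw [sp, Submodule.span_le]
    intro w hw
    exact hTX w (Finset.mem_coe.mp hw)
  exact Submodule.eq_of_le_of_finrank_le h3 (by omega)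

/-- The new state. -/
theorem new_state {W : Finset E} (hW : Cfg W) {U P N G : Finset E} (hR : Reg W U P N G) (y : Dual ℝ E)
    (hyU : ∀ u ∈ U, y u = 0) (hyP : ∀ p ∈ P, 0 ≤ y p) (hyN : ∀ n ∈ N, y n ≤ 0)
    (x : E) (hx : x ∈ G) (hx0 : y x = 0) (hx1 : ∀ x' ∈ G, y x' = 0 → x' = x)
    (hcp : (G.filter (fun x => 0 < y x)).card + finrank ℝ (sp P) + 1 = finrank ℝ E)
    (hcn : (G.filter (fun x => y x < 0)).card + finrank ℝ (sp N) + 1 = finrank ℝ E)
    (hQ : ∀ q ∈ P ∪ N, y q = 0 → q ∈ sp (P ∪ G.filter (fun x => 0 < y x)) ∧ q ∈ sp (N ∪ G.filter (fun x => y x < 0))) :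
    St W y (U ∪ (P ∪ N).filter (fun q => y q = 0)) x := by
  obtain ⟨hX1, hX2⟩ := unif_hyper hW hR (G.filter (fun x => 0 < y x)) (Finset.filter_subset _ _) hcp
  obtain ⟨hY1, hY2⟩ := unif_hyper hW (reg_symm hR) (G.filter (fun x => y x < 0))
    (Finset.filter_subset _ _) hcn
  obtain ⟨X, hX⟩ : ∃ X, X = sp (P ∪ G.filter (fun x => 0 < y x)) := ⟨_, rfl⟩
  obtain ⟨Y, hY⟩ : ∃ Y, Y = sp (N ∪ G.filter (fun x => y x < 0)) := ⟨_, rfl⟩
  have hxX : x ∉ X := by
    rw [hX]
    apply hX2 x hx
    rw [Finset.mem_filter, hx0]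
    rintro ⟨-, h⟩
    exact lt_irrefl _ h
  have hxY : x ∉ Y := by
    rw [hY]
    apply hY2 x hx
    rw [Finset.mem_filter, hx0]
    rintro ⟨-, h⟩
    exact lt_irrefl _ h
  have hPX : ∀ w ∈ P ∪ G.filter (fun x => 0 < y x), w ∈ X := by
    intro w hw
    rw [hX]
    exact Submodule.subset_span (Finset.mem_coe.mpr hw)
  have hNY : ∀ w ∈ N ∪ G.filter (fun x => y x < 0), w ∈ Y := by
    intro w hw
    rw [hY]
    exact Submodule.subset_span (Finset.mem_coe.mpr hw)
  have hsP : sp P ≤ X := by
    rw [sp, Submodule.span_le]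
    intro w hw
    exact hPX w (Finset.mem_union_left _ (Finset.mem_coe.mp hw))
  have hsN : sp N ≤ Y := by
    rw [sp, Submodule.span_le]
    intro w hw
    exact hNY w (Finset.mem_union_left _ (Finset.mem_coe.mp hw))
  rw [← hX, ← hY] at hQ
  rw [← hX] at hX1
  rw [← hY] at hY1
  have hUQ : ∀ u ∈ U ∪ (P ∪ N).filter (fun q => y q = 0), u ∈ X ∧ u ∈ Y := by
    intro u hu
    rcases Finset.mem_union.mp hu with h | h
    · exact ⟨hsP (hR.UP u h), hsN (hR.UN u h)⟩
    · obtain ⟨h1, h2⟩ := Finset.mem_filter.mp h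
      exact hQ u h1 h2
  have hWmem : ∀ w, w ∈ W ↔ w ∈ U ∨ w ∈ P ∨ w ∈ N ∨ w ∈ G := by
    intro w
    rw [hR.cover, Finset.mem_union, Finset.mem_union, Finset.mem_union]
    tauto
  have hpos : ∀ w ∈ W, 0 < y w → w ∈ P ∪ G.filter (fun x => 0 < y x) := by
    intro w hw h
    rcases (hWmem w).mp hw with h1 | h1 | h1 | h1
    · rw [hyU w h1] at h
      exact absurd h (lt_irrefl _)
    · exact Finset.mem_union_left _ h1
    · exact absurd (hyN w h1) (not_le.mpr h)
    · exact Finset.mem_union_right _ (Finset.mem_filter.mpr ⟨h1, h⟩)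
  have hneg : ∀ w ∈ W, y w < 0 → w ∈ N ∪ G.filter (fun x => y x < 0) := by
    intro w hw h
    rcases (hWmem w).mp hw with h1 | h1 | h1 | h1
    · rw [hyU w h1] at h
      exact absurd h (lt_irrefl _)
    · exact absurd (hyP w h1) (not_le.mpr h)
    · exact Finset.mem_union_left _ h1
    · exact Finset.mem_union_right _ (Finset.mem_filter.mpr ⟨h1, h⟩)
  have hzero : ∀ w ∈ W, y w = 0 → w = x ∨ w ∈ U ∪ (P ∪ N).filter (fun q => y q = 0) := by
    intro w hw h
    rcases (hWmem w).mp hw with h1 | h1 | h1 | h1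
    · exact Or.inr (Finset.mem_union_left _ h1)
    · exact Or.inr (Finset.mem_union_right _ (Finset.mem_filter.mpr
        ⟨Finset.mem_union_left _ h1, h⟩))
    · exact Or.inr (Finset.mem_union_right _ (Finset.mem_filter.mpr
        ⟨Finset.mem_union_right _ h1, h⟩))
    · exact Or.inl (hx1 w h1 h)
  have hxW : x ∈ W := (hWmem x).mpr (Or.inr (Or.inr (Or.inr hx)))
  have hposX : sp (pos W y) = X := by
    apply h400_side hW (pos W y) x X Y _ _ hX1 hxY
    · intro w hw
      obtain ⟨h1, h2⟩ := Finset.mem_sdiff.mp hw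
      rw [Finset.mem_insert, not_or, pos, Finset.mem_filter, not_and] at h2
      obtain ⟨h3, h4⟩ := h2
      rcases lt_or_eq_of_le (not_lt.mp (h4 h1)) with h5 | h5
      · exact hNY w (hneg w h1 h5)
      · rcases hzero w h1 h5 with h6 | h6
        · exact absurd h6 h3
        · exact (hUQ w h6).2
    · intro w hw
      rcases Finset.mem_insert.mp hw with h | h
      · rw [h]
        exact hxW
      · exact (Finset.mem_filter.mp h).1
    · intro w hw
      obtain ⟨h1, h2⟩ := Finset.mem_filter.mp hw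
      exact hPX w (hpos w h1 h2)
  have hnegY : sp (neg W y) = Y := by
    apply h400_side hW (neg W y) x Y X _ _ hY1 hxX
    · intro w hw
      obtain ⟨h1, h2⟩ := Finset.mem_sdiff.mp hw
      rw [Finset.mem_insert, not_or, neg, Finset.mem_filter, not_and] at h2
      obtain ⟨h3, h4⟩ := h2
      rcases lt_or_eq_of_le (not_lt.mp (h4 h1)) with h5 | h5
      · exact hPX w (hpos w h1 h5)
      · rcases hzero w h1 h5.symm with h6 | h6
        · exact absurd h6 h3
        · exact (hUQ w h6).1
    · intro w hw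
      rcases Finset.mem_insert.mp hw with h | h
      · rw [h]
        exact hxW
      · exact (Finset.mem_filter.mp h).1
    · intro w hw
      obtain ⟨h1, h2⟩ := Finset.mem_filter.mp hw
      exact hNY w (hneg w h1 h2)
  constructor
  · ext w
    rw [zer, Finset.mem_filter, Finset.mem_insert]
    constructor
    · rintro ⟨h1, h2⟩
      exact hzero w h1 h2
    · rintro (h | h)
      · rw [h]
        exact ⟨hxW, hx0⟩
      · rcases Finset.mem_union.mp h with h1 | h1
        · exact ⟨(hWmem w).mpr (Or.inl h1), hyU w h1⟩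
        · obtain ⟨h2, h3⟩ := Finset.mem_filter.mp h1
          refine ⟨(hWmem w).mpr ?_, h3⟩
          rcases Finset.mem_union.mp h2 with h4 | h4
          · exact Or.inr (Or.inl h4)
          · exact Or.inr (Or.inr (Or.inl h4))
  · intro h
    rcases Finset.mem_union.mp h with h1 | h1
    · exact Finset.disjoint_left.mp hR.dUG h1 hx
    · obtain ⟨h2, -⟩ := Finset.mem_filter.mp h1
      rcases Finset.mem_union.mp h2 with h4 | h4
      · exact Finset.disjoint_left.mp hR.dPG h4 hx
      · exact Finset.disjoint_left.mp hR.dNG h4 hx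
  · intro u hu
    rw [hposX]
    exact (hUQ u hu).1
  · intro u hu
    rw [hnegY]
    exact (hUQ u hu).2
  · rw [hposX]
    exact hxX
  · rw [hnegY]
    exact hxY

end Pool.J0
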