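import Pool.Agent.Helper790.J0.Defs
import Pool.Agent.Helper790.J0.P_reg_symm
import Pool.Agent.Helper790.J0.P_unif_two
import Pool.Agent.Helper790.J0.P_case_beta

set_option autoImplicit false

namespace Pool.J0
open Module
open scoped Classical
variable {E : Type*} [AddCommGroup E] [Module ℝ E] [FiniteDimensional ℝ E]


theorem one_class_lt {S : Finset E} {v : E} (hv : v ∉ sp S) :
    finrank ℝ (sp S) < finrank ℝ (sp (insert v S)) := by
  apply Submodule.finrank_lt_finrank_of_lt
  rw [SetLike.lt_iff_le_and_exists]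
  refine ⟨Submodule.span_mono (by rw [Finset.coe_insert]; exact Set.subset_insert _ _), v, ?_, hv⟩
  exact Submodule.subset_span (by simp)

theorem one_class_mem {S : Finset E} {v w : E} (h : w ∈ sp (insert v S)) :
    ∃ a : ℝ, w - a • v ∈ sp S := by
  unfold sp at h
  rw [Finset.coe_insert, Submodule.mem_span_insert] at h
  obtain ⟨a, z, hz, h⟩ := h
  exact ⟨a, by rw [h, add_sub_cancel_left]; exact hz⟩

/-- All vanishing elements of `P ∪ N` are parallel modulo `sp U`. -/
theorem one_class {W : Finset E} (hW : Cfg W) {U P N G : Finset E} (hR : Reg W U P N G) (o : Dual ℝ E)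
    (hoU : ∀ u ∈ U, o u = 0) (hoP : ∀ p ∈ P, 0 < o p) (hoN : ∀ n ∈ N, o n < 0) (y : Dual ℝ E)
    (hyU : ∀ u ∈ U, y u = 0) (hyP : ∀ p ∈ P, 0 ≤ y p) (hyN : ∀ n ∈ N, y n ≤ 0)
    (x : E) (hx : x ∈ G) (hx0 : y x = 0) (hx1 : ∀ x' ∈ G, y x' = 0 → x' = x)
    (hcp : (G.filter (fun x => 0 < y x)).card + finrank ℝ (sp P) + 1 = finrank ℝ E)
    (hcn : (G.filter (fun x => y x < 0)).card + finrank ℝ (sp N) + 1 = finrank ℝ E)
    (h3 : finrank ℝ (sp (zer W y)) ≤ finrank ℝ (sp U) + 2)
    (q q' : E) (hq : q ∈ P ∪ N) (hq' : q' ∈ P ∪ N) (hq0 : y q = 0) (hq0' : y q' = 0) :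
    ∃ a : ℝ, q' - a • q ∈ sp U := by
  by_cases hmem : q' ∈ sp (insert q U)
  · exact one_class_mem hmem
  exfalso
  have hoq : ∀ r ∈ P ∪ N, o r ≠ 0 := by
    intro r hr
    rcases Finset.mem_union.1 hr with h | h
    · exact (hoP r h).ne'
    · exact (hoN r h).ne
  have hoU' : sp U ≤ LinearMap.ker o := by
    rw [Submodule.span_le]
    intro u hu
    exact hoU u hu
  have hnotU : ∀ r ∈ P ∪ N, r ∉ sp U := fun r hr h => hoq r hr (hoU' h)
  have hsubW : ∀ r ∈ P ∪ N, r ∈ W := by
    intro r hr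
    rw [hR.cover]
    rcases Finset.mem_union.1 hr with h | h
    · simp [h]
    · simp [h]
  have hUW : ∀ u ∈ U, u ∈ W := by
    intro u hu
    rw [hR.cover]
    simp [hu]
  have hxW : x ∈ W := by
    rw [hR.cover]
    simp [hx]
  have hle : sp (insert q' (insert q U)) ≤ sp (zer W y) := by
    apply Submodule.span_mono
    intro r hr
    rw [Finset.coe_insert, Finset.coe_insert] at hr
    rcases hr with rfl | rfl | hr
    · exact Finset.mem_coe.2 (Finset.mem_filter.2 ⟨hsubW _ hq', hq0'⟩)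
    · exact Finset.mem_coe.2 (Finset.mem_filter.2 ⟨hsubW _ hq, hq0⟩)
    · exact Finset.mem_coe.2 (Finset.mem_filter.2 ⟨hUW _ hr, hyU _ hr⟩)
  have hlt1 := one_class_lt (hnotU q hq)
  have hlt2 := one_class_lt hmem
  have heq : sp (insert q' (insert q U)) = sp (zer W y) :=
    Submodule.eq_of_le_of_finrank_le hle (by omega)
  have hxmem : x ∈ sp (insert q' (insert q U)) := by
    rw [heq]
    exact Submodule.subset_span (Finset.mem_coe.2 (Finset.mem_filter.2 ⟨hxW, hx0⟩))
  rcases Finset.mem_union.1 hq with hqP | hqN <;> rcases Finset.mem_union.1 hq' with hqP' | hqN'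
  · apply (unif_two hW hR x hx).1
    refine (Submodule.span_le.2 ?_) hxmem
    intro r hr
    rw [Finset.coe_insert, Finset.coe_insert] at hr
    rcases hr with rfl | rfl | hr
    · exact Submodule.subset_span hqP'
    · exact Submodule.subset_span hqP
    · exact hR.UP r hr
  · exact case_beta hW hR o hoU hoP hoN y hyU hyP hyN x hx hx0 hx1 hcp hcn h3 q q' hqP hqN' hq0 hq0'
      hmem
  · refine case_beta hW hR o hoU hoP hoN y hyU hyP hyN x hx hx0 hx1 hcp hcn h3 q' q hqP' hqN hq0' hq0 ?_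
    intro hq'mem
    obtain ⟨a, ha⟩ := one_class_mem hq'mem
    apply hmem
    have ha0 : a ≠ 0 := by
      rintro rfl
      rw [zero_smul, sub_zero] at ha
      exact hnotU q hq ha
    have h1 : q' = a⁻¹ • q - a⁻¹ • (q - a • q') := by
      rw [smul_sub, smul_smul, inv_mul_cancel₀ ha0, one_smul]
      abel
    rw [h1]
    refine Submodule.sub_mem _ (Submodule.smul_mem _ _ (Submodule.subset_span (by simp)))
      (Submodule.smul_mem _ _ ?_)
    exact Submodule.span_mono (by rw [Finset.coe_insert]; exact Set.subset_insert _ _) ha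
  · apply (unif_two hW (reg_symm hR) x hx).1
    refine (Submodule.span_le.2 ?_) hxmem
    intro r hr
    rw [Finset.coe_insert, Finset.coe_insert] at hr
    rcases hr with rfl | rfl | hr
    · exact Submodule.subset_span hqN'
    · exact Submodule.subset_span hqN
    · exact hR.UN r hr

end Pool.J0
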