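import Pool.Agent.Helper790.J0.Defs
import Pool.Agent.Helper790.J0.P_reg_symm
import Pool.Agent.Helper790.J0.P_unif_two

set_option autoImplicit false

namespace Pool.J0
open Module
open scoped Classical
variable {E : Type*} [AddCommGroup E] [Module ℝ E] [FiniteDimensional ℝ E]


theorem oz_sp_mono {S T : Finset E} (h : S ⊆ T) : sp S ≤ sp T :=
  Submodule.span_mono (Finset.coe_subset.mpr h)

theorem oz_sp_lt_insert {S : Finset E} {x : E} (h : x ∉ sp S) : sp S < sp (insert x S) := by
  refine lt_of_le_of_ne (oz_sp_mono (Finset.subset_insert _ _)) fun he => h ?_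
  rw [he]
  exact Submodule.subset_span (Finset.mem_coe.mpr (Finset.mem_insert_self _ _))

theorem oz_zero_unique {W : Finset E} (hW : Cfg W) {U P N G : Finset E} (hR : Reg W U P N G)
    (o : Dual ℝ E) (hoU : ∀ u ∈ U, o u = 0) (y : Dual ℝ E) (hyU : ∀ u ∈ U, y u = 0)
    (d : E) (hd : d ∈ P) (hod : o d ≠ 0) (hyd : y d = 0)
    (h3 : finrank ℝ (sp (zer W y)) ≤ finrank ℝ (sp U) + 2)
    (x x' : E) (hx : x ∈ G) (hx' : x' ∈ G) (hyx : y x = 0) (hyx' : y x' = 0) : x' = x := by
  by_contra hne
  have hUP : sp U ≤ sp P := Submodule.span_le.mpr fun u hu => hR.UP u (Finset.mem_coe.mp hu)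
  have hdU : d ∉ sp U := by
    intro h
    have h1 : sp U ≤ LinearMap.ker o :=
      Submodule.span_le.mpr fun u hu => LinearMap.mem_ker.mpr (hoU u (Finset.mem_coe.mp hu))
    exact hod (LinearMap.mem_ker.mp (h1 h))
  have hdP : sp (insert d U) ≤ sp P := by
    refine Submodule.span_le.mpr fun u hu => ?_
    rcases Finset.mem_insert.mp (Finset.mem_coe.mp hu) with rfl | hu
    · exact Submodule.subset_span (Finset.mem_coe.mpr hd)
    · exact hR.UP u hu
  have hxd : x ∉ sp (insert d U) := fun h => (unif_two hW hR x hx).1 (hdP h)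
  have l1 := Submodule.finrank_lt_finrank_of_lt (oz_sp_lt_insert hdU)
  have l2 := Submodule.finrank_lt_finrank_of_lt (oz_sp_lt_insert hxd)
  have hWU : ∀ u ∈ U, u ∈ W := fun u hu => by rw [hR.cover]; simp [hu]
  have hWP : ∀ u ∈ P, u ∈ W := fun u hu => by rw [hR.cover]; simp [hu]
  have hWG : ∀ u ∈ G, u ∈ W := fun u hu => by rw [hR.cover]; simp [hu]
  have hsub : insert x (insert d U) ⊆ zer W y := by
    intro u hu
    unfold zer
    rw [Finset.mem_filter]
    rcases Finset.mem_insert.mp hu with rfl | hu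
    · exact ⟨hWG _ hx, hyx⟩
    rcases Finset.mem_insert.mp hu with rfl | hu
    · exact ⟨hWP _ hd, hyd⟩
    · exact ⟨hWU _ hu, hyU _ hu⟩
  have heq : sp (insert x (insert d U)) = sp (zer W y) :=
    Submodule.eq_of_le_of_finrank_le (oz_sp_mono hsub) (by omega)
  have hx'z : x' ∈ sp (zer W y) := by
    apply Submodule.subset_span
    rw [Finset.mem_coe]
    unfold zer
    rw [Finset.mem_filter]
    exact ⟨hWG _ hx', hyx'⟩
  rw [← heq] at hx'z
  have hle : sp (insert x (insert d U)) ≤ sp (insert x P) := by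
    refine Submodule.span_le.mpr fun u hu => ?_
    rcases Finset.mem_insert.mp (Finset.mem_coe.mp hu) with rfl | hu
    · exact Submodule.subset_span (Finset.mem_coe.mpr (Finset.mem_insert_self _ _))
    · exact oz_sp_mono (Finset.subset_insert _ _)
        (hdP (Submodule.subset_span (Finset.mem_coe.mpr hu)))
  exact (unif_two hW hR x' hx').2 x hx (fun h => hne h.symm) (hle hx'z)

/-- At this point exactly one element of `G` vanishes, and the numbers of positive and negative ones are known. -/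
theorem one_zero {W : Finset E} (hW : Cfg W) {U P N G : Finset E} (hR : Reg W U P N G) (o : Dual ℝ E)
    (hoU : ∀ u ∈ U, o u = 0) (hoP : ∀ p ∈ P, 0 < o p) (hoN : ∀ n ∈ N, o n < 0) (y : Dual ℝ E)
    (hyU : ∀ u ∈ U, y u = 0) (hyd : ∃ d ∈ P ∪ N, y d = 0)
    (h1 : (G.filter (fun x => 0 < y x)).card + finrank ℝ (sp P) + 1 ≤ finrank ℝ E)
    (h2 : finrank ℝ E ≤ (G.filter (fun x => 0 ≤ y x)).card + finrank ℝ (sp P))
    (h3 : finrank ℝ (sp (zer W y)) ≤ finrank ℝ (sp U) + 2) :
    ∃ x ∈ G, y x = 0 ∧ (∀ x' ∈ G, y x' = 0 → x' = x) ∧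
      (G.filter (fun x => 0 < y x)).card + finrank ℝ (sp P) + 1 = finrank ℝ E ∧
      (G.filter (fun x => y x < 0)).card + finrank ℝ (sp N) + 1 = finrank ℝ E := by
  have c1 : (G.filter (fun x => 0 ≤ y x)).card =
      (G.filter (fun x => 0 < y x)).card + (G.filter (fun x => y x = 0)).card := by
    rw [← Finset.card_union_of_disjoint]
    · congr 1
      ext x
      simp only [Finset.mem_filter, Finset.mem_union]
      constructor
      · rintro ⟨hx, h⟩
        rcases h.lt_or_eq with h | h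
        · exact Or.inl ⟨hx, h⟩
        · exact Or.inr ⟨hx, h.symm⟩
      · rintro (⟨hx, h⟩ | ⟨hx, h⟩)
        · exact ⟨hx, h.le⟩
        · exact ⟨hx, h.symm.le⟩
    · rw [Finset.disjoint_left]
      intro x hx hx'
      rw [Finset.mem_filter] at hx hx'
      rw [hx'.2] at hx
      exact lt_irrefl _ hx.2
  have c2 : G.card = (G.filter (fun x => 0 ≤ y x)).card + (G.filter (fun x => y x < 0)).card := by
    rw [← Finset.card_filter_add_card_filter_not (s := G) (p := fun x => 0 ≤ y x)]
    congr 2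
    ext x
    simp only [Finset.mem_filter, not_le]
  have hpos : 0 < (G.filter (fun x => y x = 0)).card := by omega
  obtain ⟨x, hx⟩ := Finset.card_pos.mp hpos
  rw [Finset.mem_filter] at hx
  obtain ⟨hxG, hyx⟩ := hx
  obtain ⟨d, hd, hyd⟩ := hyd
  have huniq : ∀ x' ∈ G, y x' = 0 → x' = x := by
    intro x' hx' hyx'
    rcases Finset.mem_union.mp hd with hd | hd
    · exact oz_zero_unique hW hR o hoU y hyU d hd (hoP d hd).ne' hyd h3 x x' hxG hx' hyx hyx'
    · exact oz_zero_unique hW (reg_symm hR) o hoU y hyU d hd (hoN d hd).ne hyd h3 x x' hxG hx'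
        hyx hyx'
  have c3 : (G.filter (fun x => y x = 0)).card = 1 := by
    rw [Finset.card_eq_one]
    refine ⟨x, ?_⟩
    ext x'
    simp only [Finset.mem_filter, Finset.mem_singleton]
    constructor
    · rintro ⟨h, h'⟩
      exact huniq x' h h'
    · rintro rfl
      exact ⟨hxG, hyx⟩
  have hc := hR.card
  refine ⟨x, hxG, hyx, huniq, ?_, ?_⟩ <;> omega

end Pool.J0
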