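import Pool.Agent.Helper790.J0.Defs
import Pool.Agent.Helper790.J0.P_gen_sub

set_option autoImplicit false

namespace Pool.J0
open Module
open scoped Classical
variable {E : Type*} [AddCommGroup E] [Module ℝ E] [FiniteDimensional ℝ E]


lemma generic_triple_mem (Z : Finset E) (φ : Dual ℝ E) :
    φ ∈ (sp Z).dualAnnihilator ↔ ∀ z ∈ Z, φ z = 0 := by
  rw [Submodule.mem_dualAnnihilator]
  constructor
  · intro h z hz
    exact h z (Submodule.subset_span hz)
  · intro h w hw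
    have h1 : sp Z ≤ LinearMap.ker φ := by
      rw [Submodule.span_le]
      intro z hz
      exact h z hz
    exact h1 hw

lemma generic_triple_rank (Γ : Submodule ℝ (Dual ℝ E)) (x : Dual ℝ E) :
    finrank ℝ (Γ ⊔ Submodule.span ℝ {x} : Submodule ℝ (Dual ℝ E)) ≤ finrank ℝ Γ + 1 := by
  refine (Submodule.finrank_add_le_finrank_add_finrank _ _).trans ?_
  have : finrank ℝ (Submodule.span ℝ ({x} : Set (Dual ℝ E))) ≤ 1 := by
    have h := finrank_span_finset_le_card (R := ℝ) ({x} : Finset (Dual ℝ E))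
    rw [Finset.coe_singleton, Finset.card_singleton] at h
    exact h
  omega

lemma generic_triple_pert (T G : Finset E) (o' e ζ : Dual ℝ E) (he : ∀ d ∈ T, 0 ≤ e d / o' d)
    (hed : ∃ d ∈ T, e d = 0) :
    ∀ᶠ ε in nhdsWithin (0:ℝ) (Set.Ioi 0), ∀ τ : ℝ, (∀ d ∈ T, τ ≤ (e + ε • ζ) d / o' d) →
      (∃ d ∈ T, τ = (e + ε • ζ) d / o' d) → ∀ x ∈ G,
        (e x < 0 → (e + ε • ζ - τ • o') x < 0) ∧ (0 < e x → 0 < (e + ε • ζ - τ • o') x) := by
  set M : ℝ := ∑ d ∈ T, |ζ d / o' d| with hM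
  have hMd : ∀ d ∈ T, |ζ d / o' d| ≤ M := fun d hd =>
    Finset.single_le_sum (f := fun d => |ζ d / o' d|) (fun _ _ => abs_nonneg _) hd
  have h1 : ∀ᶠ ε in nhdsWithin (0:ℝ) (Set.Ioi 0), ∀ x ∈ G, e x ≠ 0 → ε * (|ζ x| + M * |o' x|) < |e x| := by
    rw [Filter.eventually_all_finset]
    intro x _
    by_cases hx : e x = 0
    · exact Filter.Eventually.of_forall (fun ε h => absurd hx h)
    · have ht : Filter.Tendsto (fun ε : ℝ => ε * (|ζ x| + M * |o' x|)) (nhdsWithin (0:ℝ) (Set.Ioi 0))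
          (nhds 0) := by
        have : Filter.Tendsto (fun ε : ℝ => ε * (|ζ x| + M * |o' x|)) (nhds 0)
          (nhds (0 * (|ζ x| + M * |o' x|))) := (continuous_id.mul continuous_const).tendsto 0
        rw [zero_mul] at this
        exact this.mono_left nhdsWithin_le_nhds
      filter_upwards [ht.eventually_lt_const (abs_pos.2 hx)] with ε hε _
      exact hε
  filter_upwards [h1, self_mem_nhdsWithin] with ε hε hε0
  have hε0' : 0 < ε := hε0
  intro τ hτ1 hτ2 x hx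
  have hτ : |τ| ≤ ε * M := by
    rw [abs_le]
    constructor
    · obtain ⟨d, hd, hτd⟩ := hτ2
      have h2 := he d hd
      have h3 : (e + ε • ζ) d / o' d = e d / o' d + ε * (ζ d / o' d) := by
        simp only [LinearMap.add_apply, LinearMap.smul_apply, smul_eq_mul]
        ring
      rw [hτd, h3]
      have h4 := (abs_le.1 (hMd d hd)).1
      nlinarith
    · obtain ⟨d, hd, hd0⟩ := hed
      have h2 := hτ1 d hd
      have h3 : (e + ε • ζ) d / o' d = ε * (ζ d / o' d) := by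
        simp only [LinearMap.add_apply, LinearMap.smul_apply, smul_eq_mul, hd0]
        ring
      rw [h3] at h2
      have h4 := (abs_le.1 (hMd d hd)).2
      nlinarith
  have h5 : (e + ε • ζ - τ • o') x = e x + (ε * ζ x - τ * o' x) := by
    simp only [LinearMap.sub_apply, LinearMap.add_apply, LinearMap.smul_apply, smul_eq_mul]
    ring
  have h6 : |ε * ζ x - τ * o' x| ≤ ε * (|ζ x| + M * |o' x|) := by
    refine (abs_sub _ _).trans ?_
    rw [abs_mul, abs_mul, abs_of_pos hε0']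
    have := mul_le_mul_of_nonneg_right hτ (abs_nonneg (o' x))
    linarith
  obtain ⟨h7, h8⟩ := abs_le.1 h6
  rw [h5]
  constructor
  · intro hneg
    have h9 := hε x hx hneg.ne
    rw [abs_of_neg hneg] at h9
    linarith
  · intro hpos
    have h9 := hε x hx hpos.ne'
    rw [abs_of_pos hpos] at h9
    linarith

/-- Generic choice of the three points of the path inside `L = {z : z U = 0}`; `e`, `e'` boundary points. -/
theorem generic_triple (W U T G : Finset E) (hUW : U ⊆ W) (hT : T.Nonempty) (hdim : finrank ℝ (sp U) + 3 ≤ finrank ℝ E)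
    (o e e' : Dual ℝ E) (hoU : ∀ u ∈ U, o u = 0) (ho : ∀ d ∈ T, o d ≠ 0)
    (heU : ∀ u ∈ U, e u = 0) (heU' : ∀ u ∈ U, e' u = 0)
    (he : ∀ d ∈ T, 0 ≤ e d / o d) (hed : ∃ d ∈ T, e d = 0)
    (he' : ∀ d ∈ T, 0 ≤ e' d / o d) (hed' : ∃ d ∈ T, e' d = 0) (r : ℕ)
    (hr : (G.filter (fun x => 0 ≤ e x)).card ≤ r) (hr' : r + 1 ≤ (G.filter (fun x => 0 < e' x)).card) :
    ∃ z₀ z₁ o' : Dual ℝ E, (∀ u ∈ U, z₀ u = 0) ∧ (∀ u ∈ U, z₁ u = 0) ∧ (∀ u ∈ U, o' u = 0) ∧
      (∀ d ∈ T, 0 < o' d / o d) ∧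
      (∀ τ : ℝ, (∀ d ∈ T, τ ≤ z₀ d / o' d) → (∃ d ∈ T, τ = z₀ d / o' d) →
        (G.filter (fun x => 0 ≤ (z₀ - τ • o') x)).card ≤ r) ∧
      (∀ τ : ℝ, (∀ d ∈ T, τ ≤ z₁ d / o' d) → (∃ d ∈ T, τ = z₁ d / o' d) →
        r + 1 ≤ (G.filter (fun x => 0 < (z₁ - τ • o') x)).card) ∧
      (∀ a b c : ℝ, (a ≠ 0 ∨ b ≠ 0 ∨ c ≠ 0) →
        finrank ℝ (sp (zer W (a • z₀ + b • z₁ + c • o'))) ≤ finrank ℝ (sp U) + 2) := by
  set L : Submodule ℝ (Dual ℝ E) := (sp U).dualAnnihilator with hL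
  have hLr : finrank ℝ (sp U) + finrank ℝ L = finrank ℝ E :=
    Subspace.finrank_add_finrank_dualAnnihilator_eq (sp U)
  set F0 : Finset (Submodule ℝ (Dual ℝ E)) :=
    (W.powerset.filter (fun Z => finrank ℝ (sp U) + 3 ≤ finrank ℝ (sp Z))).image
      (fun Z => (sp Z).dualAnnihilator) with hF0
  have hF0r : ∀ Γ ∈ F0, finrank ℝ Γ + 3 ≤ finrank ℝ L := by
    intro Γ hΓ
    rw [hF0, Finset.mem_image] at hΓ
    obtain ⟨Z, hZ, rfl⟩ := hΓ
    have h1 := (Finset.mem_filter.1 hZ).2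
    have h2 : finrank ℝ (sp Z) + finrank ℝ (sp Z).dualAnnihilator = finrank ℝ E :=
      Subspace.finrank_add_finrank_dualAnnihilator_eq (sp Z)
    omega
  have hno : ∀ Γ : Submodule ℝ (Dual ℝ E), finrank ℝ Γ < finrank ℝ L → ¬ L ≤ Γ := by
    intro Γ h1 h2
    have := Submodule.finrank_mono h2
    omega
  have hoL : o ∈ L := (generic_triple_mem U o).2 hoU
  have heL : e ∈ L := (generic_triple_mem U e).2 heU
  have heL' : e' ∈ L := (generic_triple_mem U e').2 heU'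
  -- step 1
  obtain ⟨ζ₁, hζ₁, hev1⟩ := gen_sub L F0 (fun Γ hΓ => hno Γ (by have := hF0r Γ hΓ; omega)) o
  have hev1' : ∀ᶠ ε in nhdsWithin (0:ℝ) (Set.Ioi 0), ∀ d ∈ T, 0 < (o + ε • ζ₁) d / o d := by
    rw [Filter.eventually_all_finset]
    intro d hd
    have ht : Filter.Tendsto (fun ε : ℝ => (o d + ε * ζ₁ d) / o d) (nhdsWithin (0:ℝ) (Set.Ioi 0))
        (nhds 1) := by
      have h2 : Continuous (fun ε : ℝ => (o d + ε * ζ₁ d) / o d) := by fun_prop
      have : Filter.Tendsto (fun ε : ℝ => (o d + ε * ζ₁ d) / o d) (nhds 0)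
        (nhds ((o d + 0 * ζ₁ d) / o d)) := h2.tendsto 0
      rw [zero_mul, add_zero, div_self (ho d hd)] at this
      exact this.mono_left nhdsWithin_le_nhds
    filter_upwards [ht.eventually_const_lt (show (0:ℝ) < 1 by norm_num)] with ε hε
    simpa using hε
  obtain ⟨ε₁, h1a, h1b⟩ := (hev1.and hev1').exists
  set o' : Dual ℝ E := o + ε₁ • ζ₁ with ho'
  have hoL' : o' ∈ L := L.add_mem hoL (L.smul_mem _ hζ₁)
  have hratio : ∀ (f : Dual ℝ E), (∀ d ∈ T, 0 ≤ f d / o d) → ∀ d ∈ T, 0 ≤ f d / o' d := by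
    intro f hf d hd
    have h2 := hf d hd
    have h3 := h1b d hd
    have h4 : o' d ≠ 0 := by
      intro h0
      rw [h0, zero_div] at h3
      exact lt_irrefl _ h3
    have h5 : f d / o' d = (f d / o d) / (o' d / o d) := by
      have := ho d hd
      field_simp
    rw [h5]
    exact div_nonneg h2 h3.le
  -- step 2
  set F1 : Finset (Submodule ℝ (Dual ℝ E)) := F0.image (fun Γ => Γ ⊔ Submodule.span ℝ {o'}) with hF1
  have hF1r : ∀ Γ ∈ F1, finrank ℝ Γ + 2 ≤ finrank ℝ L := by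
    intro Γ hΓ
    rw [hF1, Finset.mem_image] at hΓ
    obtain ⟨Γ', hΓ', rfl⟩ := hΓ
    have h1 := hF0r Γ' hΓ'
    have h2 := generic_triple_rank Γ' o'
    omega
  obtain ⟨ζ₂, hζ₂, hev2⟩ := gen_sub L F1 (fun Γ hΓ => hno Γ (by have := hF1r Γ hΓ; omega)) e
  obtain ⟨ε₂, h2a, h2b⟩ := (hev2.and (generic_triple_pert T G o' e ζ₂ (hratio e he) hed)).exists
  set z₀ : Dual ℝ E := e + ε₂ • ζ₂ with hz₀
  have hz₀L : z₀ ∈ L := L.add_mem heL (L.smul_mem _ hζ₂)
  -- step 3
  set F2 : Finset (Submodule ℝ (Dual ℝ E)) := F1.image (fun Γ => Γ ⊔ Submodule.span ℝ {z₀}) with hF2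
  have hF2r : ∀ Γ ∈ F2, finrank ℝ Γ + 1 ≤ finrank ℝ L := by
    intro Γ hΓ
    rw [hF2, Finset.mem_image] at hΓ
    obtain ⟨Γ', hΓ', rfl⟩ := hΓ
    have h1 := hF1r Γ' hΓ'
    have h2 := generic_triple_rank Γ' z₀
    omega
  obtain ⟨ζ₃, hζ₃, hev3⟩ := gen_sub L F2 (fun Γ hΓ => hno Γ (by have := hF2r Γ hΓ; omega)) e'
  obtain ⟨ε₃, h3a, h3b⟩ := (hev3.and (generic_triple_pert T G o' e' ζ₃ (hratio e' he') hed')).exists
  set z₁ : Dual ℝ E := e' + ε₃ • ζ₃ with hz₁
  have hz₁L : z₁ ∈ L := L.add_mem heL' (L.smul_mem _ hζ₃)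
  refine ⟨z₀, z₁, o', (generic_triple_mem U z₀).1 hz₀L, (generic_triple_mem U z₁).1 hz₁L,
    (generic_triple_mem U o').1 hoL', h1b, ?_, ?_, ?_⟩
  · intro τ hτ1 hτ2
    refine le_trans (Finset.card_le_card ?_) hr
    intro x hx
    rw [Finset.mem_filter] at hx ⊢
    refine ⟨hx.1, ?_⟩
    by_contra hneg
    push Not at hneg
    have := (h2b τ hτ1 hτ2 x hx.1).1 hneg
    linarith [hx.2]
  · intro τ hτ1 hτ2
    refine le_trans hr' (Finset.card_le_card ?_)
    intro x hx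
    rw [Finset.mem_filter] at hx ⊢
    exact ⟨hx.1, (h3b τ hτ1 hτ2 x hx.1).2 hx.2⟩
  · intro a b c habc
    by_contra hcon
    push Not at hcon
    set ψ : Dual ℝ E := a • z₀ + b • z₁ + c • o' with hψ
    set Γ : Submodule ℝ (Dual ℝ E) := (sp (zer W ψ)).dualAnnihilator with hΓ
    have hΓF : Γ ∈ F0 := by
      rw [hF0, Finset.mem_image]
      refine ⟨zer W ψ, ?_, rfl⟩
      rw [Finset.mem_filter, Finset.mem_powerset]
      exact ⟨Finset.filter_subset _ _, by omega⟩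
    have hψΓ : ψ ∈ Γ := by
      rw [hΓ, generic_triple_mem]
      intro z hz
      exact (Finset.mem_filter.1 hz).2
    by_cases hb : b = 0
    · by_cases ha : a = 0
      · have hc : c ≠ 0 := by
          rcases habc with h | h | h
          · exact absurd ha h
          · exact absurd hb h
          · exact h
        apply h1a Γ hΓF
        have h4 : o' = c⁻¹ • ψ := by
          rw [hψ, ha, hb, zero_smul, zero_smul, zero_add, zero_add, smul_smul, inv_mul_cancel₀ hc, one_smul]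
        rw [h4]
        exact Γ.smul_mem _ hψΓ
      · apply h2a (Γ ⊔ Submodule.span ℝ {o'}) (by rw [hF1]; exact Finset.mem_image_of_mem _ hΓF)
        have h4 : z₀ = a⁻¹ • ψ + (-(a⁻¹ * c)) • o' := by
          have h5 : a⁻¹ • ψ = z₀ + (a⁻¹ * c) • o' := by
            rw [hψ, hb, zero_smul, add_zero, smul_add, smul_smul, inv_mul_cancel₀ ha, one_smul, smul_smul]
          rw [h5]
          module
        rw [h4]
        exact Submodule.add_mem_sup (Γ.smul_mem _ hψΓ)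
          (Submodule.smul_mem _ _ (Submodule.mem_span_singleton_self _))
    · apply h3a (Γ ⊔ Submodule.span ℝ {o'} ⊔ Submodule.span ℝ {z₀}) (by
        rw [hF2, hF1]; exact Finset.mem_image_of_mem _ (Finset.mem_image_of_mem _ hΓF))
      have h4 : z₁ = (b⁻¹ • ψ + (-(b⁻¹ * c)) • o') + (-(b⁻¹ * a)) • z₀ := by
        have h5 : b⁻¹ • ψ = (b⁻¹ * a) • z₀ + z₁ + (b⁻¹ * c) • o' := by
          rw [hψ, smul_add, smul_add, smul_smul, smul_smul, smul_smul, inv_mul_cancel₀ hb, one_smul]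
        rw [h5]
        module
      rw [h4]
      exact Submodule.add_mem_sup (Submodule.add_mem_sup (Γ.smul_mem _ hψΓ)
        (Submodule.smul_mem _ _ (Submodule.mem_span_singleton_self _)))
        (Submodule.smul_mem _ _ (Submodule.mem_span_singleton_self _))

end Pool.J0
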