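import Pool.Agent.Helper790.J0.Defs

set_option autoImplicit false

namespace Pool.J0
open Module
open scoped Classical
variable {E : Type*} [AddCommGroup E] [Module ℝ E] [FiniteDimensional ℝ E]


theorem pa_open (G : Finset E) (g : E → ℝ → ℝ) (hg : ∀ x, Continuous (g x)) (r : ℕ) :
    IsOpen {t : ℝ | r + 1 ≤ (G.filter (fun x => 0 < g x t)).card} := by
  rw [isOpen_iff_eventually]
  intro t0 ht0
  have h : ∀ᶠ t in nhds t0, ∀ x ∈ G.filter (fun x => 0 < g x t0), 0 < g x t := by
    rw [Filter.eventually_all_finset]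
    intro x hx
    rw [Finset.mem_filter] at hx
    exact (hg x).continuousAt.eventually (lt_mem_nhds hx.2)
  filter_upwards [h] with t ht
  refine le_trans ht0 (Finset.card_le_card ?_)
  intro x hx
  rw [Finset.mem_filter]
  exact ⟨(Finset.mem_filter.1 hx).1, ht x hx⟩

theorem pa_closed (G : Finset E) (g : E → ℝ → ℝ) (hg : ∀ x, Continuous (g x)) (r : ℕ) :
    IsClosed {t : ℝ | r + 1 ≤ (G.filter (fun x => 0 ≤ g x t)).card} := by
  rw [← isOpen_compl_iff, isOpen_iff_eventually]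
  intro t0 ht0
  have h : ∀ᶠ t in nhds t0, ∀ x ∈ G.filter (fun x => g x t0 < 0), g x t < 0 := by
    rw [Filter.eventually_all_finset]
    intro x hx
    rw [Finset.mem_filter] at hx
    exact (hg x).continuousAt.eventually (gt_mem_nhds hx.2)
  filter_upwards [h] with t ht hB
  apply ht0
  refine le_trans hB (Finset.card_le_card ?_)
  intro x hx
  rw [Finset.mem_filter] at hx ⊢
  refine ⟨hx.1, ?_⟩
  by_contra hcon
  push Not at hcon
  have := ht x (Finset.mem_filter.2 ⟨hx.1, hcon⟩)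
  linarith [hx.2]

/-- The path argument, abstractly. `T` = facets, `G` = other functionals, all evaluated along the boundary path
`β t = z t - τ t • o`, `z t = z₀ + t (z₁ - z₀)`, `τ t = min over d ∈ T of z t d / o d`. -/
theorem path_abs (T G : Finset E) (hT : T.Nonempty) (z₀ z₁ o : Dual ℝ E) (ho : ∀ d ∈ T, o d ≠ 0) (r : ℕ)
    (h0 : ∀ τ : ℝ, (∀ d ∈ T, τ ≤ z₀ d / o d) → (∃ d ∈ T, τ = z₀ d / o d) →
      (G.filter (fun x => 0 ≤ (z₀ - τ • o) x)).card ≤ r)
    (h1 : ∀ τ : ℝ, (∀ d ∈ T, τ ≤ z₁ d / o d) → (∃ d ∈ T, τ = z₁ d / o d) →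
      r + 1 ≤ (G.filter (fun x => 0 < (z₁ - τ • o) x)).card) :
    ∃ t τ : ℝ, 0 ≤ t ∧ t ≤ 1 ∧ (∀ d ∈ T, 0 ≤ ((1 - t) • z₀ + t • z₁ - τ • o) d / o d) ∧
      (∃ d ∈ T, ((1 - t) • z₀ + t • z₁ - τ • o) d = 0) ∧
      (G.filter (fun x => 0 < ((1 - t) • z₀ + t • z₁ - τ • o) x)).card ≤ r ∧
      r + 1 ≤ (G.filter (fun x => 0 ≤ ((1 - t) • z₀ + t • z₁ - τ • o) x)).card := by
  set z : ℝ → Dual ℝ E := fun t => (1 - t) • z₀ + t • z₁ with hz
  have hzx : ∀ x, Continuous (fun t => z t x) := by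
    intro x
    have : (fun t => z t x) = fun t => (1 - t) * z₀ x + t * z₁ x := by
      funext t
      simp [hz]
    rw [this]
    fun_prop
  set τ : ℝ → ℝ := fun t => T.inf' hT (fun d => z t d / o d) with hτ
  have hτc : Continuous τ := by
    apply Continuous.finset_inf'_apply
    intro d _
    exact (hzx d).div_const _
  have hle : ∀ t, ∀ d ∈ T, τ t ≤ z t d / o d := fun t d hd =>
    Finset.inf'_le (fun d => z t d / o d) hd
  have hex : ∀ t, ∃ d ∈ T, τ t = z t d / o d := fun t => by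
    obtain ⟨d, hd, he⟩ := Finset.exists_mem_eq_inf' hT (fun d => z t d / o d)
    exact ⟨d, hd, he⟩
  set g : E → ℝ → ℝ := fun x t => (z t - τ t • o) x with hg
  have hgc : ∀ x, Continuous (g x) := by
    intro x
    have : g x = fun t => z t x - τ t * o x := by
      funext t
      simp [hg]
    rw [this]
    exact (hzx x).sub (hτc.mul continuous_const)
  set A : Set ℝ := {t : ℝ | r + 1 ≤ (G.filter (fun x => 0 < g x t)).card} with hA
  set B : Set ℝ := {t : ℝ | r + 1 ≤ (G.filter (fun x => 0 ≤ g x t)).card} with hB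
  have hAo : IsOpen A := pa_open G g hgc r
  have hBc : IsClosed B := pa_closed G g hgc r
  have hAB : A ⊆ B := by
    intro t ht
    refine le_trans ht (Finset.card_le_card ?_)
    intro x hx
    rw [Finset.mem_filter] at hx ⊢
    exact ⟨hx.1, hx.2.le⟩
  have hz0 : z 0 = z₀ := by simp [hz]
  have hz1 : z 1 = z₁ := by simp [hz]
  have h1A : (1:ℝ) ∈ A := by
    have := h1 (τ 1) (by rw [← hz1]; exact hle 1) (by rw [← hz1]; exact hex 1)
    rw [hA, Set.mem_setOf_eq]
    simp only [hg, hz1]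
    exact this
  have h0B : (0:ℝ) ∉ B := by
    intro h
    have := h0 (τ 0) (by rw [← hz0]; exact hle 0) (by rw [← hz0]; exact hex 0)
    rw [hB, Set.mem_setOf_eq] at h
    simp only [hg, hz0] at h
    omega
  set I : Set ℝ := A ∩ Set.Icc 0 1 with hI
  have hIne : I.Nonempty := ⟨1, h1A, by norm_num, le_refl _⟩
  have hIb : BddBelow I := ⟨0, fun t ht => ht.2.1⟩
  have hcl : sInf I ∈ closure I := csInf_mem_closure hIne hIb
  have hclB : sInf I ∈ B ∩ Set.Icc 0 1 := by
    have h2 : I ⊆ B ∩ Set.Icc 0 1 := fun t ht => ⟨hAB ht.1, ht.2⟩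
    exact (hBc.inter isClosed_Icc).closure_subset_iff.2 h2 hcl
  have hnA : sInf I ∉ A := by
    intro hin
    have hpos : 0 < sInf I := by
      rcases hclB.2.1.lt_or_eq with h | h
      · exact h
      · exact absurd (h ▸ hclB.1) h0B
    obtain ⟨ε, hε, hball⟩ := Metric.isOpen_iff.1 hAo _ hin
    set s : ℝ := max 0 (sInf I - ε / 2) with hs
    have hslt : s < sInf I := by
      rw [hs, max_lt_iff]
      exact ⟨hpos, by linarith⟩
    have hsA : s ∈ A := by
      apply hball
      rw [Metric.mem_ball, Real.dist_eq, abs_sub_comm, abs_of_pos (by linarith)]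
      have : sInf I - ε / 2 ≤ s := le_max_right _ _
      linarith
    have hsI : s ∈ I := ⟨hsA, le_max_left _ _, (hslt.trans_le hclB.2.2).le⟩
    exact absurd (csInf_le hIb hsI) (not_le.2 hslt)
  refine ⟨sInf I, τ (sInf I), hclB.2.1, hclB.2.2, ?_, ?_, ?_, hclB.1⟩
  · intro d hd
    have h2 := hle (sInf I) d hd
    have h3 : ((z (sInf I)) - τ (sInf I) • o) d / o d = z (sInf I) d / o d - τ (sInf I) := by
      rw [LinearMap.sub_apply, LinearMap.smul_apply, smul_eq_mul, sub_div,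
        mul_div_assoc, div_self (ho d hd), mul_one]
    change 0 ≤ ((z (sInf I)) - τ (sInf I) • o) d / o d
    rw [h3]
    linarith
  · obtain ⟨d, hd, he⟩ := hex (sInf I)
    refine ⟨d, hd, ?_⟩
    change ((z (sInf I)) - τ (sInf I) • o) d = 0
    rw [LinearMap.sub_apply, LinearMap.smul_apply, smul_eq_mul, he, div_mul_cancel₀ _ (ho d hd),
      sub_self]
  · have : ¬ (r + 1 ≤ (G.filter (fun x => 0 < g x (sInf I))).card) := hnA
    exact Nat.lt_succ_iff.1 (not_le.1 this)

end Pool.J0
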