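import Pool.Agent.Helper790.J0.Defs

set_option autoImplicit false

namespace Pool.J0
open Module
open scoped Classical
variable {E : Type*} [AddCommGroup E] [Module ℝ E] [FiniteDimensional ℝ E]


/-- If `N` has an element outside `sp U` then `rank N ≥ rank U + 1`. -/
theorem rank_gap {U N : Finset E} (hUN : ∀ u ∈ U, u ∈ sp N) (n : E) (hn : n ∈ N) (hnU : n ∉ sp U) :
    finrank ℝ (sp U) + 1 ≤ finrank ℝ (sp N) := by
  have h1 : sp U ≤ sp N := by
    rw [Submodule.span_le]
    intro u hu
    exact hUN u hu
  have h2 : sp U < sp N := by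
    refine lt_of_le_of_ne h1 ?_
    intro h
    apply hnU
    rw [h]
    exact Submodule.subset_span hn
  exact Submodule.finrank_lt_finrank_of_lt h2

end Pool.J0
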