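import Pool.Agent.Helper790.J0.Defs
import Pool.Agent.Helper790.J0.P_rank_gap
import Pool.Agent.Helper790.J0.P_path_abs
import Pool.Agent.Helper790.J0.P_generic_triple

set_option autoImplicit false

namespace Pool.J0
open Module
open scoped Classical
variable {E : Type*} [AddCommGroup E] [Module ℝ E] [FiniteDimensional ℝ E]

open Filter Topology

/-- a functional killing `P` and nonzero on each element of a finite set outside `P` -/
theorem exists_generic (P : Submodule ℝ E) (X : Finset E)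
    (hX : ∀ x ∈ X, x ∉ P) :
    ∃ c : Dual ℝ E, (∀ p ∈ P, c p = 0) ∧ ∀ x ∈ X, c x ≠ 0 := by
  obtain ⟨f, hf⟩ := Module.exists_dual_forall_apply_ne_zero (K := ℝ) (M := E ⧸ P)
    (fun x : X => P.mkQ x.1) (fun x => by simpa using hX x.1 x.2)
  exact ⟨f.comp P.mkQ, fun p hp => by
    have : P.mkQ p = 0 := by simpa using hp
    simp only [LinearMap.comp_apply, this, map_zero], fun x hx => hf ⟨x, hx⟩⟩

/-- generic choice close to a given functional `e` (closeness expressed by a predicate `F` that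
holds for small perturbations of `e`) -/
theorem exists_near (P : Submodule ℝ E) (X : Finset E) (hX : ∀ x ∈ X, x ∉ P)
    (e : Dual ℝ E) (he : ∀ p ∈ P, e p = 0) (F : Dual ℝ E → Prop)
    (hF : ∀ c : Dual ℝ E, (∀ p ∈ P, c p = 0) → ∀ᶠ ε in 𝓝[>] (0 : ℝ), F (e + ε • c)) :
    ∃ z : Dual ℝ E, (∀ p ∈ P, z p = 0) ∧ (∀ x ∈ X, z x ≠ 0) ∧ F z := by
  obtain ⟨c, hcP, hcX⟩ := exists_generic P X hX
  have h1 : ∀ x ∈ X, ∀ᶠ ε in 𝓝[>] (0 : ℝ), (e + ε • c) x ≠ 0 := by
    intro x hx
    by_cases hex : e x = 0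
    · filter_upwards [self_mem_nhdsWithin] with ε hε
      simp only [LinearMap.add_apply, LinearMap.smul_apply, hex, zero_add, smul_eq_mul]
      exact mul_ne_zero (ne_of_gt hε) (hcX x hx)
    · have hcont : Continuous (fun ε : ℝ => (e + ε • c) x) := by
        simp only [LinearMap.add_apply, LinearMap.smul_apply, smul_eq_mul]
        fun_prop
      have h2 : ∀ᶠ ε in 𝓝 (0 : ℝ), (e + ε • c) x ≠ 0 := by
        refine hcont.continuousAt.eventually_ne ?_
        simpa using hex
      exact h2.filter_mono nhdsWithin_le_nhds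
  have h2 : ∀ᶠ ε in 𝓝[>] (0 : ℝ), ∀ x ∈ X, (e + ε • c) x ≠ 0 :=
    (Filter.eventually_all_finset X).2 h1
  obtain ⟨ε, hε1, hε2⟩ := (h2.and (hF c hcP)).exists
  refine ⟨e + ε • c, fun p hp => ?_, hε1, hε2⟩
  simp [he p hp, hcP p hp]

/-- a counting version of the intermediate value theorem -/
theorem count_ivt {ι : Type*} (G : Finset ι) (h : ι → ℝ → ℝ)
    (hc : ∀ x ∈ G, Continuous (h x)) (r : ℕ)
    (h0 : (G.filter (fun x => 0 ≤ h x 0)).card ≤ r)
    (h1 : r + 1 ≤ (G.filter (fun x => 0 < h x 1)).card) :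
    ∃ t ∈ Set.Icc (0 : ℝ) 1, (G.filter (fun x => 0 < h x t)).card ≤ r ∧
      r + 1 ≤ (G.filter (fun x => 0 ≤ h x t)).card := by
  classical
  by_contra hcon
  push Not at hcon
  have hAopen : IsOpen {t : ℝ | r + 1 ≤ (G.filter (fun x => 0 < h x t)).card} := by
    rw [isOpen_iff_eventually]
    intro t ht
    have : ∀ᶠ s in 𝓝 t, ∀ x ∈ G, 0 < h x t → 0 < h x s := by
      refine (Filter.eventually_all_finset G).2 (fun x hx => ?_)
      by_cases hxt : 0 < h x t
      · have := (hc x hx).continuousAt.eventually (lt_mem_nhds hxt)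
        filter_upwards [this] with s hs _ using hs
      · exact Eventually.of_forall (fun s hs => absurd hs hxt)
    filter_upwards [this] with s hs
    refine le_trans ht (Finset.card_le_card ?_)
    intro x hx
    rw [Finset.mem_filter] at hx ⊢
    exact ⟨hx.1, hs x hx.1 hx.2⟩
  have hBopen : IsOpen {t : ℝ | (G.filter (fun x => 0 ≤ h x t)).card ≤ r} := by
    rw [isOpen_iff_eventually]
    intro t ht
    have : ∀ᶠ s in 𝓝 t, ∀ x ∈ G, h x t < 0 → h x s < 0 := by
      refine (Filter.eventually_all_finset G).2 (fun x hx => ?_)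
      by_cases hxt : h x t < 0
      · have := (hc x hx).continuousAt.eventually (gt_mem_nhds hxt)
        filter_upwards [this] with s hs _ using hs
      · exact Eventually.of_forall (fun s hs => absurd hs hxt)
    filter_upwards [this] with s hs
    refine le_trans (Finset.card_le_card ?_) ht
    intro x hx
    rw [Finset.mem_filter] at hx ⊢
    refine ⟨hx.1, ?_⟩
    by_contra hxt
    exact absurd (hs x hx.1 (not_le.1 hxt)) (not_lt.2 hx.2)
  have hpre := isPreconnected_Icc (a := (0 : ℝ)) (b := 1) _ _ hAopen hBopen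
  obtain ⟨t, ht, htA, htB⟩ := hpre (by
      intro t ht
      by_cases hh : (G.filter (fun x => 0 < h x t)).card ≤ r
      · right
        have := hcon t ht hh
        simp only [Set.mem_ofPred_eq]
        omega
      · left
        simp only [Set.mem_ofPred_eq]
        omega)
    ⟨1, by simp, h1⟩ ⟨0, by simp, h0⟩
  simp only [Set.mem_ofPred_eq] at htA htB
  have : (G.filter (fun x => 0 < h x t)).card ≤ (G.filter (fun x => 0 ≤ h x t)).card := by
    refine Finset.card_le_card ?_
    intro x hx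
    rw [Finset.mem_filter] at hx ⊢
    exact ⟨hx.1, le_of_lt hx.2⟩
  omega

/-- parameter of the retraction to the boundary of the cone `z d / o d ≥ 0` -/
noncomputable def tau (Δ : Finset E) (hΔ : Δ.Nonempty) (o z : Dual ℝ E) : ℝ :=
  Δ.inf' hΔ (fun d => z d / o d)

/-- retraction to the boundary of the cone -/
noncomputable def bet (Δ : Finset E) (hΔ : Δ.Nonempty) (o z : Dual ℝ E) : Dual ℝ E :=
  z - (tau Δ hΔ o z) • o

theorem bet_cont (Δ : Finset E) (hΔ : Δ.Nonempty) (o u v : Dual ℝ E) (x : E) :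
    Continuous (fun t : ℝ => bet Δ hΔ o (u + t • v) x) := by
  have h1 : Continuous (fun t : ℝ => tau Δ hΔ o (u + t • v)) := by
    unfold tau
    refine Continuous.finset_inf'_apply hΔ (fun d hd => ?_)
    simp only [LinearMap.add_apply, LinearMap.smul_apply, smul_eq_mul]
    fun_prop
  unfold bet
  simp only [LinearMap.sub_apply, LinearMap.add_apply, LinearMap.smul_apply, smul_eq_mul]
  fun_prop

theorem bet_nonneg (Δ : Finset E) (hΔ : Δ.Nonempty) (o z : Dual ℝ E)
    (ho : ∀ d ∈ Δ, o d ≠ 0) : ∀ d ∈ Δ, 0 ≤ bet Δ hΔ o z d * o d := by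
  intro d hd
  have h1 : tau Δ hΔ o z ≤ z d / o d := Finset.inf'_le _ hd
  unfold bet
  simp only [LinearMap.sub_apply, LinearMap.smul_apply, smul_eq_mul]
  have h2 : z d = (z d / o d) * o d := by field_simp [ho d hd]
  have h3 : (z d - tau Δ hΔ o z * o d) * o d = (z d / o d - tau Δ hΔ o z) * (o d * o d) := by
    rw [h2]
    have := ho d hd
    field_simp
  rw [h3]
  exact mul_nonneg (by linarith) (mul_self_nonneg _)

theorem bet_zero (Δ : Finset E) (hΔ : Δ.Nonempty) (o z : Dual ℝ E)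
    (ho : ∀ d ∈ Δ, o d ≠ 0) : ∃ d ∈ Δ, bet Δ hΔ o z d = 0 := by
  obtain ⟨d, hd, hd'⟩ := Finset.exists_mem_eq_inf' hΔ (fun d => z d / o d)
  refine ⟨d, hd, ?_⟩
  unfold bet tau
  simp only [LinearMap.sub_apply, LinearMap.smul_apply, smul_eq_mul]
  rw [hd']
  have := ho d hd
  field_simp
  ring

theorem bet_self (Δ : Finset E) (hΔ : Δ.Nonempty) (o e : Dual ℝ E)
    (ho : ∀ d ∈ Δ, o d ≠ 0) (he : ∀ d ∈ Δ, 0 ≤ e d * o d) (he0 : ∃ d ∈ Δ, e d = 0) :
    bet Δ hΔ o e = e := by
  have : tau Δ hΔ o e = 0 := by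
    apply le_antisymm
    · obtain ⟨d, hd, hd0⟩ := he0
      have h1 : tau Δ hΔ o e ≤ e d / o d := Finset.inf'_le _ hd
      simpa [hd0] using h1
    · refine Finset.le_inf' _ _ (fun d hd => ?_)
      have h2 : e d / o d = (e d * o d) / (o d * o d) := by
        have := ho d hd
        field_simp
      rw [h2]
      exact div_nonneg (he d hd) (mul_self_nonneg _)
  unfold bet
  rw [this]
  simp

/-- THE CORE PATH LEMMA.  On the boundary of the cone `{z : z d * o' d ≥ 0 for d ∈ Δ}` (inside the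
functionals killing `P`), between a point `e` with at most `r` nonnegative elements of `G` and a point
`e'` with at least `r+1` positive elements of `G`, there is a point `y` with at most `r` positive and
at least `r+1` nonnegative elements of `G`, and its zero set in `W` has rank at most 2 modulo `P`. -/
theorem core_path (P : Submodule ℝ E) (W Δ G : Finset E) (hΔ : Δ.Nonempty)
    (o' e e' : Dual ℝ E) (ho'P : ∀ p ∈ P, o' p = 0) (heP : ∀ p ∈ P, e p = 0)
    (he'P : ∀ p ∈ P, e' p = 0) (ho' : ∀ d ∈ Δ, o' d ≠ 0)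
    (he : ∀ d ∈ Δ, 0 ≤ e d * o' d) (he0 : ∃ d ∈ Δ, e d = 0)
    (he' : ∀ d ∈ Δ, 0 ≤ e' d * o' d) (he'0 : ∃ d ∈ Δ, e' d = 0)
    (r : ℕ) (hr : (G.filter (fun x => 0 ≤ e x)).card ≤ r)
    (hr' : r + 1 ≤ (G.filter (fun x => 0 < e' x)).card) :
    ∃ y : Dual ℝ E, (∀ p ∈ P, y p = 0) ∧ (∀ d ∈ Δ, 0 ≤ y d * o' d) ∧ (∃ d ∈ Δ, y d = 0) ∧
      (G.filter (fun x => 0 < y x)).card ≤ r ∧ r + 1 ≤ (G.filter (fun x => 0 ≤ y x)).card ∧
      (∀ a ∈ W, ∀ b ∈ W, ∀ c ∈ W, y a = 0 → y b = 0 → y c = 0 →
         ∃ α β γ : ℝ, ¬ (α = 0 ∧ β = 0 ∧ γ = 0) ∧ α • a + β • b + γ • c ∈ P) := by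
  classical
  -- the apex direction
  obtain ⟨o, hoP, hoW, ho⟩ := exists_near P (W.filter (fun x => x ∉ P))
    (fun x hx => (Finset.mem_filter.1 hx).2) o' ho'P (fun z => ∀ d ∈ Δ, 0 < z d * o' d)
    (by
      intro c _
      refine (Filter.eventually_all_finset Δ).2 (fun d hd => ?_)
      have hcont : Continuous (fun ε : ℝ => (o' + ε • c) d * o' d) := by
        simp only [LinearMap.add_apply, LinearMap.smul_apply, smul_eq_mul]
        fun_prop
      have h1 : 0 < (fun ε : ℝ => (o' + ε • c) d * o' d) 0 := by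
        have := ho' d hd
        simpa using this
      exact (hcont.continuousAt.eventually (lt_mem_nhds h1)).filter_mono nhdsWithin_le_nhds)
  have hne : ∀ d ∈ Δ, o d ≠ 0 := by
    intro d hd h
    have := ho d hd
    rw [h] at this
    simp at this
  have hsgn : ∀ (z : Dual ℝ E) (d : E), d ∈ Δ → (0 ≤ z d * o d ↔ 0 ≤ z d * o' d) := by
    intro z d hd
    have h1 := ho d hd
    constructor
    · intro h
      have : 0 ≤ (z d * o' d) * (o d * o d) := by
        have : (z d * o' d) * (o d * o d) = (z d * o d) * (o d * o' d) := by ring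
        rw [this]
        positivity
      have h2 : 0 < o d * o d := mul_self_pos.2 (hne d hd)
      exact nonneg_of_mul_nonneg_left this h2
    · intro h
      have : 0 ≤ (z d * o d) * (o' d * o' d) := by
        have : (z d * o d) * (o' d * o' d) = (z d * o' d) * (o d * o' d) := by ring
        rw [this]
        positivity
      have h2 : 0 < o' d * o' d := mul_self_pos.2 (ho' d hd)
      exact nonneg_of_mul_nonneg_left this h2
  have hbe : bet Δ hΔ o e = e := bet_self Δ hΔ o e hne (fun d hd => (hsgn e d hd).2 (he d hd)) he0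
  have hbe' : bet Δ hΔ o e' = e' :=
    bet_self Δ hΔ o e' hne (fun d hd => (hsgn e' d hd).2 (he' d hd)) he'0
  -- the pair vectors
  let pv : E × E → E := fun q => o q.1 • q.2 - o q.2 • q.1
  obtain ⟨z0, hz0P, hz0X, hz0⟩ := exists_near P
    (((W ×ˢ W).image pv).filter (fun x => x ∉ P))
    (fun x hx => (Finset.mem_filter.1 hx).2) e heP
    (fun z => (G.filter (fun x => 0 ≤ bet Δ hΔ o z x)).card ≤ r)
    (by
      intro c _
      have h1 : ∀ᶠ ε in 𝓝 (0 : ℝ), ∀ x ∈ G, e x < 0 → bet Δ hΔ o (e + ε • c) x < 0 := by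
        refine (Filter.eventually_all_finset G).2 (fun x hx => ?_)
        by_cases hex : e x < 0
        · have h2 : (fun ε : ℝ => bet Δ hΔ o (e + ε • c) x) 0 < 0 := by
            simp only [zero_smul, add_zero, hbe]
            exact hex
          have := (bet_cont Δ hΔ o e c x).continuousAt.eventually (gt_mem_nhds h2)
          filter_upwards [this] with s hs _ using hs
        · exact Eventually.of_forall (fun s hs => absurd hs hex)
      refine Filter.Eventually.filter_mono nhdsWithin_le_nhds ?_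
      filter_upwards [h1] with s hs
      refine le_trans (Finset.card_le_card ?_) hr
      intro x hx
      rw [Finset.mem_filter] at hx ⊢
      refine ⟨hx.1, ?_⟩
      by_contra hxt
      exact absurd (hs x hx.1 (not_le.1 hxt)) (not_lt.2 hx.2))
  -- the triple vectors
  let mm : E → E → ℝ := fun a b => o a * z0 b - o b * z0 a
  let tv : E × E × E → E := fun q => mm q.2.1 q.2.2 • q.1 - mm q.1 q.2.2 • q.2.1 + mm q.1 q.2.1 • q.2.2
  obtain ⟨z1, hz1P, hz1X, hz1⟩ := exists_near P
    (((W ×ˢ W ×ˢ W).image tv).filter (fun x => x ∉ P))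
    (fun x hx => (Finset.mem_filter.1 hx).2) e' he'P
    (fun z => r + 1 ≤ (G.filter (fun x => 0 < bet Δ hΔ o z x)).card)
    (by
      intro c _
      have h1 : ∀ᶠ ε in 𝓝 (0 : ℝ), ∀ x ∈ G, 0 < e' x → 0 < bet Δ hΔ o (e' + ε • c) x := by
        refine (Filter.eventually_all_finset G).2 (fun x hx => ?_)
        by_cases hex : 0 < e' x
        · have h2 : 0 < (fun ε : ℝ => bet Δ hΔ o (e' + ε • c) x) 0 := by
            simp only [zero_smul, add_zero, hbe']
            exact hex
          have := (bet_cont Δ hΔ o e' c x).continuousAt.eventually (lt_mem_nhds h2)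
          filter_upwards [this] with s hs _ using hs
        · exact Eventually.of_forall (fun s hs => absurd hs hex)
      refine Filter.Eventually.filter_mono nhdsWithin_le_nhds ?_
      filter_upwards [h1] with s hs
      refine le_trans hr' (Finset.card_le_card ?_)
      intro x hx
      rw [Finset.mem_filter] at hx ⊢
      exact ⟨hx.1, hs x hx.1 hx.2⟩)
  obtain ⟨t, ht, hc1, hc2⟩ := count_ivt G (fun x t => bet Δ hΔ o (z0 + t • (z1 - z0)) x)
    (fun x _ => bet_cont Δ hΔ o z0 (z1 - z0) x) r (by simpa using hz0)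
    (by simpa using hz1)
  refine ⟨bet Δ hΔ o (z0 + t • (z1 - z0)), ?_, ?_, bet_zero Δ hΔ o _ hne, hc1, hc2, ?_⟩
  · intro p hp
    simp [bet, hz0P p hp, hz1P p hp, hoP p hp]
  · intro d hd
    exact (hsgn _ d hd).1 (bet_nonneg Δ hΔ o _ hne d hd)
  · intro a ha b hb c hc hya hyb hyc
    set τ := tau Δ hΔ o (z0 + t • (z1 - z0)) with hτ
    have hval : ∀ x, bet Δ hΔ o (z0 + t • (z1 - z0)) x = z0 x + t * (z1 x - z0 x) - τ * o x := by
      intro x
      simp [bet, ← hτ]
    rw [hval] at hya hyb hyc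
    by_contra hcon
    replace hcon : ∀ α β γ : ℝ, ¬ (α = 0 ∧ β = 0 ∧ γ = 0) → α • a + β • b + γ • c ∉ P :=
      fun α β γ h1 h2 => hcon ⟨α, β, γ, h1, h2⟩
    -- `a ∉ P`
    have haP : a ∉ P := by
      intro h
      exact hcon 1 0 0 (by simp) (by simpa using h)
    have hoa : o a ≠ 0 := hoW a (Finset.mem_filter.2 ⟨ha, haP⟩)
    have hmab : mm a b ≠ 0 := by
      have h1 : pv (a, b) ∉ P := by
        intro h
        refine hcon (- o b) (o a) 0 (fun h => hoa h.2.1) ?_
        have h2 : pv (a, b) = (- o b) • a + (o a) • b + (0 : ℝ) • c := by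
          simp only [pv]
          module
        rw [← h2]
        exact h
      have h2 := hz0X (pv (a, b)) (Finset.mem_filter.2 ⟨Finset.mem_image.2 ⟨(a, b),
        Finset.mem_product.2 ⟨ha, hb⟩, rfl⟩, h1⟩)
      simpa [pv, mm] using h2
    have htv : z1 (tv (a, b, c)) ≠ 0 := by
      have h1 : tv (a, b, c) ∉ P := by
        intro h
        refine hcon (mm b c) (- mm a c) (mm a b) (fun h => hmab h.2.2) ?_
        have h2 : tv (a, b, c) = (mm b c) • a + (- mm a c) • b + (mm a b) • c := by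
          simp only [tv]
          module
        rw [← h2]
        exact h
      exact hz1X (tv (a, b, c)) (Finset.mem_filter.2 ⟨Finset.mem_image.2 ⟨(a, b, c),
        Finset.mem_product.2 ⟨ha, Finset.mem_product.2 ⟨hb, hc⟩⟩, rfl⟩, h1⟩)
    have h1 : z1 (tv (a, b, c)) = mm b c * z1 a - mm a c * z1 b + mm a b * z1 c := by
      simp [tv]
    rw [h1] at htv
    have h2 : t * (mm b c * z1 a - mm a c * z1 b + mm a b * z1 c) = 0 := by
      have e1 : t * z1 a = t * z0 a - z0 a + τ * o a := by linarith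
      have e2 : t * z1 b = t * z0 b - z0 b + τ * o b := by linarith
      have e3 : t * z1 c = t * z0 c - z0 c + τ * o c := by linarith
      have : t * (mm b c * z1 a - mm a c * z1 b + mm a b * z1 c) =
        mm b c * (t * z1 a) - mm a c * (t * z1 b) + mm a b * (t * z1 c) := by ring
      rw [this, e1, e2, e3]
      simp only [mm]
      ring
    have ht0 : t = 0 := by
      rcases mul_eq_zero.1 h2 with h | h
      · exact h
      · exact absurd h htv
    rw [ht0] at hya hyb
    apply hmab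
    simp only [mm]
    have e1 : z0 a = τ * o a := by linarith
    have e2 : z0 b = τ * o b := by linarith
    rw [e1, e2]
    ring

theorem rank_two (Q : Submodule ℝ E) (Z : Finset E)
    (h : ∀ a ∈ Z, ∀ b ∈ Z, ∀ c ∈ Z, ∃ α β γ : ℝ, ¬ (α = 0 ∧ β = 0 ∧ γ = 0) ∧
      α • a + β • b + γ • c ∈ Q) :
    finrank ℝ (sp Z) ≤ finrank ℝ Q + 2 := by
  have key : ∃ T : Finset E, T.card ≤ 2 ∧ sp Z ≤ Q ⊔ sp T := by
    by_cases h1 : ∀ a ∈ Z, a ∈ Q
    · exact ⟨∅, by simp, le_trans (Submodule.span_le.2 (fun x hx => h1 x hx)) le_sup_left⟩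
    push Not at h1
    obtain ⟨a, ha, haQ⟩ := h1
    by_cases h2 : ∀ b ∈ Z, b ∈ Q ⊔ sp {a}
    · exact ⟨{a}, by simp, Submodule.span_le.2 (fun x hx => h2 x hx)⟩
    push Not at h2
    obtain ⟨b, hb, hbQ⟩ := h2
    refine ⟨{a, b}, Finset.card_le_two, Submodule.span_le.2 (fun c hc => ?_)⟩
    obtain ⟨α, β, γ, hne, hmem⟩ := h a ha b hb c hc
    have haS : a ∈ Q ⊔ sp {a, b} :=
      (le_sup_right : sp {a, b} ≤ Q ⊔ sp {a, b}) (Submodule.subset_span (by simp))
    have hbS : b ∈ Q ⊔ sp {a, b} :=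
      (le_sup_right : sp {a, b} ≤ Q ⊔ sp {a, b}) (Submodule.subset_span (by simp))
    have hQS : α • a + β • b + γ • c ∈ Q ⊔ sp {a, b} :=
      (le_sup_left : Q ≤ Q ⊔ sp {a, b}) hmem
    have hγ : γ ≠ 0 := by
      intro hγ
      rw [hγ, zero_smul, add_zero] at hmem
      have hβ : β = 0 := by
        by_contra hβ
        apply hbQ
        have h3 : b = β⁻¹ • (α • a + β • b) - (β⁻¹ * α) • a := by
          rw [smul_add, smul_smul, smul_smul, inv_mul_cancel₀ hβ]
          module
        rw [h3]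
        exact Submodule.sub_mem _
          ((le_sup_left : Q ≤ Q ⊔ sp {a}) (Submodule.smul_mem _ _ hmem))
          ((le_sup_right : sp {a} ≤ Q ⊔ sp {a})
            (Submodule.smul_mem _ _ (Submodule.subset_span (by simp))))
      have hα : α = 0 := by
        by_contra hα
        apply haQ
        rw [hβ, zero_smul, add_zero] at hmem
        exact (Submodule.smul_mem_iff _ hα).1 hmem
      exact hne ⟨hα, hβ, hγ⟩
    have h3 : γ • c ∈ Q ⊔ sp {a, b} := by
      have h4 : γ • c = (α • a + β • b + γ • c) - α • a - β • b := by module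
      rw [h4]
      exact Submodule.sub_mem _ (Submodule.sub_mem _ hQS (Submodule.smul_mem _ _ haS))
        (Submodule.smul_mem _ _ hbS)
    exact (Submodule.smul_mem_iff _ hγ).1 h3
  obtain ⟨T, hT, hle⟩ := key
  have h1 : finrank ℝ (sp Z) ≤ finrank ℝ (Q ⊔ sp T : Submodule ℝ E) := Submodule.finrank_mono hle
  have h2 : finrank ℝ (Q ⊔ sp T : Submodule ℝ E) ≤ finrank ℝ Q + finrank ℝ (sp T) :=
    Submodule.finrank_add_le_finrank_add_finrank _ _
  have h3 : finrank ℝ (sp T) ≤ T.card := finrank_span_finset_le_card T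
  omega

/-- Point on the boundary of the region where the number of positive elements of `G` jumps. -/
theorem path_pt {W : Finset E} (hW : Cfg W) {U P N G : Finset E} (hR : Reg W U P N G) (o e e' : Dual ℝ E)
    (hoU : ∀ u ∈ U, o u = 0) (hoP : ∀ p ∈ P, 0 < o p) (hoN : ∀ n ∈ N, o n < 0)
    (heU : ∀ u ∈ U, e u = 0) (heP : ∀ p ∈ P, 0 ≤ e p) (heN : ∀ n ∈ N, e n ≤ 0) (hed : ∃ d ∈ P ∪ N, e d = 0)
    (hec : (G.filter (fun x => 0 ≤ e x)).card + finrank ℝ (sp P) + 1 ≤ finrank ℝ E)
    (heU' : ∀ u ∈ U, e' u = 0) (heP' : ∀ p ∈ P, 0 ≤ e' p) (heN' : ∀ n ∈ N, e' n ≤ 0) (hed' : ∃ d ∈ P ∪ N, e' d = 0)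
    (hec' : finrank ℝ E ≤ (G.filter (fun x => 0 < e' x)).card + finrank ℝ (sp P)) :
    ∃ y : Dual ℝ E, (∀ u ∈ U, y u = 0) ∧ (∀ p ∈ P, 0 ≤ y p) ∧ (∀ n ∈ N, y n ≤ 0) ∧ (∃ d ∈ P ∪ N, y d = 0) ∧
      (G.filter (fun x => 0 < y x)).card + finrank ℝ (sp P) + 1 ≤ finrank ℝ E ∧
      finrank ℝ E ≤ (G.filter (fun x => 0 ≤ y x)).card + finrank ℝ (sp P) ∧
      finrank ℝ (sp (zer W y)) ≤ finrank ℝ (sp U) + 2 := by
  have hkill : ∀ z : Dual ℝ E, (∀ u ∈ U, z u = 0) → ∀ p ∈ sp U, z p = 0 := by
    intro z hz p hp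
    have h1 : sp U ≤ LinearMap.ker z := Submodule.span_le.2 (fun u hu => by
      simpa using hz u hu)
    exact LinearMap.mem_ker.1 (h1 hp)
  have hT : (P ∪ N).Nonempty := by
    obtain ⟨d, hd, _⟩ := hed
    exact ⟨d, hd⟩
  have hkP := hR.kP
  obtain ⟨y, hyU, hys, hy0, hc1, hc2, hy3⟩ := core_path (sp U) W (P ∪ N) G hT o e e'
    (hkill o hoU) (hkill e heU) (hkill e' heU')
    (by
      intro d hd
      rcases Finset.mem_union.1 hd with h | h
      · exact ne_of_gt (hoP d h)
      · exact ne_of_lt (hoN d h))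
    (by
      intro d hd
      rcases Finset.mem_union.1 hd with h | h
      · exact mul_nonneg (heP d h) (hoP d h).le
      · exact mul_nonneg_of_nonpos_of_nonpos (heN d h) (hoN d h).le) hed
    (by
      intro d hd
      rcases Finset.mem_union.1 hd with h | h
      · exact mul_nonneg (heP' d h) (hoP d h).le
      · exact mul_nonneg_of_nonpos_of_nonpos (heN' d h) (hoN d h).le) hed'
    (finrank ℝ E - finrank ℝ (sp P) - 1) (by omega) (by omega)
  refine ⟨y, fun u hu => hyU u (Submodule.subset_span hu), ?_, ?_, hy0, by omega, by omega, ?_⟩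
  · intro p hp
    exact nonneg_of_mul_nonneg_left (hys p (Finset.mem_union_left _ hp)) (hoP p hp)
  · intro n hn
    exact nonpos_of_mul_nonneg_left (hys n (Finset.mem_union_right _ hn)) (hoN n hn)
  · apply rank_two
    intro a ha b hb c hc
    simp only [zer, Finset.mem_filter] at ha hb hc
    exact hy3 a ha.1 b hb.1 c hc.1 ha.2 hb.2 hc.2

end Pool.J0
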