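import Pool.Agent.Helper790.J0.Defs
import Pool.Agent.Helper790.J0.P_reg_symm
import Pool.Agent.Helper790.J0.P_path_pt
import Pool.Agent.Helper790.J0.P_one_zero
import Pool.Agent.Helper790.J0.P_one_class
import Pool.Agent.Helper790.J0.P_alpha_LL
import Pool.Agent.Helper790.J0.P_new_state

set_option autoImplicit false

namespace Pool.J0
open Module
open scoped Classical
variable {E : Type*} [AddCommGroup E] [Module ℝ E] [FiniteDimensional ℝ E]


/-- Core lemma. -/
theorem core {W : Finset E} (hW : Cfg W) {U P N G : Finset E} (hR : Reg W U P N G) (o e e' : Dual ℝ E)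
    (hoU : ∀ u ∈ U, o u = 0) (hoP : ∀ p ∈ P, 0 < o p) (hoN : ∀ n ∈ N, o n < 0)
    (heU : ∀ u ∈ U, e u = 0) (heP : ∀ p ∈ P, 0 ≤ e p) (heN : ∀ n ∈ N, e n ≤ 0) (hed : ∃ d ∈ P ∪ N, e d = 0)
    (hec : (G.filter (fun x => 0 ≤ e x)).card + finrank ℝ (sp P) + 1 ≤ finrank ℝ E)
    (heU' : ∀ u ∈ U, e' u = 0) (heP' : ∀ p ∈ P, 0 ≤ e' p) (heN' : ∀ n ∈ N, e' n ≤ 0) (hed' : ∃ d ∈ P ∪ N, e' d = 0)
    (hec' : finrank ℝ E ≤ (G.filter (fun x => 0 < e' x)).card + finrank ℝ (sp P)) :
    ∃ (y : Dual ℝ E) (U' : Finset E) (x : E), St W y U' x ∧ U'.Nonempty ∧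
      finrank ℝ (sp U) + 1 ≤ finrank ℝ (sp U') := by
  obtain ⟨y, hyU, hyP, hyN, hyd, h1, h2, h3⟩ :=
    path_pt hW hR o e e' hoU hoP hoN heU heP heN hed hec heU' heP' heN' hed' hec'
  obtain ⟨x, hx, hx0, hx1, hcp, hcn⟩ := one_zero hW hR o hoU hoP hoN y hyU hyd h1 h2 h3
  have hcls := one_class hW hR o hoU hoP hoN y hyU hyP hyN x hx hx0 hx1 hcp hcn h3
  have hUP : sp U ≤ sp P := Submodule.span_le.mpr (fun u hu => hR.UP u (by simpa using hu))
  have hUN : sp U ≤ sp N := Submodule.span_le.mpr (fun u hu => hR.UN u (by simpa using hu))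
  have hPl : sp P ≤ sp (P ∪ G.filter (fun x => 0 < y x)) :=
    Submodule.span_mono (by
      intro w hw
      simp only [Finset.mem_coe, Finset.mem_union] at hw ⊢
      exact Or.inl hw)
  have hNl : sp N ≤ sp (N ∪ G.filter (fun x => y x < 0)) :=
    Submodule.span_mono (by
      intro w hw
      simp only [Finset.mem_coe, Finset.mem_union] at hw ⊢
      exact Or.inl hw)
  have hQ : ∀ q ∈ P ∪ N, y q = 0 → q ∈ sp (P ∪ G.filter (fun x => 0 < y x)) ∧
      q ∈ sp (N ∪ G.filter (fun x => y x < 0)) := by
    intro q hq hq0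
    constructor
    · by_cases hqP : q ∈ P
      · exact hPl (Submodule.subset_span (by simpa using hqP))
      · have hqN : q ∈ N := by
          rcases Finset.mem_union.mp hq with h | h
          · exact absurd h hqP
          · exact h
        by_cases hex : ∃ p ∈ P, y p = 0
        · obtain ⟨p, hp, hp0⟩ := hex
          obtain ⟨a, ha⟩ := hcls p q (Finset.mem_union_left _ hp) hq hp0 hq0
          have hqe : q = a • p + (q - a • p) := by abel
          rw [hqe]
          refine hPl (Submodule.add_mem _ (Submodule.smul_mem _ _ ?_) (hUP ha))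
          exact Submodule.subset_span (by simpa using hp)
        · have hex' : ∀ p ∈ P, y p ≠ 0 := fun p hp h0 => hex ⟨p, hp, h0⟩
          have key := alpha_LL hW (reg_symm hR) (-o) (fun u hu => by simp [hoU u hu])
            (fun p hp => by simpa using hoN p hp) (-y) (fun u hu => by simp [hyU u hu])
            (fun p hp => by simpa using hyN p hp)
            (fun n hn => by
              have h0 := hyP n hn
              have h0' := hex' n hn
              have : 0 < y n := lt_of_le_of_ne h0 (Ne.symm h0')
              simpa using this)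
            x hx (by simp [hx0])
            (by simpa using hcn) (by simpa using hcp)
            (fun q hq hq0 q' hq' hq0' =>
              hcls q q' (Finset.mem_union_right _ hq) (Finset.mem_union_right _ hq')
                (by simpa using hq0) (by simpa using hq0'))
            q hqN (by simp [hq0])
          simpa using key
    · by_cases hqN : q ∈ N
      · exact hNl (Submodule.subset_span (by simpa using hqN))
      · have hqP : q ∈ P := by
          rcases Finset.mem_union.mp hq with h | h
          · exact h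
          · exact absurd h hqN
        by_cases hex : ∃ n ∈ N, y n = 0
        · obtain ⟨n, hn, hn0⟩ := hex
          obtain ⟨a, ha⟩ := hcls n q (Finset.mem_union_right _ hn) hq hn0 hq0
          have hqe : q = a • n + (q - a • n) := by abel
          rw [hqe]
          refine hNl (Submodule.add_mem _ (Submodule.smul_mem _ _ ?_) (hUN ha))
          exact Submodule.subset_span (by simpa using hn)
        · have hex' : ∀ n ∈ N, y n ≠ 0 := fun n hn h0 => hex ⟨n, hn, h0⟩
          exact alpha_LL hW hR o hoU hoP y hyU hyP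
            (fun n hn => lt_of_le_of_ne (hyN n hn) (hex' n hn))
            x hx hx0 hcp hcn
            (fun q hq hq0 q' hq' hq0' =>
              hcls q q' (Finset.mem_union_left _ hq) (Finset.mem_union_left _ hq') hq0 hq0')
            q hqP hq0
  have hst := new_state hW hR y hyU hyP hyN x hx hx0 hx1 hcp hcn hQ
  obtain ⟨d, hd, hd0⟩ := hyd
  have hdU' : d ∈ U ∪ (P ∪ N).filter (fun q => y q = 0) :=
    Finset.mem_union_right _ (Finset.mem_filter.mpr ⟨hd, hd0⟩)
  refine ⟨y, _, x, hst, ⟨d, hdU'⟩, ?_⟩
  have hle : sp U ≤ sp (U ∪ (P ∪ N).filter (fun q => y q = 0)) :=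
    Submodule.span_mono (by
      intro w hw
      simp only [Finset.mem_coe, Finset.mem_union] at hw ⊢
      exact Or.inl hw)
  have hod : o d ≠ 0 := by
    rcases Finset.mem_union.mp hd with h | h
    · exact (hoP d h).ne'
    · exact (hoN d h).ne
  have hker : sp U ≤ LinearMap.ker o := Submodule.span_le.mpr (fun u hu => by
    simp only [SetLike.mem_coe, LinearMap.mem_ker]
    exact hoU u (by simpa using hu))
  have hlt : sp U < sp (U ∪ (P ∪ N).filter (fun q => y q = 0)) := by
    refine lt_of_le_of_ne hle ?_
    intro heq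
    have hdm : d ∈ sp U := by
      rw [heq]
      exact Submodule.subset_span (by simpa using hdU')
    exact hod (by simpa using hker hdm)
  have := Submodule.finrank_lt_finrank_of_lt hlt
  omega

end Pool.J0
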