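import Pool.Agent.Helper790.J0.Defs
import Pool.Agent.Helper790.J0.P_rank_union
import Pool.Agent.Helper790.J0.P_reg_symm
import Pool.Agent.Helper790.J0.P_unif
import Pool.Agent.Helper790.J0.P_unif_two
import Pool.Agent.Helper790.J0.P_rank_gap

set_option autoImplicit false

namespace Pool.J0
open Module
open scoped Classical
variable {E : Type*} [AddCommGroup E] [Module ℝ E] [FiniteDimensional ℝ E]


theorem exists_e_small {ι : Type*} (S : Finset ι) (a b : ι → ℝ) (h : ∀ i ∈ S, 0 < a i) :
    ∃ ε : ℝ, 0 < ε ∧ ∀ i ∈ S, 0 < a i + ε * b i := by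
  have h1 : ∀ᶠ ε : ℝ in nhdsWithin 0 (Set.Ioi 0), ∀ i ∈ S, 0 < a i + ε * b i := by
    rw [Filter.eventually_all_finset]
    intro i hi
    have hc : Continuous fun ε : ℝ => a i + ε * b i := by fun_prop
    have h2 : Filter.Tendsto (fun ε : ℝ => a i + ε * b i) (nhdsWithin 0 (Set.Ioi 0)) (nhds (a i)) := by
      have h3 := hc.tendsto 0
      simp only [zero_mul, add_zero] at h3
      exact h3.mono_left nhdsWithin_le_nhds
    exact h2.eventually (lt_mem_nhds (h i hi))
  obtain ⟨ε, h2, h3⟩ := (h1.and self_mem_nhdsWithin).exists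
  exact ⟨ε, h3, h2⟩

theorem exists_e_time {ι : Type*} (S : Finset ι) (A B : ι → ℝ) (hA : ∀ i ∈ S, 0 < A i)
    (hB : ∃ i ∈ S, B i < 0) : ∃ t : ℝ, 0 < t ∧ (∀ i ∈ S, 0 ≤ A i + t * B i) ∧
      ∃ i ∈ S, A i + t * B i = 0 := by
  have hne : (S.filter (fun i => B i < 0)).Nonempty := by
    obtain ⟨i, hi, hb⟩ := hB
    exact ⟨i, Finset.mem_filter.2 ⟨hi, hb⟩⟩
  obtain ⟨d, hd, hmin⟩ := Finset.exists_min_image _ (fun i => A i / (-B i)) hne
  rw [Finset.mem_filter] at hd
  have hBd : 0 < -B d := by linarith [hd.2]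
  refine ⟨A d / (-B d), div_pos (hA d hd.1) hBd, ?_, d, hd.1, ?_⟩
  · intro i hi
    by_cases hb : B i < 0
    · have h1 := hmin i (Finset.mem_filter.2 ⟨hi, hb⟩)
      have h2 : 0 < -B i := by linarith
      rw [le_div_iff₀ h2] at h1
      linarith
    · push Not at hb
      have h1 := hA i hi
      have h2 : 0 < A d / (-B d) := div_pos (hA d hd.1) hBd
      nlinarith [mul_nonneg h2.le hb]
  · have : B d ≠ 0 := ne_of_lt hd.2
    rw [div_neg, neg_mul, div_mul_cancel₀ _ this]
    ring

theorem exists_e_zero {S : Finset E} {z : Dual ℝ E} (h : ∀ s ∈ S, z s = 0) {x : E} (hx : x ∈ sp S) :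
    z x = 0 := by
  have h1 : sp S ≤ LinearMap.ker z := by
    rw [Submodule.span_le]
    intro s hs
    exact h s (by exact_mod_cast hs)
  exact h1 hx

/-- A boundary point of the region with few nonnegative elements of `G`. -/
theorem exists_e {W : Finset E} (hW : Cfg W) {U P N G : Finset E} (hR : Reg W U P N G) (y : Dual ℝ E)
    (hU : ∀ u ∈ U, y u = 0) (hP : ∀ p ∈ P, 0 < y p) (hN : ∀ n ∈ N, y n < 0) (v : E) (hv : v ∈ G) (hv0 : y v = 0)
    (hcard : (G.filter (fun x => y x < 0)).card + finrank ℝ (sp N) + 1 = finrank ℝ E) (hne : N.Nonempty) :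
    ∃ e : Dual ℝ E, (∀ u ∈ U, e u = 0) ∧ (∀ p ∈ P, 0 ≤ e p) ∧ (∀ n ∈ N, e n ≤ 0) ∧ (∃ d ∈ P ∪ N, e d = 0) ∧
      (G.filter (fun x => 0 ≤ e x)).card + finrank ℝ (sp P) + 1 ≤ finrank ℝ E := by
  obtain ⟨T, hT⟩ : ∃ T : Finset E, T = insert v (G.filter (fun x => y x < 0)) := ⟨_, rfl⟩
  have hTG : T ⊆ G := by
    rw [hT]
    intro x hx
    rcases Finset.mem_insert.1 hx with rfl | hx
    · exact hv
    · exact (Finset.mem_filter.1 hx).1
  have hTc : T.card = (G.filter (fun x => y x < 0)).card + 1 := by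
    rw [hT, Finset.card_insert_of_notMem]
    intro h
    have := (Finset.mem_filter.1 h).2
    linarith
  have htop : sp (N ∪ T) = ⊤ := unif hW (reg_symm hR) T hTG (by omega)
  obtain ⟨n0, hn0⟩ := hne
  have hn0U : n0 ∉ sp U := fun h => (hN n0 hn0).ne (exists_e_zero hU h)
  have hgap := rank_gap hR.UN n0 hn0 hn0U
  have hru := rank_union U T
  have hlt : sp (U ∪ T) < ⊤ := by
    rw [lt_top_iff_ne_top]
    intro h
    rw [h, finrank_top] at hru
    omega
  -- z
  have hz : ∃ z : Dual ℝ E, (∀ u ∈ U, z u = 0) ∧ (∀ x ∈ T, z x = 0) ∧ ∃ n ∈ N, 0 < z n := by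
    obtain ⟨z, hz0, hzk⟩ := Submodule.exists_le_ker_of_lt_top _ hlt
    have hzU : ∀ u ∈ U, z u = 0 := fun u hu => hzk (Submodule.subset_span (by simp [hu]))
    have hzT : ∀ x ∈ T, z x = 0 := fun x hx => hzk (Submodule.subset_span (by simp [hx]))
    have hex : ∃ n ∈ N, z n ≠ 0 := by
      by_contra hcon
      push Not at hcon
      apply hz0
      ext x
      have : x ∈ sp (N ∪ T) := by rw [htop]; trivial
      refine exists_e_zero (z := z) ?_ this
      intro s hs
      rcases Finset.mem_union.1 hs with hs | hs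
      · exact hcon s hs
      · exact hzT s hs
    obtain ⟨n, hn, hzn⟩ := hex
    rcases lt_or_gt_of_ne hzn with h | h
    · refine ⟨-z, fun u hu => by simp [hzU u hu], fun x hx => by simp [hzT x hx], n, hn, ?_⟩
      simp only [LinearMap.neg_apply]
      linarith
    · exact ⟨z, hzU, hzT, n, hn, h⟩
  obtain ⟨z, hzU, hzT, n1, hn1, hzn1⟩ := hz
  -- η
  have hη : ∃ η : Dual ℝ E, (∀ u ∈ U, η u = 0) ∧ η v < 0 := by
    have hvU : v ∉ sp U := by
      intro h
      apply (unif_two hW hR v hv).1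
      have : sp U ≤ sp P := by
        rw [Submodule.span_le]
        intro u hu
        exact hR.UP u (by exact_mod_cast hu)
      exact this h
    obtain ⟨f, hf, hfk⟩ := Submodule.exists_le_ker_of_notMem hvU
    have hfU : ∀ u ∈ U, f u = 0 := fun u hu => hfk (Submodule.subset_span (by exact_mod_cast hu))
    rcases lt_or_gt_of_ne hf with h | h
    · exact ⟨f, hfU, h⟩
    · refine ⟨-f, fun u hu => by simp [hfU u hu], ?_⟩
      simp only [LinearMap.neg_apply]
      linarith
  obtain ⟨η, hηU, hηv⟩ := hη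
  -- small ε
  obtain ⟨ε, hε, hεS⟩ := exists_e_small (P ∪ (N ∪ G.filter (fun x => y x < 0)))
    (fun x => |y x|) (fun x => if x ∈ P then η x else -η x) (by
      intro x hx
      rcases Finset.mem_union.1 hx with h | h
      · exact abs_pos.2 (hP x h).ne'
      · rcases Finset.mem_union.1 h with h | h
        · exact abs_pos.2 (hN x h).ne
        · exact abs_pos.2 (Finset.mem_filter.1 h).2.ne)
  obtain ⟨y1, hy1⟩ : ∃ y1 : Dual ℝ E, y1 = y + ε • η := ⟨_, rfl⟩
  have hy1a : ∀ x, y1 x = y x + ε * η x := by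
    intro x; rw [hy1]; simp
  have hy1P : ∀ p ∈ P, 0 < y1 p := by
    intro p hp
    have := hεS p (Finset.mem_union_left _ hp)
    simp only [hp, if_true] at this
    rw [abs_of_pos (hP p hp)] at this
    rw [hy1a]; exact this
  have hNP : ∀ n ∈ N, n ∉ P := fun n hn hp => Finset.disjoint_left.1 hR.dPN hp hn
  have hGP : ∀ n ∈ G, n ∉ P := fun n hn hp => Finset.disjoint_left.1 hR.dPG hp hn
  have hy1N : ∀ n ∈ N, y1 n < 0 := by
    intro n hn
    have := hεS n (Finset.mem_union_right _ (Finset.mem_union_left _ hn))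
    simp only [hNP n hn, if_false] at this
    rw [abs_of_neg (hN n hn)] at this
    rw [hy1a]; linarith
  have hy1T : ∀ x ∈ T, y1 x < 0 := by
    intro x hx
    rw [hT] at hx
    rcases Finset.mem_insert.1 hx with rfl | hx
    · rw [hy1a, hv0]
      have := mul_neg_of_pos_of_neg hε hηv
      linarith
    · have := hεS x (Finset.mem_union_right _ (Finset.mem_union_right _ hx))
      simp only [hGP x (Finset.mem_filter.1 hx).1, if_false] at this
      rw [abs_of_neg (Finset.mem_filter.1 hx).2] at this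
      rw [hy1a]; linarith
  -- first time
  obtain ⟨t, ht, hnn, d, hd, hd0⟩ := exists_e_time (P ∪ N) (fun x => if x ∈ P then y1 x else -y1 x)
    (fun x => if x ∈ P then z x else -z x) (by
      intro x hx
      by_cases hxP : x ∈ P
      · simp only [hxP, if_true]; exact hy1P x hxP
      · simp only [hxP, if_false]
        have := hy1N x ((Finset.mem_union.1 hx).resolve_left hxP)
        linarith)
    ⟨n1, Finset.mem_union_right _ hn1, by simp only [hNP n1 hn1, if_false]; linarith⟩
  obtain ⟨e, he⟩ : ∃ e : Dual ℝ E, e = y1 + t • z := ⟨_, rfl⟩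
  have hea : ∀ x, e x = y1 x + t * z x := by
    intro x; rw [he]; simp
  have heT : ∀ x ∈ T, e x < 0 := by
    intro x hx
    rw [hea, hzT x hx]
    have := hy1T x hx
    linarith
  refine ⟨e, ?_, ?_, ?_, ⟨d, hd, ?_⟩, ?_⟩
  · intro u hu
    rw [hea, hy1a, hU u hu, hηU u hu, hzU u hu]; ring
  · intro p hp
    have := hnn p (Finset.mem_union_left _ hp)
    simp only [hp, if_true] at this
    rw [hea]; exact this
  · intro n hn
    have := hnn n (Finset.mem_union_right _ hn)
    simp only [hNP n hn, if_false] at this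
    rw [hea]; linarith
  · by_cases hdP : d ∈ P
    · simp only [hdP, if_true] at hd0
      rw [hea]; exact hd0
    · simp only [hdP, if_false] at hd0
      rw [hea]; linarith
  · have hsub : G.filter (fun x => 0 ≤ e x) ⊆ G \ T := by
      intro x hx
      rw [Finset.mem_filter] at hx
      rw [Finset.mem_sdiff]
      refine ⟨hx.1, fun hxT => ?_⟩
      have := heT x hxT
      linarith [hx.2]
    have h1 := Finset.card_le_card hsub
    rw [Finset.card_sdiff_of_subset hTG] at h1
    have h2 := hR.card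
    have h3 := Finset.card_le_card hTG
    omega

end Pool.J0
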