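import Pool.Agent.Helper790.J0.Defs
import Pool.Agent.Helper790.J0.P_reg_symm
import Pool.Agent.Helper790.J0.P_exists_e

set_option autoImplicit false

namespace Pool.J0
open Module
open scoped Classical
variable {E : Type*} [AddCommGroup E] [Module ℝ E] [FiniteDimensional ℝ E]


/-- A boundary point of the region with many positive elements of `G` (apply `exists_e` to `-y` and the swapped
region). -/
theorem exists_e2 {W : Finset E} (hW : Cfg W) {U P N G : Finset E} (hR : Reg W U P N G) (y : Dual ℝ E)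
    (hU : ∀ u ∈ U, y u = 0) (hP : ∀ p ∈ P, 0 < y p) (hN : ∀ n ∈ N, y n < 0) (v : E) (hv : v ∈ G) (hv0 : y v = 0)
    (hcard : (G.filter (fun x => 0 < y x)).card + finrank ℝ (sp P) + 1 = finrank ℝ E) (hne : P.Nonempty) :
    ∃ e : Dual ℝ E, (∀ u ∈ U, e u = 0) ∧ (∀ p ∈ P, 0 ≤ e p) ∧ (∀ n ∈ N, e n ≤ 0) ∧ (∃ d ∈ P ∪ N, e d = 0) ∧
      finrank ℝ E ≤ (G.filter (fun x => 0 < e x)).card + finrank ℝ (sp P) := by
  have hcard' : (G.filter (fun x => (-y) x < 0)).card + finrank ℝ (sp P) + 1 = finrank ℝ E := by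
    rw [← hcard]
    congr 3
    ext x
    simp
  obtain ⟨e1, h1, h2, h3, ⟨d, hd, hd0⟩, h5⟩ := exists_e hW (reg_symm hR) (-y)
    (fun u hu => by simp [hU u hu]) (fun p hp => by simpa using hN p hp)
    (fun n hn => by simpa using hP n hn) v hv (by simp [hv0]) hcard' hne
  refine ⟨-e1, fun u hu => by simp [h1 u hu], fun p hp => by simpa using h3 p hp,
    fun n hn => by simpa using h2 n hn, ⟨d, by rw [Finset.union_comm]; exact hd, by simp [hd0]⟩, ?_⟩
  have hc := hR.card
  have h6 : (G.filter (fun x => 0 ≤ e1 x)).card + (G.filter (fun x => ¬ 0 ≤ e1 x)).card = G.card :=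
    Finset.card_filter_add_card_filter_not (fun x => 0 ≤ e1 x)
  have h7 : (G.filter (fun x => 0 < (-e1) x)).card = (G.filter (fun x => ¬ 0 ≤ e1 x)).card := by
    congr 1
    ext x
    simp
  rw [h7]
  omega

end Pool.J0
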