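import Pool.Agent.Helper790.J0.Defs
import Pool.Agent.Helper790.J0.P_st_reg
import Pool.Agent.Helper790.J0.P_exists_e
import Pool.Agent.Helper790.J0.P_exists_e2
import Pool.Agent.Helper790.J0.P_core

set_option autoImplicit false

namespace Pool.J0
open Module
open scoped Classical
variable {E : Type*} [AddCommGroup E] [Module ℝ E] [FiniteDimensional ℝ E]


/-- From a state with both labels nonempty one gets a state with larger `U`. -/
theorem step {W : Finset E} (hW : Cfg W) {y : Dual ℝ E} {U : Finset E} {v : E} (h : St W y U v)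
    (hP : (PP W y U).Nonempty) (hN : (NN W y U).Nonempty) :
    ∃ (y' : Dual ℝ E) (U' : Finset E) (x : E), St W y' U' x ∧ U'.Nonempty ∧
      finrank ℝ (sp U) + 1 ≤ finrank ℝ (sp U') := by
  obtain ⟨hR, hp, hn, hv, hcp, hcn⟩ := st_reg hW h
  have hz : ∀ u ∈ insert v U, y u = 0 := by
    intro u hu
    rw [← h.zer] at hu
    exact (Finset.mem_filter.1 hu).2
  have hU : ∀ u ∈ U, y u = 0 := fun u hu => hz u (Finset.mem_insert_of_mem hu)
  have hv0 : y v = 0 := hz v (Finset.mem_insert_self _ _)
  obtain ⟨e, he1, he2, he3, he4, he5⟩ := exists_e hW hR y hU hp hn v hv hv0 hcn hN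
  obtain ⟨e', he1', he2', he3', he4', he5'⟩ := exists_e2 hW hR y hU hp hn v hv hv0 hcp hP
  exact core hW hR y e e' hU hp hn he1 he2 he3 he4 he5 he1' he2' he3' he4' he5'

end Pool.J0
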