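import Pool.Agent.Helper790.J0.Defs
import Pool.Agent.Helper790.J0.P_labels_ne
import Pool.Agent.Helper790.J0.P_step

set_option autoImplicit false

namespace Pool.J0
open Module
open scoped Classical
variable {E : Type*} [AddCommGroup E] [Module ℝ E] [FiniteDimensional ℝ E]


theorem cor1 {W : Finset E} (hW : Cfg W) {y : Dual ℝ E} {U : Finset E} {v : E} (h : St W y U v) : U = ∅ := by
  by_contra hne
  have hU : U.Nonempty := Finset.nonempty_iff_ne_empty.mpr hne
  have key : ∀ n : ℕ, ∃ (y' : Dual ℝ E) (U' : Finset E) (x : E), St W y' U' x ∧ U'.Nonempty ∧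
      n ≤ finrank ℝ (sp U') := by
    intro n
    induction n with
    | zero => exact ⟨y, U, v, h, hU, Nat.zero_le _⟩
    | succ n ih =>
      obtain ⟨y', U', x, hst, hU', hn⟩ := ih
      obtain ⟨hP, hN⟩ := labels_ne hW hst hU'
      obtain ⟨y'', U'', x', hst', hU'', hn'⟩ := step hW hst hP hN
      exact ⟨y'', U'', x', hst', hU'', by omega⟩
  obtain ⟨y', U', x, -, -, hn⟩ := key (finrank ℝ E + 1)
  have := Submodule.finrank_le (sp U')
  omega

end Pool.J0
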