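import Pool.Agent.Helper790.J0.Defs
import Pool.Agent.Helper790.J0.P_step
import Pool.Agent.Helper790.J0.P_cor1

set_option autoImplicit false

namespace Pool.J0
open Module
open scoped Classical
variable {E : Type*} [AddCommGroup E] [Module ℝ E] [FiniteDimensional ℝ E]

theorem cor2 {W : Finset E} (hW : Cfg W) {y : Dual ℝ E} {v : E} (h : St W y ∅ v) :
    PP W y ∅ = ∅ ∨ NN W y ∅ = ∅ := by
  by_contra hc
  push Not at hc
  obtain ⟨y', U', x, hs, hne, -⟩ := step hW h hc.1 hc.2
  have := cor1 hW hs
  simp [this] at hne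

end Pool.J0
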