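import Pool.Agent.Helper790.J0.Defs
import Pool.Agent.Helper790.J0.P_st_reg

set_option autoImplicit false

namespace Pool.J0
open Module
open scoped Classical
variable {E : Type*} [AddCommGroup E] [Module ℝ E] [FiniteDimensional ℝ E]


theorem lab_reg {W : Finset E} (hW : Cfg W) {P₀ : Finset E} (hL : Lab W P₀) :
    Reg W ∅ P₀ ∅ (W \ P₀) ∧ P₀ ⊆ W ∧ ∃ (y : Dual ℝ E) (v : E), (∀ p ∈ P₀, 0 < y p) ∧ v ∈ W \ P₀ ∧ y v = 0 ∧
      ((W \ P₀).filter (fun x => 0 < y x)).card + finrank ℝ (sp P₀) + 1 = finrank ℝ E := by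
  obtain ⟨_, y, v, hSt, hPP, hNN⟩ := hL
  have hGG : GG W y ∅ = W \ P₀ := by
    unfold GG
    rw [hPP, hNN, Finset.empty_union, Finset.union_empty]
  obtain ⟨h1, h2, _, h4, h5, _⟩ := st_reg hW hSt
  rw [hPP, hNN, hGG] at h1
  rw [hPP] at h2
  rw [hGG] at h4
  rw [hPP, hGG] at h5
  refine ⟨h1, ?_, y, v, h2, h4, ?_, h5⟩
  · intro x hx
    rw [h1.cover]
    simp [hx]
  · have hv : v ∈ zer W y := by
      rw [hSt.zer]
      exact Finset.mem_insert_self _ _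
    exact (Finset.mem_filter.mp hv).2

end Pool.J0
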