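import Pool.Agent.Helper790.J0.Defs
import Pool.Agent.Helper790.J0.P_rank_union
import Pool.Agent.Helper790.J0.P_unif_two
import Pool.Agent.Helper790.J0.P_exists_e2
import Pool.Agent.Helper790.J0.P_core
import Pool.Agent.Helper790.J0.P_cor1
import Pool.Agent.Helper790.J0.P_lab_reg

set_option autoImplicit false

namespace Pool.J0
open Module
open scoped Classical
variable {E : Type*} [AddCommGroup E] [Module ℝ E] [FiniteDimensional ℝ E]


theorem cor3 {W : Finset E} (hW : Cfg W) {P₀ : Finset E} (hL : Lab W P₀) (w : Dual ℝ E) (g : E) (hg : g ∈ P₀)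
    (hg0 : w g = 0) (hpos : ∀ p ∈ P₀, p ≠ g → 0 < w p) (hcol : sp (neg W w) = ⊤) : False := by
  obtain ⟨hR, hsub, y, v, hyP, hvG, hyv, hcard⟩ := lab_reg hW hL
  have hne := hL.1
  obtain ⟨e', he1, he2, he3, he4, he5⟩ := exists_e2 hW hR y (by simp) hyP (by simp) v hvG hyv
    hcard hne
  have hw0 : ∀ p ∈ P₀, 0 ≤ w p := by
    intro p hp
    by_cases hpg : p = g
    · rw [hpg, hg0]
    · exact (hpos p hp hpg).le
  have hneg : (W \ P₀).filter (fun x => ¬ (0 ≤ w x)) = neg W w := by
    ext x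
    unfold neg
    simp only [Finset.mem_filter, Finset.mem_sdiff, not_le]
    constructor
    · rintro ⟨⟨h1, _⟩, h3⟩
      exact ⟨h1, h3⟩
    · rintro ⟨h1, h3⟩
      refine ⟨⟨h1, fun h2 => ?_⟩, h3⟩
      have := hw0 x h2
      linarith
  have hcn : finrank ℝ E ≤ (neg W w).card := by
    have h1 : finrank ℝ (sp (neg W w)) ≤ (neg W w).card := finrank_span_finset_le_card _
    rw [hcol, finrank_top] at h1
    exact h1
  have hsplit : ((W \ P₀).filter (fun x => 0 ≤ w x)).card + (neg W w).card = (W \ P₀).card := by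
    rw [← hneg]
    exact Finset.card_filter_add_card_filter_not (s := W \ P₀) (fun x => 0 ≤ w x)
  have hRc := hR.card
  have h0 : finrank ℝ (sp (∅ : Finset E)) = 0 := by
    simp [sp]
  rw [h0] at hRc
  obtain ⟨y1, U', x, hSt, hU', _⟩ := core hW hR y w e' (by simp) hyP (by simp) (by simp) hw0
    (by simp) ⟨g, by simpa using hg, hg0⟩ (by omega) he1 he2 he3 he4 he5
  rw [cor1 hW hSt] at hU'
  exact Finset.not_nonempty_empty hU'

end Pool.J0
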