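import Pool.Agent.Helper790.J0.Defs
import Pool.Agent.Helper790.J0.P_cor3

set_option autoImplicit false

namespace Pool.J0
open Module
open scoped Classical
variable {E : Type*} [AddCommGroup E] [Module ℝ E] [FiniteDimensional ℝ E]


/-- Crossing a wall where both neighbours have colour `-`. -/
theorem cross_minus {W : Finset E} (hW : Cfg W) (w : Dual ℝ E) (g : E)
    (hz : zer W w = {g}) (z z' : Dual ℝ E)
    (hp : pos W z = pos W w) (hn : neg W z = insert g (neg W w))
    (hp' : pos W z' = insert g (pos W w)) (hn' : neg W z' = neg W w)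
    (hc : sp (neg W z') = ⊤) : PL W z ↔ PL W z' := by
  have hg : w g = 0 := by
    have h1 : g ∈ zer W w := by rw [hz]; exact Finset.mem_singleton_self g
    exact (Finset.mem_filter.1 h1).2
  constructor
  · rintro ⟨P₀, hL, hP⟩
    refine ⟨P₀, hL, ?_⟩
    rw [hp'] 
    rw [hp] at hP
    exact hP.trans (Finset.subset_insert _ _)
  · rintro ⟨P₀, hL, hP⟩
    refine ⟨P₀, hL, ?_⟩
    rw [hp'] at hP
    rw [hp]
    by_cases hgP : g ∈ P₀
    · exfalso
      rw [hn'] at hc
      refine cor3 hW hL w g hgP hg ?_ hc
      intro p hpP hpg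
      rcases Finset.mem_insert.1 (hP hpP) with h | h
      · exact absurd h hpg
      · exact (Finset.mem_filter.1 h).2
    · intro p hpP
      rcases Finset.mem_insert.1 (hP hpP) with h | h
      · rw [h] at hpP
        exact absurd hpP hgP
      · exact h

end Pool.J0
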