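import Pool.Agent.Helper790.J0.Defs
import Pool.Agent.Helper790.J0.P_neg_neg_pos
import Pool.Agent.Helper790.J0.P_unif_two
import Pool.Agent.Helper790.J0.P_lab_reg

set_option autoImplicit false

namespace Pool.J0
open Module
open scoped Classical
variable {E : Type*} [AddCommGroup E] [Module ℝ E] [FiniteDimensional ℝ E]


theorem cross_pair_sp (A : Finset E) (a b : E) (c : ℝ) (h : b = c • a) :
    sp (insert b A) ≤ sp (insert a A) := by
  refine Submodule.span_le.2 ?_
  intro x hx
  rw [Finset.mem_coe, Finset.mem_insert] at hx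
  rcases hx with rfl | hx
  · rw [h]
    exact Submodule.smul_mem _ _ (Submodule.subset_span (Finset.mem_coe.2 (Finset.mem_insert_self _ _)))
  · exact Submodule.subset_span (Finset.mem_coe.2 (Finset.mem_insert_of_mem hx))

theorem cross_pair_PL {W : Finset E} (hW : Cfg W) (z : Dual ℝ E) (A : Finset E) (a b : E) (c : ℝ)
    (hb : b = c • a) (hpos : pos W z = insert a A) (hneg : b ∈ neg W z) :
    PL W z ↔ ∃ P₀ : Finset E, Lab W P₀ ∧ P₀ ⊆ A := by
  constructor
  · rintro ⟨P₀, hL, hsub⟩
    refine ⟨P₀, hL, ?_⟩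
    have hbW : b ∈ W := (Finset.mem_filter.1 hneg).1
    have hbP : b ∉ P₀ := by
      intro hbP
      have h1 := (Finset.mem_filter.1 (hsub hbP)).2
      have h2 := (Finset.mem_filter.1 hneg).2
      linarith
    have ha : a ∉ P₀ := by
      intro ha
      have hR := (lab_reg hW hL).1
      have h1 := (unif_two hW hR b (Finset.mem_sdiff.2 ⟨hbW, hbP⟩)).1
      apply h1
      rw [hb]
      exact Submodule.smul_mem _ _ (Submodule.subset_span (Finset.mem_coe.2 ha))
    intro p hp
    have h1 := hsub hp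
    rw [hpos, Finset.mem_insert] at h1
    rcases h1 with rfl | h1
    · exact absurd hp ha
    · exact h1
  · rintro ⟨P₀, hL, hsub⟩
    refine ⟨P₀, hL, ?_⟩
    rw [hpos]
    exact hsub.trans (Finset.subset_insert _ _)

theorem cross_pair {W : Finset E} (hW : Cfg W) (w : Dual ℝ E) (g g' : E) (c : ℝ) (hc : c < 0) (hgg : g' = c • g)
    (hz : zer W w = {g, g'}) (z z' : Dual ℝ E)
    (hp : pos W z = insert g' (pos W w)) (hn : neg W z = insert g (neg W w))
    (hp' : pos W z' = insert g (pos W w)) (hn' : neg W z' = insert g' (neg W w)) : sg W z ↔ sg W z' := by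
  have hgg' : g = c⁻¹ • g' := by
    rw [hgg, smul_smul, inv_mul_cancel₀ hc.ne, one_smul]
  have s1 : sp (neg W z) = sp (neg W z') := by
    rw [hn, hn']
    exact le_antisymm (cross_pair_sp _ _ _ _ hgg') (cross_pair_sp _ _ _ _ hgg)
  have s2 : sp (pos W z) = sp (pos W z') := by
    rw [hp, hp']
    exact le_antisymm (cross_pair_sp _ _ _ _ hgg) (cross_pair_sp _ _ _ _ hgg')
  obtain ⟨m1, m2, -⟩ := neg_neg_pos W z
  obtain ⟨m1', m2', -⟩ := neg_neg_pos W z'
  have q1 := cross_pair_PL hW z (pos W w) g' g _ hgg' hp (by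
    rw [hn]
    exact Finset.mem_insert_self _ _)
  have q2 := cross_pair_PL hW z' (pos W w) g g' _ hgg hp' (by
    rw [hn']
    exact Finset.mem_insert_self _ _)
  have q3 := cross_pair_PL hW (-z) (neg W w) g g' _ hgg (by rw [m1, hn]) (by
    rw [m2, hp]
    exact Finset.mem_insert_self _ _)
  have q4 := cross_pair_PL hW (-z') (neg W w) g' g _ hgg' (by rw [m1', hn']) (by
    rw [m2', hp']
    exact Finset.mem_insert_self _ _)
  unfold sg
  rw [s1, s2, q1, q2, q3, q4]

end Pool.J0
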