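import Pool.Agent.Helper790.J0.Defs
import Pool.Agent.Helper790.J0.P_ncl_erase

set_option autoImplicit false

namespace Pool.J0
open Module
open scoped Classical
variable {E : Type*} [AddCommGroup E] [Module ℝ E] [FiniteDimensional ℝ E]


/-- If the negative side of `w` has no non-coloops it contains no label. -/
theorem no_lab_coloopfree {W : Finset E} {P₀ : Finset E} (hL : Lab W P₀) (B : Finset E) (hB : P₀ ⊆ B)
    (hcl : ncl (B ∪ ∅) \ ∅ = ∅) : False := by
  obtain ⟨⟨q, hq⟩, y, v, _, hP, _⟩ := hL
  unfold PP at hP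
  rw [Finset.union_empty, Finset.sdiff_empty] at hP hcl
  have h1 : q ∈ ncl (pos W y) := by rw [hP]; exact hq
  have h2 := ncl_erase _ q h1
  rw [hP] at h2
  have h3 : sp (P₀.erase q) ≤ sp (B.erase q) :=
    Submodule.span_mono (by exact_mod_cast Finset.erase_subset_erase q hB)
  have h4 : q ∈ ncl B := by
    unfold ncl
    rw [Finset.mem_filter]
    exact ⟨hB hq, h3 h2⟩
  rw [hcl] at h4
  exact absurd h4 (Finset.notMem_empty _)

end Pool.J0
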