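import Pool.Agent.Helper790.J0.Defs
import Pool.Agent.Helper790.J0.P_neg_neg_pos
import Pool.Agent.Helper790.J0.P_st_neg
import Pool.Agent.Helper790.J0.P_st_reg
import Pool.Agent.Helper790.J0.P_cor2
import Pool.Agent.Helper790.J0.P_no_lab_coloopfree

set_option autoImplicit false

namespace Pool.J0
open Module
open scoped Classical
variable {E : Type*} [AddCommGroup E] [Module ℝ E] [FiniteDimensional ℝ E]


/-- Crossing a colour-changing wall: then `w` is a state with `U = ∅`. -/
theorem cross_state {W : Finset E} (hW : Cfg W) (hl : 2 * finrank ℝ E ≤ W.card) (w : Dual ℝ E) (g : E)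
    (hz : zer W w = {g}) (z z' : Dual ℝ E)
    (hp : pos W z = pos W w) (hn : neg W z = insert g (neg W w))
    (hp' : pos W z' = insert g (pos W w)) (hn' : neg W z' = neg W w)
    (hc : sp (neg W z) = ⊤) (hc' : sp (pos W z') = ⊤) : sg W z ↔ sg W z' := by
  have hmemz : ∀ x ∈ W, w x = 0 → x = g := by
    intro x hx h0
    have : x ∈ zer W w := by simp [zer, hx, h0]
    rw [hz] at this
    simpa using this
  have hposw : ∀ x ∈ W, 0 < w x → x ∈ pos W w := fun x hx h0 => by simp [pos, hx, h0]
  have hnegw : ∀ x ∈ W, w x < 0 → x ∈ neg W w := fun x hx h0 => by simp [neg, hx, h0]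
  have hpos_iff : ∀ (y : Dual ℝ E) x, x ∈ pos W y → 0 < y x := fun y x hx => by
    simp only [pos, Finset.mem_filter] at hx; exact hx.2
  have hneg_iff : ∀ (y : Dual ℝ E) x, x ∈ neg W y → y x < 0 := fun y x hx => by
    simp only [neg, Finset.mem_filter] at hx; exact hx.2
  have hznv : ∀ x ∈ W, z x ≠ 0 := by
    intro x hx
    rcases lt_trichotomy (w x) 0 with h | h | h
    · have : x ∈ neg W z := by rw [hn]; exact Finset.mem_insert_of_mem (hnegw x hx h)
      exact (hneg_iff z x this).ne
    · have : x ∈ neg W z := by rw [hn, hmemz x hx h]; exact Finset.mem_insert_self _ _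
      exact (hneg_iff z x this).ne
    · have : x ∈ pos W z := by rw [hp]; exact hposw x hx h
      exact (hpos_iff z x this).ne'
  have hznv' : ∀ x ∈ W, z' x ≠ 0 := by
    intro x hx
    rcases lt_trichotomy (w x) 0 with h | h | h
    · have : x ∈ neg W z' := by rw [hn']; exact hnegw x hx h
      exact (hneg_iff z' x this).ne
    · have : x ∈ pos W z' := by rw [hp', hmemz x hx h]; exact Finset.mem_insert_self _ _
      exact (hpos_iff z' x this).ne'
    · have : x ∈ pos W z' := by rw [hp']; exact Finset.mem_insert_of_mem (hposw x hx h)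
      exact (hpos_iff z' x this).ne'
  have hspins : ∀ B : Finset E, g ∈ sp B → sp (insert g B) = sp B := by
    intro B hB
    simp only [sp, Finset.coe_insert]
    exact Submodule.span_insert_eq_span hB
  have hA : sp (pos W z) ≠ ⊤ := fun h => hW.nofull z hznv ⟨h, hc⟩
  have hB : sp (neg W z') ≠ ⊤ := fun h => hW.nofull z' hznv' ⟨hc', h⟩
  have hst : St W w ∅ g := by
    refine ⟨by rw [hz]; simp, by simp, by simp, by simp, ?_, ?_⟩
    · intro hg
      apply hA
      rw [hp, ← hspins _ hg, ← hp', hc']
    · intro hg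
      apply hB
      rw [hn', ← hspins _ hg, ← hn, hc]
  have hreg := (st_reg hW hst).1
  rcases cor2 hW hst with hP | hN
  · have hNne : (NN W w ∅).Nonempty := by
      rw [Finset.nonempty_iff_ne_empty]
      intro hN
      have h1 := hreg.card
      rw [hP, hN] at h1
      have h2 : GG W w ∅ = W := by simp [GG, hP, hN]
      rw [h2] at h1
      omega
    have hPLz : ¬ PL W z := by
      rintro ⟨P₀, hL, hsub⟩
      rw [hp] at hsub
      exact no_lab_coloopfree hL (pos W w) hsub hP
    obtain ⟨e1, e2, e3⟩ := neg_neg_pos W w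
    obtain ⟨e1', e2', e3'⟩ := neg_neg_pos W z'
    have hPLz' : PL W (-z') := by
      refine ⟨NN W w ∅, ⟨hNne, -w, g, st_neg hst, ?_, ?_⟩, ?_⟩
      · simp only [PP, NN, e1]
      · simp only [NN, e2]
        exact hP
      · rw [e1', hn']
        intro x hx
        simp only [NN, ncl, Finset.union_empty, Finset.sdiff_empty, Finset.mem_filter] at hx
        exact hx.1
    constructor
    · rintro (h | h)
      · exact absurd h.2 hPLz
      · exact absurd h.1 hA
    · rintro (h | h)
      · exact absurd h.1 hB
      · exact absurd hPLz' h.2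
  · have hPne : (PP W w ∅).Nonempty := by
      rw [Finset.nonempty_iff_ne_empty]
      intro hP
      have h1 := hreg.card
      rw [hP, hN] at h1
      have h2 : GG W w ∅ = W := by simp [GG, hP, hN]
      rw [h2] at h1
      omega
    have hPLz : PL W z := by
      refine ⟨PP W w ∅, ⟨hPne, w, g, hst, rfl, hN⟩, ?_⟩
      rw [hp]
      intro x hx
      simp only [PP, ncl, Finset.union_empty, Finset.sdiff_empty, Finset.mem_filter] at hx
      exact hx.1
    have hPLz' : ¬ PL W (-z') := by
      rintro ⟨P₀, hL, hsub⟩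
      rw [(neg_neg_pos W z').1, hn'] at hsub
      exact no_lab_coloopfree hL (neg W w) hsub hN
    exact ⟨fun _ => Or.inr ⟨hc', hPLz'⟩, fun _ => Or.inl ⟨hc, hPLz⟩⟩

end Pool.J0
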