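import Pool.Agent.Helper790.J0.Defs
import Pool.Agent.Helper790.J0.P_neg_neg_pos

set_option autoImplicit false

namespace Pool.J0
open Module
open scoped Classical
variable {E : Type*} [AddCommGroup E] [Module ℝ E] [FiniteDimensional ℝ E]


theorem sg_neg {W : Finset E} (hW : Cfg W) (z : Dual ℝ E) (hz : ∀ w ∈ W, z w ≠ 0) : sg W (-z) ↔ ¬ sg W z := by
  have h1 : pos W (-z) = neg W z ∧ neg W (-z) = pos W z ∧ zer W (-z) = zer W z :=
    neg_neg_pos W z
  have hsd : W \ pos W z = neg W z := by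
    ext w
    simp only [pos, neg, Finset.mem_sdiff, Finset.mem_filter]
    constructor
    · rintro ⟨hw, hn⟩
      refine ⟨hw, ?_⟩
      have h0 := hz w hw
      have h2 : ¬ 0 < z w := fun h => hn ⟨hw, h⟩
      exact lt_of_le_of_ne (not_lt.mp h2) h0
    · rintro ⟨hw, hn⟩
      exact ⟨hw, fun h => absurd h.2 (not_lt.mpr hn.le)⟩
  have htwo : sp (pos W z) = ⊤ ∨ sp (neg W z) = ⊤ := by
    have := hW.two (pos W z) (Finset.filter_subset _ _)
    rwa [hsd] at this
  have hno := hW.nofull z hz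
  unfold sg
  rw [h1.1, h1.2.1, neg_neg]
  tauto

end Pool.J0
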