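import Pool.Agent.Helper790.J0.Defs
import Pool.Agent.Helper790.J0.P_neg_neg_pos
import Pool.Agent.Helper790.J0.P_sg_neg
import Pool.Agent.Helper790.J0.P_cross_state
import Pool.Agent.Helper790.J0.P_cross_minus

set_option autoImplicit false

namespace Pool.J0
open Module
open scoped Classical
variable {E : Type*} [AddCommGroup E] [Module ℝ E] [FiniteDimensional ℝ E]


theorem cross_single_split {W : Finset E} {y : Dual ℝ E} {v : E} (hv : v ∈ W) :
    v ∈ pos W y ∨ v ∈ neg W y ∨ v ∈ zer W y := by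
  rcases lt_trichotomy (y v) 0 with h | h | h
  · exact Or.inr (Or.inl (Finset.mem_filter.2 ⟨hv, h⟩))
  · exact Or.inr (Or.inr (Finset.mem_filter.2 ⟨hv, h⟩))
  · exact Or.inl (Finset.mem_filter.2 ⟨hv, h⟩)

theorem cross_single_col {W : Finset E} (hW : Cfg W) {z : Dual ℝ E} (hz : ∀ v ∈ W, z v ≠ 0) :
    (sp (neg W z) = ⊤ ∧ ¬ sp (pos W z) = ⊤) ∨ (sp (pos W z) = ⊤ ∧ ¬ sp (neg W z) = ⊤) := by
  have h1 : W \ pos W z = neg W z := by
    ext v
    simp only [pos, neg, Finset.mem_sdiff, Finset.mem_filter]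
    constructor
    · rintro ⟨h, h'⟩
      refine ⟨h, ?_⟩
      rcases lt_trichotomy (z v) 0 with h2 | h2 | h2
      · exact h2
      · exact absurd h2 (hz v h)
      · exact absurd ⟨h, h2⟩ h'
    · rintro ⟨h, h'⟩
      exact ⟨h, fun h2 => absurd h2.2 (not_lt.2 h'.le)⟩
  have h2 := hW.two (pos W z) (Finset.filter_subset _ _)
  rw [h1] at h2
  have h3 := hW.nofull z hz
  by_cases h4 : sp (pos W z) = ⊤
  · exact Or.inr ⟨h4, fun h5 => h3 ⟨h4, h5⟩⟩
  · rcases h2 with h2 | h2
    · exact absurd h2 h4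
    · exact Or.inl ⟨h2, h4⟩

theorem cross_single {W : Finset E} (hW : Cfg W) (hl : 2 * finrank ℝ E ≤ W.card) (w : Dual ℝ E) (g : E)
    (hz : zer W w = {g}) (z z' : Dual ℝ E)
    (hp : pos W z = pos W w) (hn : neg W z = insert g (neg W w))
    (hp' : pos W z' = insert g (pos W w)) (hn' : neg W z' = neg W w) : sg W z ↔ sg W z' := by
  have hmem : ∀ v ∈ W, v ∈ pos W w ∨ v ∈ neg W w ∨ v = g := by
    intro v hv
    rcases cross_single_split (y := w) hv with h | h | h
    · exact Or.inl h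
    · exact Or.inr (Or.inl h)
    · rw [hz, Finset.mem_singleton] at h
      exact Or.inr (Or.inr h)
  have hz0 : ∀ v ∈ W, z v ≠ 0 := by
    intro v hv
    have h : v ∈ pos W z ∨ v ∈ neg W z := by
      rw [hp, hn, Finset.mem_insert]
      rcases hmem v hv with h | h | h <;> tauto
    rcases h with h | h
    · exact (Finset.mem_filter.1 h).2.ne'
    · exact (Finset.mem_filter.1 h).2.ne
  have hz0' : ∀ v ∈ W, z' v ≠ 0 := by
    intro v hv
    have h : v ∈ pos W z' ∨ v ∈ neg W z' := by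
      rw [hp', hn', Finset.mem_insert]
      rcases hmem v hv with h | h | h <;> tauto
    rcases h with h | h
    · exact (Finset.mem_filter.1 h).2.ne'
    · exact (Finset.mem_filter.1 h).2.ne
  rcases cross_single_col hW hz0 with ⟨hA, hnB⟩ | ⟨hB, hnA⟩ <;>
    rcases cross_single_col hW hz0' with ⟨hA', hnB'⟩ | ⟨hB', hnA'⟩
  · have h := cross_minus hW w g hz z z' hp hn hp' hn' hA'
    unfold sg
    tauto
  · exact cross_state hW hl w g hz z z' hp hn hp' hn' hA hB'
  · exfalso
    apply hnB'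
    rw [hp'] 
    rw [hp] at hB
    refine eq_top_iff.2 (hB.symm.le.trans (Submodule.span_mono ?_))
    exact_mod_cast Finset.subset_insert _ _
  · obtain ⟨w1, w2, w3⟩ := neg_neg_pos W w
    obtain ⟨z1, z2, z3⟩ := neg_neg_pos W z
    obtain ⟨y1, y2, y3⟩ := neg_neg_pos W z'
    have h := cross_minus hW (-w) g (by rw [w3, hz]) (-z') (-z) (by rw [y1, w1, hn'])
      (by rw [y2, w2, hp']) (by rw [z1, w1, hn]) (by rw [z2, w2, hp]) (by rw [z2]; exact hB)
    unfold sg
    tauto

end Pool.J0
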