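import Pool.Agent.Helper790.J0.Defs
import Pool.Agent.Helper790.J0.P_gen_avoid
import Pool.Agent.Helper790.J0.P_gen_sub

set_option autoImplicit false

namespace Pool.J0
open Module
open scoped Classical
variable {E : Type*} [AddCommGroup E] [Module ℝ E] [FiniteDimensional ℝ E]


theorem generic_pair (W : Finset E) (h0 : (0 : E) ∉ W) (hdim : 2 ≤ finrank ℝ E) :
    ∃ z₀ z₁ : Dual ℝ E, (∀ w ∈ W, z₀ w ≠ 0) ∧ (∀ w ∈ W, z₀ w * z₁ w < 0) ∧
      ∀ a b : ℝ, (a ≠ 0 ∨ b ≠ 0) → finrank ℝ (sp (zer W (a • z₀ + b • z₁))) ≤ 1 := by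
  obtain ⟨z₀, hz₀⟩ := gen_avoid W (fun t ht e => h0 (e ▸ ht))
  let FF : Finset (Submodule ℝ (Dual ℝ E)) :=
    (W.powerset.filter (fun Z => 2 ≤ finrank ℝ (sp Z))).image
      (fun Z => (sp Z).dualAnnihilator ⊔ Submodule.span ℝ {z₀})
  have hFF : ∀ Γ ∈ FF, ¬ (⊤ : Submodule ℝ (Dual ℝ E)) ≤ Γ := by
    intro Γ hΓ
    rw [Finset.mem_image] at hΓ
    obtain ⟨Z, hZ, rfl⟩ := hΓ
    rw [Finset.mem_filter] at hZ
    intro hle
    have h1 : finrank ℝ (Dual ℝ E) ≤
        finrank ℝ ((sp Z).dualAnnihilator ⊔ Submodule.span ℝ {z₀} : Submodule ℝ (Dual ℝ E)) := by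
      rw [top_le_iff.1 hle, finrank_top]
    have h2 := Submodule.finrank_add_le_finrank_add_finrank (sp Z).dualAnnihilator
      (Submodule.span ℝ {z₀})
    have h3 : finrank ℝ (Submodule.span ℝ {z₀}) ≤ 1 := by
      by_cases hz : z₀ = 0
      · rw [hz, Submodule.span_zero_singleton, finrank_bot]
        exact Nat.zero_le _
      · rw [finrank_span_singleton hz]
    have h4 := Subspace.finrank_add_finrank_dualAnnihilator_eq (sp Z)
    rw [Subspace.dual_finrank_eq] at h1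
    have h5 := hZ.2
    omega
  obtain ⟨ζ, -, hζ⟩ := gen_sub (⊤ : Submodule ℝ (Dual ℝ E)) FF hFF (-z₀)
  have hneg : ∀ᶠ ε in nhdsWithin (0 : ℝ) (Set.Ioi 0), ∀ w ∈ W, z₀ w * ((-z₀ + ε • ζ) w) < 0 := by
    rw [Filter.eventually_all_finset]
    intro w hw
    apply Filter.Eventually.filter_mono nhdsWithin_le_nhds
    have hc : Continuous fun ε : ℝ => z₀ w * ((-z₀ + ε • ζ) w) := by
      show Continuous fun ε : ℝ => z₀ w * (-(z₀ w) + ε * ζ w)
      fun_prop
    have h5 : z₀ w * ((-z₀ + (0 : ℝ) • ζ) w) < 0 := by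
      simp only [zero_smul, add_zero, LinearMap.neg_apply]
      have := mul_self_pos.2 (hz₀ w hw)
      linarith
    exact hc.continuousAt.eventually (gt_mem_nhds h5)
  obtain ⟨ε, hε1, hε2⟩ := (hζ.and hneg).exists
  refine ⟨z₀, -z₀ + ε • ζ, hz₀, hε2, ?_⟩
  generalize -z₀ + ε • ζ = z₁ at hε1
  intro a b hab
  by_contra hcon
  push Not at hcon
  have hsub : zer W (a • z₀ + b • z₁) ⊆ W := Finset.filter_subset _ _
  have hmem : (sp (zer W (a • z₀ + b • z₁))).dualAnnihilator ⊔ Submodule.span ℝ {z₀} ∈ FF :=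
    Finset.mem_image.2 ⟨_, Finset.mem_filter.2 ⟨Finset.mem_powerset.2 hsub, hcon⟩, rfl⟩
  by_cases hb : b = 0
  · subst hb
    have ha : a ≠ 0 := by
      rcases hab with h | h
      · exact h
      · exact absurd rfl h
    have hne : (zer W (a • z₀ + (0 : ℝ) • z₁)).Nonempty := by
      rw [Finset.nonempty_iff_ne_empty]
      intro he
      have hbot : sp (∅ : Finset E) = ⊥ := by simp [sp]
      rw [he, hbot, finrank_bot] at hcon
      omega
    obtain ⟨w, hw⟩ := hne
    have hw' := Finset.mem_filter.1 hw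
    have hw2 := hw'.2
    simp only [zero_smul, add_zero, LinearMap.smul_apply, smul_eq_mul] at hw2
    rcases mul_eq_zero.1 hw2 with h | h
    · exact ha h
    · exact hz₀ w hw'.1 h
  · apply hε1 _ hmem
    have hψ : a • z₀ + b • z₁ ∈ (sp (zer W (a • z₀ + b • z₁))).dualAnnihilator := by
      rw [Submodule.mem_dualAnnihilator]
      intro w hw
      have hle : sp (zer W (a • z₀ + b • z₁)) ≤ LinearMap.ker (a • z₀ + b • z₁) := by
        rw [Submodule.span_le]
        intro u hu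
        exact (Finset.mem_filter.1 hu).2
      exact hle hw
    have he : z₁ = b⁻¹ • (a • z₀ + b • z₁) + (-(b⁻¹ * a)) • z₀ := by
      rw [smul_add, smul_smul, smul_smul, inv_mul_cancel₀ hb, one_smul]
      module
    have hg : b⁻¹ • (a • z₀ + b • z₁) + (-(b⁻¹ * a)) • z₀ ∈
        (sp (zer W (a • z₀ + b • z₁))).dualAnnihilator ⊔ Submodule.span ℝ {z₀} :=
      Submodule.add_mem_sup (Submodule.smul_mem _ _ hψ)
        (Submodule.smul_mem _ _ (Submodule.mem_span_singleton_self _))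
    rw [← he] at hg
    exact hg

end Pool.J0
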