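import Pool.Agent.Helper790.J0.Defs

set_option autoImplicit false

namespace Pool.J0
open Module
open scoped Classical
variable {E : Type*} [AddCommGroup E] [Module ℝ E] [FiniteDimensional ℝ E]

theorem seg_const_val (W : Finset E) (z₀ z₁ : Dual ℝ E) (t : ℝ) (w : E) :
    ((1 - t) • z₀ + t • z₁) w = (1 - t) * z₀ w + t * z₁ w := by
  simp only [LinearMap.add_apply, LinearMap.smul_apply, smul_eq_mul]

theorem seg_const_near (W : Finset E) (z₀ z₁ : Dual ℝ E) (s : ℝ) :
    ∀ᶠ t in nhds s, ∀ w ∈ W,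
      (0 < (1 - s) * z₀ w + s * z₁ w → 0 < (1 - t) * z₀ w + t * z₁ w) ∧
      ((1 - s) * z₀ w + s * z₁ w < 0 → (1 - t) * z₀ w + t * z₁ w < 0) := by
  rw [Filter.eventually_all_finset]
  intro w _
  have hc : Continuous (fun t : ℝ => (1 - t) * z₀ w + t * z₁ w) := by fun_prop
  have h1 : ∀ᶠ t in nhds s, (0 < (1 - s) * z₀ w + s * z₁ w → 0 < (1 - t) * z₀ w + t * z₁ w) := by
    by_cases h : 0 < (1 - s) * z₀ w + s * z₁ w
    · filter_upwards [(hc.tendsto s).eventually (lt_mem_nhds h)] with t ht _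
      exact ht
    · exact Filter.Eventually.of_forall (fun t h' => absurd h' h)
  have h2 : ∀ᶠ t in nhds s, ((1 - s) * z₀ w + s * z₁ w < 0 → (1 - t) * z₀ w + t * z₁ w < 0) := by
    by_cases h : (1 - s) * z₀ w + s * z₁ w < 0
    · filter_upwards [(hc.tendsto s).eventually (gt_mem_nhds h)] with t ht _
      exact ht
    · exact Filter.Eventually.of_forall (fun t h' => absurd h' h)
  exact h1.and h2

theorem seg_const_right (W : Finset E) (z₀ z₁ : Dual ℝ E) (s : ℝ) :
    ∀ᶠ t in nhdsWithin s (Set.Ioi s),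
      pos W ((1 - t) • z₀ + t • z₁) = pos W ((1 - s) • z₀ + s • z₁) ∪
        (zer W ((1 - s) • z₀ + s • z₁)).filter (fun w => 0 < (z₁ - z₀) w) ∧
      neg W ((1 - t) • z₀ + t • z₁) = neg W ((1 - s) • z₀ + s • z₁) ∪
        (zer W ((1 - s) • z₀ + s • z₁)).filter (fun w => (z₁ - z₀) w < 0) := by
  filter_upwards [(seg_const_near W z₀ z₁ s).filter_mono nhdsWithin_le_nhds,
    self_mem_nhdsWithin] with t ht hts
  have hts' : 0 < t - s := sub_pos.2 hts
  constructor
  · ext w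
    simp only [pos, zer, Finset.mem_union, Finset.mem_filter, seg_const_val W, LinearMap.sub_apply]
    by_cases hw : w ∈ W
    · obtain ⟨h1, h2⟩ := ht w hw
      have h3 : (1 - t) * z₀ w + t * z₁ w = (1 - s) * z₀ w + s * z₁ w + (t - s) * (z₁ w - z₀ w) := by
        ring
      rcases lt_trichotomy ((1 - s) * z₀ w + s * z₁ w) 0 with h | h | h
      · have h4 := h2 h
        constructor
        · rintro ⟨_, h5⟩
          exact absurd h5 (not_lt.2 h4.le)
        · rintro (⟨_, h5⟩ | ⟨⟨_, h5⟩, _⟩)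
          · exact absurd h5 (not_lt.2 h.le)
          · exact absurd h5 h.ne
      · rw [h3, h, zero_add]
        constructor
        · rintro ⟨_, h5⟩
          exact Or.inr ⟨⟨hw, rfl⟩, (mul_pos_iff_of_pos_left hts').1 h5⟩
        · rintro (⟨_, h5⟩ | ⟨⟨_, h5⟩, h6⟩)
          · exact absurd h5 (lt_irrefl _)
          · exact ⟨hw, mul_pos hts' h6⟩
      · have h4 := h1 h
        constructor
        · intro _
          exact Or.inl ⟨hw, h⟩
        · intro _
          exact ⟨hw, h4⟩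
    · simp [hw]
  · ext w
    simp only [neg, zer, Finset.mem_union, Finset.mem_filter, seg_const_val W, LinearMap.sub_apply]
    by_cases hw : w ∈ W
    · obtain ⟨h1, h2⟩ := ht w hw
      have h3 : (1 - t) * z₀ w + t * z₁ w = (1 - s) * z₀ w + s * z₁ w + (t - s) * (z₁ w - z₀ w) := by
        ring
      rcases lt_trichotomy ((1 - s) * z₀ w + s * z₁ w) 0 with h | h | h
      · have h4 := h2 h
        constructor
        · intro _
          exact Or.inl ⟨hw, h⟩
        · intro _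
          exact ⟨hw, h4⟩
      · rw [h3, h, zero_add]
        constructor
        · rintro ⟨_, h5⟩
          refine Or.inr ⟨⟨hw, rfl⟩, ?_⟩
          by_contra h6
          push Not at h6
          exact absurd h5 (not_lt.2 (mul_nonneg hts'.le h6))
        · rintro (⟨_, h5⟩ | ⟨⟨_, h5⟩, h6⟩)
          · exact absurd h5 (lt_irrefl _)
          · exact ⟨hw, mul_neg_of_pos_of_neg hts' h6⟩
      · have h4 := h1 h
        constructor
        · rintro ⟨_, h5⟩
          exact absurd h5 (not_lt.2 h4.le)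
        · rintro (⟨_, h5⟩ | ⟨⟨_, h5⟩, _⟩)
          · exact absurd h5 (not_lt.2 h.le)
          · exact absurd h5 h.ne'
    · simp [hw]

theorem seg_const_left (W : Finset E) (z₀ z₁ : Dual ℝ E) (s : ℝ) :
    ∀ᶠ t in nhdsWithin s (Set.Iio s),
      pos W ((1 - t) • z₀ + t • z₁) = pos W ((1 - s) • z₀ + s • z₁) ∪
        (zer W ((1 - s) • z₀ + s • z₁)).filter (fun w => (z₁ - z₀) w < 0) ∧
      neg W ((1 - t) • z₀ + t • z₁) = neg W ((1 - s) • z₀ + s • z₁) ∪
        (zer W ((1 - s) • z₀ + s • z₁)).filter (fun w => 0 < (z₁ - z₀) w) := by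
  filter_upwards [(seg_const_near W z₀ z₁ s).filter_mono nhdsWithin_le_nhds,
    self_mem_nhdsWithin] with t ht hts
  have hts' : 0 < s - t := sub_pos.2 hts
  constructor
  · ext w
    simp only [pos, zer, Finset.mem_union, Finset.mem_filter, seg_const_val W, LinearMap.sub_apply]
    by_cases hw : w ∈ W
    · obtain ⟨h1, h2⟩ := ht w hw
      have h3 : (1 - t) * z₀ w + t * z₁ w = (1 - s) * z₀ w + s * z₁ w - (s - t) * (z₁ w - z₀ w) := by
        ring
      rcases lt_trichotomy ((1 - s) * z₀ w + s * z₁ w) 0 with h | h | h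
      · have h4 := h2 h
        constructor
        · rintro ⟨_, h5⟩
          exact absurd h5 (not_lt.2 h4.le)
        · rintro (⟨_, h5⟩ | ⟨⟨_, h5⟩, _⟩)
          · exact absurd h5 (not_lt.2 h.le)
          · exact absurd h5 h.ne
      · rw [h3, h, zero_sub]
        constructor
        · rintro ⟨_, h5⟩
          refine Or.inr ⟨⟨hw, rfl⟩, ?_⟩
          by_contra h6
          push Not at h6
          have := mul_nonneg hts'.le h6
          linarith
        · rintro (⟨_, h5⟩ | ⟨⟨_, h5⟩, h6⟩)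
          · exact absurd h5 (lt_irrefl _)
          · refine ⟨hw, ?_⟩
            have := mul_neg_of_pos_of_neg hts' h6
            linarith
      · have h4 := h1 h
        constructor
        · intro _
          exact Or.inl ⟨hw, h⟩
        · intro _
          exact ⟨hw, h4⟩
    · simp [hw]
  · ext w
    simp only [neg, zer, Finset.mem_union, Finset.mem_filter, seg_const_val W, LinearMap.sub_apply]
    by_cases hw : w ∈ W
    · obtain ⟨h1, h2⟩ := ht w hw
      have h3 : (1 - t) * z₀ w + t * z₁ w = (1 - s) * z₀ w + s * z₁ w - (s - t) * (z₁ w - z₀ w) := by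
        ring
      rcases lt_trichotomy ((1 - s) * z₀ w + s * z₁ w) 0 with h | h | h
      · have h4 := h2 h
        constructor
        · intro _
          exact Or.inl ⟨hw, h⟩
        · intro _
          exact ⟨hw, h4⟩
      · rw [h3, h, zero_sub]
        constructor
        · rintro ⟨_, h5⟩
          refine Or.inr ⟨⟨hw, rfl⟩, ?_⟩
          by_contra h6
          push Not at h6
          have := mul_nonneg hts'.le (sub_nonneg.2 h6)
          nlinarith
        · rintro (⟨_, h5⟩ | ⟨⟨_, h5⟩, h6⟩)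
          · exact absurd h5 (lt_irrefl _)
          · refine ⟨hw, ?_⟩
            have := mul_pos hts' h6
            linarith
      · have h4 := h1 h
        constructor
        · rintro ⟨_, h5⟩
          exact absurd h5 (not_lt.2 h4.le)
        · rintro (⟨_, h5⟩ | ⟨⟨_, h5⟩, _⟩)
          · exact absurd h5 (not_lt.2 h.le)
          · exact absurd h5 h.ne'
    · simp [hw]

theorem seg_const_nz (W : Finset E) (z₀ z₁ : Dual ℝ E) (s : ℝ)
    (h : ∀ w ∈ W, ((1 - s) • z₀ + s • z₁) w ≠ 0) :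
    ∀ᶠ t in nhdsWithin s {s}ᶜ,
      pos W ((1 - t) • z₀ + t • z₁) = pos W ((1 - s) • z₀ + s • z₁) ∧
      neg W ((1 - t) • z₀ + t • z₁) = neg W ((1 - s) • z₀ + s • z₁) := by
  have hz : zer W ((1 - s) • z₀ + s • z₁) = ∅ := by
    unfold zer
    rw [Finset.filter_eq_empty_iff]
    intro w hw
    exact h w hw
  rw [← nhdsLT_sup_nhdsGT, Filter.eventually_sup]
  constructor
  · filter_upwards [seg_const_left W z₀ z₁ s] with t ht
    rw [hz] at ht
    simpa using ht
  · filter_upwards [seg_const_right W z₀ z₁ s] with t ht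
    rw [hz] at ht
    simpa using ht

/-- Abstract statement: a property of topes which does not change when the segment from `z₀` to `z₁` crosses a wall. -/
theorem seg_const (W : Finset E) (z₀ z₁ : Dual ℝ E) (h0 : ∀ w ∈ W, z₀ w ≠ 0) (h1 : ∀ w ∈ W, z₁ w ≠ 0)
    (p : Dual ℝ E → Prop)
    (hcongr : ∀ z z' : Dual ℝ E, pos W z = pos W z' → neg W z = neg W z' → (p z ↔ p z'))
    (hcross : ∀ t : ℝ, 0 < t → t < 1 → ∀ z z' : Dual ℝ E,
      pos W z = pos W ((1 - t) • z₀ + t • z₁) ∪ (zer W ((1 - t) • z₀ + t • z₁)).filter (fun w => (z₁ - z₀) w < 0) →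
      neg W z = neg W ((1 - t) • z₀ + t • z₁) ∪ (zer W ((1 - t) • z₀ + t • z₁)).filter (fun w => 0 < (z₁ - z₀) w) →
      pos W z' = pos W ((1 - t) • z₀ + t • z₁) ∪ (zer W ((1 - t) • z₀ + t • z₁)).filter (fun w => 0 < (z₁ - z₀) w) →
      neg W z' = neg W ((1 - t) • z₀ + t • z₁) ∪ (zer W ((1 - t) • z₀ + t • z₁)).filter (fun w => (z₁ - z₀) w < 0) →
      (p z ↔ p z')) : p z₀ ↔ p z₁ := by
  have hzero : (1 - (0 : ℝ)) • z₀ + (0 : ℝ) • z₁ = z₀ := by simp
  have hone : (1 - (1 : ℝ)) • z₀ + (1 : ℝ) • z₁ = z₁ := by simp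
  have hA : IsOpen {s : ℝ | ∀ᶠ t in nhdsWithin s {s}ᶜ, p ((1 - t) • z₀ + t • z₁)} :=
    isOpen_setOf_eventually_nhdsWithin
  have hB : IsOpen {s : ℝ | ∀ᶠ t in nhdsWithin s {s}ᶜ, ¬ p ((1 - t) • z₀ + t • z₁)} :=
    isOpen_setOf_eventually_nhdsWithin
  have hdisj : Disjoint {s : ℝ | ∀ᶠ t in nhdsWithin s {s}ᶜ, p ((1 - t) • z₀ + t • z₁)}
      {s : ℝ | ∀ᶠ t in nhdsWithin s {s}ᶜ, ¬ p ((1 - t) • z₀ + t • z₁)} := by
    rw [Set.disjoint_left]
    intro s hs1 hs2
    have hs1' : ∀ᶠ t in nhdsWithin s {s}ᶜ, p ((1 - t) • z₀ + t • z₁) := hs1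
    have hs2' : ∀ᶠ t in nhdsWithin s {s}ᶜ, ¬ p ((1 - t) • z₀ + t • z₁) := hs2
    obtain ⟨t, ht1, ht2⟩ := (hs1'.and hs2').exists
    exact ht2 ht1
  have hloc0 : ∀ᶠ t in nhdsWithin (0 : ℝ) {0}ᶜ, (p ((1 - t) • z₀ + t • z₁) ↔ p z₀) := by
    have := seg_const_nz W z₀ z₁ 0 (by rw [hzero]; exact h0)
    rw [hzero] at this
    filter_upwards [this] with t ht
    exact hcongr _ _ ht.1 ht.2
  have hloc1 : ∀ᶠ t in nhdsWithin (1 : ℝ) {1}ᶜ, (p ((1 - t) • z₀ + t • z₁) ↔ p z₁) := by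
    have := seg_const_nz W z₀ z₁ 1 (by rw [hone]; exact h1)
    rw [hone] at this
    filter_upwards [this] with t ht
    exact hcongr _ _ ht.1 ht.2
  have hloc : ∀ s ∈ Set.Icc (0 : ℝ) 1, ∃ Q : Prop,
      ∀ᶠ t in nhdsWithin s {s}ᶜ, (p ((1 - t) • z₀ + t • z₁) ↔ Q) := by
    intro s hs
    rcases eq_or_lt_of_le hs.1 with h | h
    · subst h
      exact ⟨_, hloc0⟩
    · rcases eq_or_lt_of_le hs.2 with h' | h'
      · subst h'
        exact ⟨_, hloc1⟩
      · have hr := seg_const_right W z₀ z₁ s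
        have hl := seg_const_left W z₀ z₁ s
        obtain ⟨t0, ht0⟩ := hr.exists
        refine ⟨p ((1 - t0) • z₀ + t0 • z₁), ?_⟩
        rw [← nhdsLT_sup_nhdsGT, Filter.eventually_sup]
        constructor
        · filter_upwards [hl] with t ht
          exact hcross s h h' _ _ ht.1 ht.2 ht0.1 ht0.2
        · filter_upwards [hr] with t ht
          exact hcongr _ _ (ht.1.trans ht0.1.symm) (ht.2.trans ht0.2.symm)
  have hcov : Set.Icc (0 : ℝ) 1 ⊆
      {s : ℝ | ∀ᶠ t in nhdsWithin s {s}ᶜ, p ((1 - t) • z₀ + t • z₁)} ∪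
      {s : ℝ | ∀ᶠ t in nhdsWithin s {s}ᶜ, ¬ p ((1 - t) • z₀ + t • z₁)} := by
    intro s hs
    obtain ⟨Q, hQ⟩ := hloc s hs
    by_cases hq : Q
    · left
      filter_upwards [hQ] with t ht
      exact ht.2 hq
    · right
      filter_upwards [hQ] with t ht
      exact fun h => hq (ht.1 h)
  rcases isPreconnected_Icc.subset_or_subset hA hB hdisj hcov with h | h
  · have e0 : ∀ᶠ t in nhdsWithin (0 : ℝ) {0}ᶜ, p ((1 - t) • z₀ + t • z₁) :=
      h (Set.left_mem_Icc.2 zero_le_one)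
    have e1 : ∀ᶠ t in nhdsWithin (1 : ℝ) {1}ᶜ, p ((1 - t) • z₀ + t • z₁) :=
      h (Set.right_mem_Icc.2 zero_le_one)
    obtain ⟨t, ht, ht'⟩ := (e0.and hloc0).exists
    obtain ⟨u, hu, hu'⟩ := (e1.and hloc1).exists
    exact ⟨fun _ => hu'.1 hu, fun _ => ht'.1 ht⟩
  · have e0 : ∀ᶠ t in nhdsWithin (0 : ℝ) {0}ᶜ, ¬ p ((1 - t) • z₀ + t • z₁) :=
      h (Set.left_mem_Icc.2 zero_le_one)
    have e1 : ∀ᶠ t in nhdsWithin (1 : ℝ) {1}ᶜ, ¬ p ((1 - t) • z₀ + t • z₁) :=
      h (Set.right_mem_Icc.2 zero_le_one)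
    obtain ⟨t, ht, ht'⟩ := (e0.and hloc0).exists
    obtain ⟨u, hu, hu'⟩ := (e1.and hloc1).exists
    exact ⟨fun hp => absurd (ht'.2 hp) ht, fun hp => absurd (hu'.2 hp) hu⟩

end Pool.J0
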