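import Pool.Agent.Helper790.J0.Defs

set_option autoImplicit false

namespace Pool.J0
open Module
open scoped Classical
variable {E : Type*} [AddCommGroup E] [Module ℝ E] [FiniteDimensional ℝ E]


theorem pos_neg_aux (W : Finset E) (z : Dual ℝ E) : pos W (-z) = neg W z := by
  unfold pos neg
  apply Finset.filter_congr
  intro w _
  simp

theorem sg_congr (W : Finset E) (z z' : Dual ℝ E) (hp : pos W z = pos W z') (hn : neg W z = neg W z') :
    sg W z ↔ sg W z' := by
  unfold sg PL
  rw [pos_neg_aux, pos_neg_aux, hp, hn]

end Pool.J0
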