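import Pool.Agent.Helper790.J0.Defs
import Pool.Agent.Helper790.J0.P_sg_congr
import Pool.Agent.Helper790.J0.P_sg_neg
import Pool.Agent.Helper790.J0.P_cross_single
import Pool.Agent.Helper790.J0.P_cross_pair
import Pool.Agent.Helper790.J0.P_seg_const
import Pool.Agent.Helper790.J0.P_generic_pair

set_option autoImplicit false

namespace Pool.J0
open Module
open scoped Classical
variable {E : Type*} [AddCommGroup E] [Module ℝ E] [FiniteDimensional ℝ E]


theorem no_cfg_union_single (A : Finset E) (g : E) : A ∪ {g} = insert g A := by
  ext x; simp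

theorem no_cfg_multiple (S : Finset E) (hS : finrank ℝ (sp S) ≤ 1) (g g' : E) (hg : g ∈ S)
    (hg' : g' ∈ S) (h0 : g ≠ 0) : ∃ c : ℝ, g' = c • g := by
  obtain ⟨v, hv⟩ := finrank_le_one_iff.1 hS
  obtain ⟨a, ha⟩ := hv ⟨g, Submodule.subset_span hg⟩
  obtain ⟨b, hb⟩ := hv ⟨g', Submodule.subset_span hg'⟩
  have ha' : a • (v : E) = g := congrArg Subtype.val ha
  have hb' : b • (v : E) = g' := congrArg Subtype.val hb
  have hane : a ≠ 0 := by
    rintro rfl
    rw [zero_smul] at ha'
    exact h0 ha'.symm
  refine ⟨b / a, ?_⟩
  rw [← ha', ← hb', smul_smul, div_mul_cancel₀ b hane]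

theorem no_cfg {W : Finset E} (hW : Cfg W) (hl : 2 * finrank ℝ E ≤ W.card) (hdim : 2 ≤ finrank ℝ E) : False := by
  obtain ⟨z₀, z₁, h0, hprod, hrank⟩ := generic_pair W hW.zero hdim
  have h1 : ∀ w ∈ W, z₁ w ≠ 0 := by
    intro w hw h
    have := hprod w hw
    rw [h, mul_zero] at this
    exact lt_irrefl _ this
  have key : sg W z₀ ↔ sg W z₁ := by
    apply seg_const W z₀ z₁ h0 h1 (sg W) (fun z z' hp hn => sg_congr W z z' hp hn)
    intro t ht0 ht1 z z' hp hn hp' hn'
    set w := (1 - t) • z₀ + t • z₁ with hw
    set d := z₁ - z₀ with hd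
    have hr : finrank ℝ (sp (zer W w)) ≤ 1 := hrank (1 - t) t (Or.inl (by linarith))
    have hdne : ∀ g ∈ zer W w, d g ≠ 0 := by
      intro g hg hdg
      have hgW : g ∈ W := (Finset.mem_filter.1 hg).1
      have e1 : z₁ g = z₀ g := by
        have : z₁ g - z₀ g = 0 := hdg
        linarith
      have e2 := hprod g hgW
      rw [e1] at e2
      nlinarith [mul_self_nonneg (z₀ g)]
    rcases (zer W w).eq_empty_or_nonempty with he | ⟨g, hg⟩
    · rw [he] at hp hn hp' hn'
      simp only [Finset.filter_empty, Finset.union_empty] at hp hn hp' hn'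
      exact sg_congr W z z' (hp.trans hp'.symm) (hn.trans hn'.symm)
    · have hgW : g ∈ W := (Finset.mem_filter.1 hg).1
      have hg0 : g ≠ 0 := fun h => hW.zero (h ▸ hgW)
      by_cases hall : ∀ g' ∈ zer W w, g' = g
      · have hz : zer W w = {g} := by
          ext x
          rw [Finset.mem_singleton]
          exact ⟨fun h => hall x h, fun h => h ▸ hg⟩
        rw [hz] at hp hn hp' hn'
        rcases lt_or_gt_of_ne (hdne g hg) with hlt | hgt
        · have f1 : ({g} : Finset E).filter (fun w => d w < 0) = {g} := by
            rw [Finset.filter_singleton, if_pos hlt]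
          have f2 : ({g} : Finset E).filter (fun w => 0 < d w) = ∅ := by
            rw [Finset.filter_singleton, if_neg (not_lt.2 hlt.le)]
          rw [f1, no_cfg_union_single] at hp hn'
          rw [f2, Finset.union_empty] at hn hp'
          exact (cross_single hW hl w g hz z' z hp' hn' hp hn).symm
        · have f1 : ({g} : Finset E).filter (fun w => d w < 0) = ∅ := by
            rw [Finset.filter_singleton, if_neg (not_lt.2 (le_of_lt hgt))]
          have f2 : ({g} : Finset E).filter (fun w => 0 < d w) = {g} := by
            rw [Finset.filter_singleton, if_pos hgt]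
          rw [f1, Finset.union_empty] at hp hn'
          rw [f2, no_cfg_union_single] at hn hp'
          exact cross_single hW hl w g hz z z' hp hn hp' hn'
      · push_neg at hall
        obtain ⟨g', hg', hne⟩ := hall
        have hgW' : g' ∈ W := (Finset.mem_filter.1 hg').1
        have hg0' : g' ≠ 0 := fun h => hW.zero (h ▸ hgW')
        obtain ⟨c, hc⟩ := no_cfg_multiple _ hr g g' hg hg' hg0
        have hc0 : c < 0 := by
          rcases lt_trichotomy c 0 with h | h | h
          · exact h
          · exfalso; rw [h, zero_smul] at hc; exact hg0' hc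
          · exact absurd (hW.par g' hgW' g hgW c h hc) hne
        have hz : zer W w = {g, g'} := by
          ext x
          rw [Finset.mem_insert, Finset.mem_singleton]
          constructor
          · intro hx
            have hxW : x ∈ W := (Finset.mem_filter.1 hx).1
            have hx0 : x ≠ 0 := fun h => hW.zero (h ▸ hxW)
            obtain ⟨e, he⟩ := no_cfg_multiple _ hr g x hg hx hg0
            rcases lt_trichotomy e 0 with h | h | h
            · right
              apply hW.par x hxW g' hgW' (e / c) (div_pos_of_neg_of_neg h hc0)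
              rw [hc, smul_smul, div_mul_cancel₀ e hc0.ne, ← he]
            · exfalso; rw [h, zero_smul] at he; exact hx0 he
            · left; exact hW.par x hxW g hgW e h he
          · rintro (h | h)
            · exact h ▸ hg
            · exact h ▸ hg'
        have hdg' : d g' = c * d g := by rw [hc, map_smul, smul_eq_mul]
        rw [hz] at hp hn hp' hn'
        rcases lt_or_gt_of_ne (hdne g hg) with hlt | hgt
        · have hpos' : 0 < d g' := by rw [hdg']; exact mul_pos_of_neg_of_neg hc0 hlt
          have f1 : ({g, g'} : Finset E).filter (fun w => d w < 0) = {g} := by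
            rw [Finset.filter_insert, if_pos hlt, Finset.filter_singleton,
              if_neg (not_lt.2 hpos'.le)]
            exact LawfulSingleton.insert_empty_eq g
          have f2 : ({g, g'} : Finset E).filter (fun w => 0 < d w) = {g'} := by
            rw [Finset.filter_insert, if_neg (not_lt.2 hlt.le), Finset.filter_singleton,
              if_pos hpos']
          rw [f1, no_cfg_union_single] at hp hn'
          rw [f2, no_cfg_union_single] at hn hp'
          exact (cross_pair hW w g g' c hc0 hc hz z' z hp' hn' hp hn).symm
        · have hneg' : d g' < 0 := by rw [hdg']; exact mul_neg_of_neg_of_pos hc0 hgt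
          have f1 : ({g, g'} : Finset E).filter (fun w => d w < 0) = {g'} := by
            rw [Finset.filter_insert, if_neg (not_lt.2 (le_of_lt hgt)), Finset.filter_singleton,
              if_pos hneg']
          have f2 : ({g, g'} : Finset E).filter (fun w => 0 < d w) = {g} := by
            rw [Finset.filter_insert, if_pos hgt, Finset.filter_singleton,
              if_neg (not_lt.2 hneg'.le)]
            exact LawfulSingleton.insert_empty_eq g
          rw [f1, no_cfg_union_single] at hp hn'
          rw [f2, no_cfg_union_single] at hn hp'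
          exact cross_pair hW w g g' c hc0 hc hz z z' hp hn hp' hn'
  have hsign : ∀ w ∈ W, (0 < z₁ w ↔ 0 < (-z₀) w) ∧ (z₁ w < 0 ↔ (-z₀) w < 0) := by
    intro w hw
    have h := hprod w hw
    have e : (-z₀) w = -(z₀ w) := rfl
    rw [e]
    rcases lt_or_gt_of_ne (h0 w hw) with h2 | h2
    · have h3 : 0 < z₁ w := by
        by_contra hcon
        nlinarith [not_lt.1 hcon]
      exact ⟨⟨fun _ => by linarith, fun _ => h3⟩, ⟨fun h4 => by linarith, fun h4 => by linarith⟩⟩
    · have h3 : z₁ w < 0 := by
        by_contra hcon
        nlinarith [not_lt.1 hcon]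
      exact ⟨⟨fun h4 => by linarith, fun h4 => by linarith⟩, ⟨fun _ => by linarith, fun _ => h3⟩⟩
  have hpp : pos W z₁ = pos W (-z₀) := by
    unfold pos
    exact Finset.filter_congr fun w hw => (hsign w hw).1
  have hnn : neg W z₁ = neg W (-z₀) := by
    unfold neg
    exact Finset.filter_congr fun w hw => (hsign w hw).2
  have h2 := sg_congr W z₁ (-z₀) hpp hnn
  have h3 := sg_neg hW z₀ h0
  tauto

end Pool.J0
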