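import Pool.Agent.Helper790.J0.Defs
import Pool.Agent.Helper790.J0.P_gen_avoid
import Pool.Agent.Helper790.J0.P_no_cfg

set_option autoImplicit false

namespace Pool.J0
open Module
open scoped Classical
variable {E : Type*} [AddCommGroup E] [Module ℝ E] [FiniteDimensional ℝ E]


/-- J0: a totally cyclic configuration, not in two hyperplanes, with at least `2 l` vectors, no two positively
parallel, has a tope with both sides spanning. -/
theorem main (W : Finset E) (h0 : (0 : E) ∉ W)
    (hpar : ∀ w ∈ W, ∀ w' ∈ W, ∀ c : ℝ, 0 < c → w = c • w' → w = w')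
    (htwo : ∀ S ⊆ W, sp S = ⊤ ∨ sp (W \ S) = ⊤)
    (hcyc : ∀ y : Dual ℝ E, (∀ w ∈ W, 0 ≤ y w) → y = 0)
    (hl : 2 * finrank ℝ E ≤ W.card) :
    ∃ y : Dual ℝ E, (∀ w ∈ W, y w ≠ 0) ∧ sp (pos W y) = ⊤ ∧ sp (neg W y) = ⊤ := by
  by_contra H
  have hnf : ∀ y : Dual ℝ E, (∀ w ∈ W, y w ≠ 0) → ¬ (sp (pos W y) = ⊤ ∧ sp (neg W y) = ⊤) := by
    intro y hy h
    exact H ⟨y, hy, h⟩
  have hC : Cfg W := ⟨h0, hpar, htwo, hcyc, hnf⟩
  rcases Nat.lt_or_ge (finrank ℝ E) 2 with hlt | hge
  · have hcase : finrank ℝ E = 0 ∨ finrank ℝ E = 1 := by omega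
    rcases hcase with h00 | h11
    · haveI : Subsingleton E := Module.finrank_zero_iff.mp h00
      refine H ⟨0, fun w hw => ?_, ?_, ?_⟩
      · exact absurd (Subsingleton.elim w 0 ▸ hw) h0
      · rw [eq_top_iff]
        intro x _
        rw [Subsingleton.elim x 0]
        exact Submodule.zero_mem _
      · rw [eq_top_iff]
        intro x _
        rw [Subsingleton.elim x 0]
        exact Submodule.zero_mem _
    · obtain ⟨y, hy⟩ := gen_avoid W (fun t ht h => h0 (h ▸ ht))
      have hne : W.Nonempty := by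
        rw [← Finset.card_pos]
        omega
      obtain ⟨w0, hw0⟩ := hne
      have hy0 : y ≠ 0 := by
        intro h
        exact hy w0 hw0 (by rw [h]; rfl)
      have hneg : ∃ w ∈ W, y w < 0 := by
        by_contra hcon
        push Not at hcon
        exact hy0 (hcyc y hcon)
      have hpos : ∃ w ∈ W, 0 < y w := by
        by_contra hcon
        push Not at hcon
        have h1 : (-y) = 0 := hcyc (-y) (fun w hw => by
          have h2 := hcon w hw
          rw [LinearMap.neg_apply]
          linarith)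
        exact hy0 (neg_eq_zero.mp h1)
      have key : ∀ S : Finset E, ∀ w ∈ S, w ≠ 0 → sp S = ⊤ := by
        intro S w hw hw0
        have h1 : Submodule.span ℝ {w} = ⊤ := (finrank_eq_one_iff_of_nonzero w hw0).mp h11
        rw [eq_top_iff, ← h1]
        exact Submodule.span_mono (by
          intro z hz
          rw [Set.mem_singleton_iff] at hz
          rw [hz]
          exact hw)
      obtain ⟨a, ha, ha1⟩ := hneg
      obtain ⟨b, hb, hb1⟩ := hpos
      refine H ⟨y, hy, ?_, ?_⟩
      · exact key _ b (Finset.mem_filter.mpr ⟨hb, hb1⟩) (fun h => h0 (h ▸ hb))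
      · exact key _ a (Finset.mem_filter.mpr ⟨ha, ha1⟩) (fun h => h0 (h ▸ ha))
  · exact no_cfg hC hl hge

end Pool.J0
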